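import Pool.Agent.Work.MP_9f8812_co.LG.Stmts
import Pool.Agent.Work.MP_a8f287_co.C3.Main5

/-!
# Lifts of graphic matroids: the induction
-/

set_option autoImplicit false

namespace Pool.Agent.Work.MP_9f8812_co.LG

open Submodule Module
open Pool.Agent.WW

/-- the density bound for good sets -/
theorem d3all (n : ℕ) : D3.{0} n :=
  have h := k4_of a3KL4 kHIT p2six
  d3_all_of tabR5 a3Small a3D3NoC4 h.1 h.2.1 h.2.2 t6step tabGQ tr5
    (a3CaseII c3Types (c3Deg claimCtrGood)) c3NoC4 n

theorem good_card {V : Type} [AddCommGroup V] [Module (ZMod 2) V] [FiniteDimensional (ZMod 2) V]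
    (E : Finset V) (h : Good (E : Set V)) : E.card ≤ 3 * finrank (ZMod 2) V := by
  classical
  exact d3all _ V E h rfl

/-- light functionals for the good sets of the class -/
def Light (lam : ℝ) (C : Prp) : Prop :=
  ∀ (V : Type) [AddCommGroup V] [Module (ZMod 2) V] [FiniteDimensional (ZMod 2) V]
    (E : Finset V) (X : Submodule (ZMod 2) V), C V (E : Set V) X → Good (E : Set V) →
    4 ≤ finrank (ZMod 2) V → 0 < q lam E ⊥ ∨ ∃ f : V →ₗ[ZMod 2] ZMod 2, f ≠ 0 ∧
      X ≤ LinearMap.ker f ∧ ((({x ∈ (E : Set V) | f x ≠ 0}).ncard : ℕ) : ℝ) ≤ lam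

/-- the side of a minimal separation is spanned -/
theorem side_span {V : Type} [AddCommGroup V] [Module (ZMod 2) V] [FiniteDimensional (ZMod 2) V]
    (E : Set V) (S H : Submodule (ZMod 2) V) (κ : ℕ) (hsp : span (ZMod 2) E = ⊤)
    (hge : SepGe E κ) (hS : S ≠ ⊤) (hH : H ≠ ⊤) (hcov : ∀ x ∈ E, x ∈ S ∨ x ∈ H)
    (hd : finrank (ZMod 2) ↥(S ⊓ H) = κ) : S ≤ span (ZMod 2) (E ∩ (S : Set V)) := by
  set S' := span (ZMod 2) (E ∩ (S : Set V)) with hS'
  have hle : S' ≤ S := span_le.2 fun x hx => hx.2
  have hcov' : ∀ x ∈ E, x ∈ S' ∨ x ∈ H := by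
    intro x hx
    rcases hcov x hx with h | h
    · exact Or.inl (subset_span ⟨hx, h⟩)
    · exact Or.inr h
  have htop : ∀ T : Submodule (ZMod 2) V, (∀ x ∈ E, x ∈ T ∨ x ∈ H) → T ⊔ H = ⊤ := by
    intro T hT
    rw [eq_top_iff, ← hsp, span_le]
    intro x hx
    rcases hT x hx with h | h
    · exact mem_sup_left h
    · exact mem_sup_right h
  have h1 := hge S' H (fun h => hS (top_le_iff.1 (h ▸ hle))) hH hcov'
  have e1 := Submodule.finrank_sup_add_finrank_inf_eq S' H
  have e2 := Submodule.finrank_sup_add_finrank_inf_eq S H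
  rw [htop S' hcov'] at e1
  rw [htop S hcov] at e2
  have h2 := Submodule.finrank_mono hle
  have h3 : finrank (ZMod 2) S' = finrank (ZMod 2) S := by omega
  exact (Submodule.eq_of_le_of_finrank_eq hle h3).ge

/-- the induction -/
theorem at_main (hSP : St_SP) (hVC : St_VC) (hS3 : St_S3) (hS012 : St_S012) (hSub : St_Sub)
    (lam : ℝ) (h5 : 5 ≤ lam) (C : Prp) (hC : OK C) (hL : Light lam C) (hKS : St_KS) :
    ∀ (n : ℕ) (V : Type) [AddCommGroup V] [Module (ZMod 2) V] [FiniteDimensional (ZMod 2) V]
      (E : Finset V) (X : Submodule (ZMod 2) V), finrank (ZMod 2) V = n → C V (E : Set V) X →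
      (0 : V) ∉ E → ¬ HasK5 (E : Set V) → 0 < q lam E ⊥ := by
  classical
  intro n
  induction n using Nat.strong_induction_on with
  | _ n ih =>
    intro V _ _ _ E X hn hc h0 hK
    have IH : IHyp lam C (finrank (ZMod 2) V) := by
      intro W _ _ _ F Y hlt hcW h0W hKW
      exact ih _ (hn ▸ hlt) W F Y rfl hcW h0W hKW
    by_cases hspan : span (ZMod 2) (E : Set V) = ⊤
    · rcases Nat.lt_or_ge (finrank (ZMod 2) V) 4 with hdim | hdim
      · exact hSP lam h5 V E (by omega) h0
      · by_cases hvc : VC (E : Set V)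
        · have hgood : Good (E : Set V) := ⟨by exact_mod_cast h0, hspan, hvc, hK⟩
          rcases hL V E X hc hgood hdim with h | ⟨f, hf, hXf, hcard⟩
          · exact h
          · exact hVC lam C h5 hC V E X f IH hc h0 hK hspan hf hXf hcard
        · unfold VC at hvc
          push Not at hvc
          obtain ⟨H0, ⟨a, ha, haH⟩, ⟨b, hb, hbH, hbS⟩, hlt⟩ := hvc
          have hex : ∃ κ : ℕ, ∃ A B : Submodule (ZMod 2) V, A ≠ ⊤ ∧ B ≠ ⊤ ∧
              (∀ x ∈ E, x ∈ A ∨ x ∈ B) ∧ finrank (ZMod 2) ↥(A ⊓ B) = κ := by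
            refine ⟨_, span (ZMod 2) ((E : Set V) \ (H0 : Set V)), H0, ?_, ?_, ?_, rfl⟩
            · intro h
              rw [h] at hbS
              exact hbS trivial
            · intro h
              rw [h] at haH
              exact haH trivial
            · intro x hx
              by_cases hxH : x ∈ H0
              · exact Or.inr hxH
              · exact Or.inl (subset_span ⟨by exact_mod_cast hx, hxH⟩)
          obtain ⟨S, H, hS, hH, hcov, hr⟩ := Nat.find_spec hex
          have hmin : ∀ A B : Submodule (ZMod 2) V, A ≠ ⊤ → B ≠ ⊤ →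
              (∀ x ∈ E, x ∈ A ∨ x ∈ B) → Nat.find hex ≤ finrank (ZMod 2) ↥(A ⊓ B) :=
            fun A B h1 h2 h5 => Nat.find_min' hex ⟨A, B, h1, h2, h5, rfl⟩
          have hκ : Nat.find hex ≤ 2 := by
            have h6 := hmin (span (ZMod 2) ((E : Set V) \ (H0 : Set V))) H0 (by
              intro h
              rw [h] at hbS
              exact hbS trivial) (by
              intro h
              rw [h] at haH
              exact haH trivial) (by
              intro x hx
              by_cases hxH : x ∈ H0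
              · exact Or.inr hxH
              · exact Or.inl (subset_span ⟨by exact_mod_cast hx, hxH⟩))
            omega
          have hge : SepGe (E : Set V) (Nat.find hex) :=
            fun A B h1 h2 h5 => hmin A B h1 h2 (fun x hx => h5 x (by exact_mod_cast hx))
          have h0' : (0 : V) ∉ (E : Set V) := by exact_mod_cast h0
          have hcov' : ∀ x ∈ (E : Set V), x ∈ S ∨ x ∈ H := fun x hx => hcov x (by exact_mod_cast hx)
          have hcov'' : ∀ x ∈ (E : Set V), x ∈ H ∨ x ∈ S := fun x hx => (hcov' x hx).symm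
          have hr' : finrank (ZMod 2) ↥(H ⊓ S) = Nat.find hex := by rw [inf_comm]; exact hr
          have hn' : ∀ A B : Submodule (ZMod 2) V, A ≠ ⊤ →
              (∀ x ∈ (E : Set V), x ∈ A ∨ x ∈ B) → A ⊓ B ≠ B := by
            intro A B hA hc h
            apply hA
            rw [eq_top_iff, ← hspan, span_le]
            intro v hv
            rcases hc v hv with hv' | hv'
            · exact hv'
            · exact inf_eq_right.1 h hv'
          have sS := side_span (E : Set V) S H _ hspan hge hS hH hcov' hr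
          have sH := side_span (E : Set V) H S _ hspan hge hH hS hcov'' hr'
          have hL1 := claimLkSep V (E : Set V) S H _ hspan hge hS hH hcov'
          have hL2 := claimLkSep V (E : Set V) H S _ hspan hge hH hS hcov''
          rcases colSep_or cFill cFillOne (E : Set V) _ S H h0' hL1 hκ hr (hn' S H hS hcov') with
            hF1 | hB1
          · rcases colSep_or cFill cFillOne (E : Set V) _ H S h0' hL2 hκ hr'
              (hn' H S hH hcov'') with hF2 | hB2
            · exact hS012 lam C h5 hC V E X S H IH hc h0 hK hspan hS hH hcov sS sH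
                (by rw [hr]; exact hκ) hF1 hF2
            · obtain ⟨x, p, r, hp, hr1, hp0, hr0, hpr, hxn, hxH, hEH⟩ := hB2
              exact hS3 lam C h5 hC V E X H S x p r IH hc h0 hK (fun y hy => (hcov y hy).symm) hp hr1
                hp0 hr0 hpr (fun h => hxn ⟨h, hxH⟩) hxH hEH
          · obtain ⟨x, p, r, hp, hr1, hp0, hr0, hpr, hxn, hxH, hEH⟩ := hB1
            exact hS3 lam C h5 hC V E X S H x p r IH hc h0 hK hcov hp hr1
              hp0 hr0 hpr (fun h => hxn ⟨h, hxH⟩) hxH hEH
    · set S := span (ZMod 2) (E : Set V) with hSdef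
      have hES : ∀ x ∈ (E : Set V), x ∈ S := fun x hx => subset_span hx
      have hmap : (E.subtype (fun x => x ∈ S)).map
          ⟨Subtype.val, Subtype.val_injective⟩ = E := by
        rw [← Finset.filter_true_of_mem (s := E) (p := fun x => x ∈ S)
          (fun x hx => hES x (by exact_mod_cast hx))]
        ext x
        simp
      have hset : ((E.subtype (fun x => x ∈ S) : Finset ↥S) : Set ↥S) =
          {y : ↥S | (y : V) ∈ (E : Set V)} := by
        ext y
        simp
      have h1 := hSub V lam S (E.subtype (fun x => x ∈ S)) ⊥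
      rw [hmap, Submodule.map_bot] at h1
      rw [h1]
      have hlt : finrank (ZMod 2) ↥S < finrank (ZMod 2) V := Submodule.finrank_lt hspan
      refine mul_pos (by positivity) (ih _ (hn ▸ hlt) ↥S _ (X.comap S.subtype) rfl ?_ ?_ ?_)
      · rw [hset]
        exact hC.sub V S (E : Set V) X hES hc
      · intro h
        rw [Finset.mem_subtype] at h
        exact h0 h
      · intro h
        rw [hset] at h
        exact hK (hKS V S (E : Set V) h)

end Pool.Agent.Work.MP_9f8812_co.LG
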