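import Pool.Agent.Work.MP_9f8812_co.LG.Stmts
import Pool.Agent.Work.MP_a8f287_co.Crit

/-! # Items CO, G0, Avg, Side of block LG -/

set_option autoImplicit false

namespace Pool.Agent.Work.MP_9f8812_co.LG

open Submodule Module
open Pool.Agent.WW (HasK5 Gen Pres VC Good)

theorem pr_CO (hDC : St_DC) (hCol : St_Col) : St_CO := by
  intro V _ _ _ _ lam f N D hlam hN hD hDne hq hnn hcase
  have s2 : ∀ y z : V, span (ZMod 2) ({y, z} : Set V) = span (ZMod 2) {y} ⊔ span (ZMod 2) {z} :=
    fun y z => Submodule.span_insert y {z}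
  -- monotonicity
  have mono : ∀ d1 ∈ D, ∀ e ∈ D, e ≠ d1 → ∀ C : Finset V, C ⊆ D → e ∉ C →
      q lam (insert d1 N ∪ C) (span (ZMod 2) {e}) ≤ q lam (insert d1 N) (span (ZMod 2) {e}) := by
    intro d1 hd1 e he hed C
    induction C using Finset.induction_on with
    | empty => intro _ _; rw [Finset.union_empty]
    | insert x C hx ih =>
      intro hC heC
      have hC' : C ⊆ D := (Finset.subset_insert x C).trans hC
      have heC' : e ∉ C := fun h => heC (Finset.mem_insert_of_mem h)
      have hxD : x ∈ D := hC (Finset.mem_insert_self x C)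
      have hxe : x ≠ e := fun h => heC (h ▸ Finset.mem_insert_self x C)
      refine le_trans ?_ (ih hC' heC')
      rw [Finset.union_insert]
      by_cases hx1 : x = d1
      · have : insert x (insert d1 N ∪ C) = insert d1 N ∪ C := by
          refine Finset.insert_eq_of_mem (Finset.mem_union_left _ ?_)
          rw [hx1]
          exact Finset.mem_insert_self _ _
        rw [this]
      · rw [hDC V lam (insert d1 N ∪ C) x (span (ZMod 2) {e})]
        have h1 : insert d1 N ∪ C = N ∪ insert d1 C := by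
          ext y
          simp only [Finset.mem_union, Finset.mem_insert]
          tauto
        have h2 : 0 ≤ q lam (N ∪ insert d1 C) (span (ZMod 2) {e, x}) := by
          refine hnn e he x hxD hxe (insert d1 C) (Finset.insert_subset hd1 hC') ?_ ?_
          · rw [Finset.mem_insert]
            rintro (h | h)
            · exact hed h
            · exact heC' h
          · rw [Finset.mem_insert]
            rintro (h | h)
            · exact hx1 h
            · exact hx h
        rw [s2, ← h1] at h2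
        linarith
  have hcol : ∀ e ∈ D, lam * q lam N (span (ZMod 2) {e}) = q lam N ⊥ := by
    intro e he
    have h := hCol V lam f N e ⊥ (fun y hy => by rw [(mem_bot (ZMod 2)).1 hy, map_zero]) hN
      (hD e he)
    rw [bot_sup_eq] at h
    exact h
  have basic : ∀ d1 ∈ D, ∀ C : Finset V, C ⊆ D → d1 ∉ C →
      (lam - 1 - (C.card : ℝ)) * q lam N ⊥ + lam * ∑ e ∈ C, q lam N (span (ZMod 2) {e, d1}) ≤
        lam * q lam (insert d1 N ∪ C) ⊥ := by
    intro d1 hd1 C
    induction C using Finset.induction_on with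
    | empty =>
      intro _ _
      rw [Finset.union_empty, hDC V lam N d1 ⊥, bot_sup_eq, Finset.sum_empty, Finset.card_empty]
      have h := hcol d1 hd1
      push_cast
      linarith
    | insert e C heC ih =>
      intro hC h1C
      have hC' : C ⊆ D := (Finset.subset_insert e C).trans hC
      have h1C' : d1 ∉ C := fun h => h1C (Finset.mem_insert_of_mem h)
      have heD : e ∈ D := hC (Finset.mem_insert_self e C)
      have hed : e ≠ d1 := fun h => h1C (h ▸ Finset.mem_insert_self e C)
      have ih' := ih hC' h1C'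
      rw [Finset.union_insert, hDC V lam (insert d1 N ∪ C) e ⊥, bot_sup_eq,
        Finset.sum_insert heC, Finset.card_insert_of_notMem heC]
      have h2 := mono d1 hd1 e heD hed C hC' heC
      rw [hDC V lam N d1 (span (ZMod 2) {e}), ← s2] at h2
      have h3 := hcol e heD
      have h4 : lam * q lam (insert d1 N ∪ C) (span (ZMod 2) {e}) ≤
          lam * (q lam N (span (ZMod 2) {e}) - q lam N (span (ZMod 2) {e, d1})) :=
        mul_le_mul_of_nonneg_left h2 (by linarith)
      push_cast
      nlinarith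
  have fin : ∀ d1 ∈ D, (lam - (D.card : ℝ)) * q lam N ⊥ +
      lam * ∑ e ∈ D.erase d1, q lam N (span (ZMod 2) {e, d1}) ≤ lam * q lam (N ∪ D) ⊥ := by
    intro d1 hd1
    have h := basic d1 hd1 (D.erase d1) (Finset.erase_subset _ _) (Finset.notMem_erase _ _)
    have h1 : insert d1 N ∪ D.erase d1 = N ∪ D := by
      ext y
      simp only [Finset.mem_union, Finset.mem_insert, Finset.mem_erase]
      by_cases hy : y = d1
      · rw [hy]
        tauto
      · tauto
    have h2 : ((D.erase d1).card : ℝ) = (D.card : ℝ) - 1 := by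
      rw [Finset.card_erase_of_mem hd1, Nat.cast_sub (Finset.card_pos.2 hDne)]
      simp
    rw [h1, h2] at h
    have h3 : lam - 1 - ((D.card : ℝ) - 1) = lam - (D.card : ℝ) := by ring
    rw [h3] at h
    exact h
  have hterm : ∀ d1 ∈ D, ∀ e ∈ D.erase d1, 0 ≤ q lam N (span (ZMod 2) {e, d1}) := by
    intro d1 hd1 e he
    have h1 := Finset.mem_erase.1 he
    have h := hnn e h1.2 d1 hd1 (Ne.symm h1.1) ∅ (Finset.empty_subset _) (Finset.notMem_empty _)
      (Finset.notMem_empty _)
    rw [Finset.union_empty] at h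
    exact h
  have hl0 : 0 < lam := by linarith
  rcases hcase with hlt | ⟨hle, d, hd, x, hx, hdx, hpos⟩
  · obtain ⟨d1, hd1⟩ := hDne
    have h1 := fin d1 hd1
    have h2 := Finset.sum_nonneg (hterm d1 hd1)
    have h3 : 0 < (lam - (D.card : ℝ)) * q lam N ⊥ := mul_pos (by linarith) hq
    have h4 : 0 ≤ lam * ∑ e ∈ D.erase d1, q lam N (span (ZMod 2) {e, d1}) :=
      mul_nonneg hl0.le h2
    have h5 : 0 < lam * q lam (N ∪ D) ⊥ := by linarith
    exact (mul_pos_iff_of_pos_left hl0).1 h5
  · have h1 := fin x hx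
    have h2 : 0 < ∑ e ∈ D.erase x, q lam N (span (ZMod 2) {e, x}) :=
      Finset.sum_pos' (hterm x hx) ⟨d, Finset.mem_erase.2 ⟨hdx, hd⟩, hpos⟩
    have h3 : 0 ≤ (lam - (D.card : ℝ)) * q lam N ⊥ := mul_nonneg (by linarith) hq.le
    have h4 : 0 < lam * ∑ e ∈ D.erase x, q lam N (span (ZMod 2) {e, x}) := mul_pos hl0 h2
    have h5 : 0 < lam * q lam (N ∪ D) ⊥ := by linarith
    exact (mul_pos_iff_of_pos_left hl0).1 h5

theorem pr_G0 (hE : St_Ev) (hP : St_Pid) (hC : St_Cnt) (hGB : St_GB) : St_G0 := by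
  intro V _ _ _ _ lam S H A B hSH hU hA hB
  have hext : ∀ (k : ℕ) (A : Finset V), ext k ⊥ A 0 = cnt k A ⊥ := by
    intro k A
    unfold ext cnt
    refine Nat.card_congr (Equiv.subtypeEquivRight fun f => ?_)
    simp only [LinearMap.zero_apply]
  have h1 : (Polynomial.X ^ finrank (ZMod 2) V * Qp (A ∪ B) ⊥ : Polynomial ℝ) =
      Qp A ⊥ * Qp B ⊥ := by
    refine hP _ _ 0 fun k _ => ?_
    rw [Polynomial.eval_mul, Polynomial.eval_mul, hE V, hE V, hE V, hC V, hC V, hC V,
      Polynomial.eval_pow, Polynomial.eval_X]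
    have h2 := hGB V k S H A B 0 hSH hA hB
    rw [hU, hext, hext, hext, finrank_bot, Nat.sub_zero] at h2
    have h3 := congrArg (Nat.cast : ℕ → ℝ) h2
    push_cast at h3
    rw [← h3]
    ring
  have h4 := congrArg (Polynomial.eval lam) h1
  rw [Polynomial.eval_mul, Polynomial.eval_mul, hE V, hE V, hE V, Polynomial.eval_pow,
    Polynomial.eval_X] at h4
  exact h4

theorem pr_Avg : St_Avg := by
  classical
  intro V _ _ _ E h0 hn
  have hfin : Finite (V →ₗ[ZMod 2] ZMod 2) := Module.finite_of_finite (ZMod 2)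
  have : Fintype (V →ₗ[ZMod 2] ZMod 2) := Fintype.ofFinite _
  have hcard : Fintype.card (V →ₗ[ZMod 2] ZMod 2) = 2 ^ finrank (ZMod 2) V := by
    rw [Module.card_eq_pow_finrank (K := ZMod 2), ZMod.card]
    congr 1
    exact Subspace.dual_finrank_eq
  have hz : ∀ a b : ZMod 2, b ≠ 0 → (a ≠ 0 ↔ a + b = 0) := by decide
  have hhalf : ∀ x : V, x ≠ 0 →
      (Finset.univ.filter (fun f : V →ₗ[ZMod 2] ZMod 2 => f x ≠ 0)).card =
        2 ^ (finrank (ZMod 2) V - 1) := by
    intro x hx
    obtain ⟨g, hg⟩ : ∃ g : V →ₗ[ZMod 2] ZMod 2, g x ≠ 0 := by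
      by_contra h
      push Not at h
      exact hx ((Module.forall_dual_apply_eq_zero_iff (ZMod 2) x).1 h)
    have hgg : ∀ f : V →ₗ[ZMod 2] ZMod 2, f + g + g = f := by
      intro f
      ext y
      have : ∀ a b : ZMod 2, a + b + b = a := by decide
      exact this _ _
    have h1 : (Finset.univ.filter (fun f : V →ₗ[ZMod 2] ZMod 2 => f x ≠ 0)).card =
        (Finset.univ.filter (fun f : V →ₗ[ZMod 2] ZMod 2 => ¬ f x ≠ 0)).card := by
      refine Finset.card_bij' (fun f _ => f + g) (fun f _ => f + g) ?_ ?_ ?_ ?_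
      · intro f hf
        rw [Finset.mem_filter] at hf ⊢
        refine ⟨Finset.mem_univ _, ?_⟩
        rw [not_not, LinearMap.add_apply]
        exact (hz _ _ hg).1 hf.2
      · intro f hf
        rw [Finset.mem_filter, not_not] at hf
        rw [Finset.mem_filter]
        refine ⟨Finset.mem_univ _, ?_⟩
        rw [LinearMap.add_apply, hf.2, zero_add]
        exact hg
      · intro f _
        exact hgg f
      · intro f _
        exact hgg f
    have h2 := Finset.card_filter_add_card_filter_not (s := (Finset.univ :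
      Finset (V →ₗ[ZMod 2] ZMod 2))) (fun f => f x ≠ 0)
    rw [← h1, Finset.card_univ, hcard] at h2
    have h3 : 2 ^ finrank (ZMod 2) V = 2 * 2 ^ (finrank (ZMod 2) V - 1) := by
      rw [← pow_succ']
      congr 1
      omega
    omega
  have hnc : ∀ f : V →ₗ[ZMod 2] ZMod 2, ({x ∈ (E : Set V) | f x ≠ 0}).ncard =
      (E.filter (fun x => f x ≠ 0)).card := by
    intro f
    rw [← Set.ncard_coe_finset]
    congr 1
    ext x
    simp
  have hsum : ∑ f : V →ₗ[ZMod 2] ZMod 2, (E.filter (fun x => f x ≠ 0)).card =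
      E.card * 2 ^ (finrank (ZMod 2) V - 1) := by
    simp only [Finset.card_filter]
    rw [Finset.sum_comm]
    rw [Finset.sum_congr rfl (g := fun _ => 2 ^ (finrank (ZMod 2) V - 1))]
    · rw [Finset.sum_const, smul_eq_mul]
    · intro x hx
      rw [← Finset.card_filter]
      exact hhalf x (fun h => h0 (h ▸ hx))
  by_contra hcon
  push Not at hcon
  have hzero : (E.filter (fun x => (0 : V →ₗ[ZMod 2] ZMod 2) x ≠ 0)).card = 0 := by
    simp
  have hsplit : ∑ f ∈ (Finset.univ : Finset (V →ₗ[ZMod 2] ZMod 2)).erase 0,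
      (E.filter (fun x => f x ≠ 0)).card = E.card * 2 ^ (finrank (ZMod 2) V - 1) := by
    have h1 := Finset.add_sum_erase Finset.univ
      (fun f : V →ₗ[ZMod 2] ZMod 2 => (E.filter (fun x => f x ≠ 0)).card) (Finset.mem_univ 0)
    rw [hzero, zero_add, hsum] at h1
    exact h1
  have hce : ((Finset.univ : Finset (V →ₗ[ZMod 2] ZMod 2)).erase 0).card =
      2 ^ finrank (ZMod 2) V - 1 := by
    rw [Finset.card_erase_of_mem (Finset.mem_univ _), Finset.card_univ, hcard]
  have hpow : 2 ≤ 2 ^ finrank (ZMod 2) V := by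
    calc 2 = 2 ^ 1 := rfl
      _ ≤ 2 ^ finrank (ZMod 2) V := Nat.pow_le_pow_right (by norm_num) hn
  have hne : ((Finset.univ : Finset (V →ₗ[ZMod 2] ZMod 2)).erase 0).Nonempty := by
    rw [← Finset.card_pos, hce]
    omega
  have hlt : ∑ f ∈ (Finset.univ : Finset (V →ₗ[ZMod 2] ZMod 2)).erase 0,
      E.card * 2 ^ (finrank (ZMod 2) V - 1) <
      ∑ f ∈ (Finset.univ : Finset (V →ₗ[ZMod 2] ZMod 2)).erase 0,
        (E.filter (fun x => f x ≠ 0)).card * (2 ^ finrank (ZMod 2) V - 1) := by
    refine Finset.sum_lt_sum_of_nonempty hne fun f hf => ?_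
    have h := hcon f (Finset.mem_erase.1 hf).1
    rw [hnc] at h
    exact h
  rw [Finset.sum_const, hce, smul_eq_mul, ← Finset.sum_mul, hsplit, mul_comm] at hlt
  exact lt_irrefl _ hlt

theorem pr_Side (hKF : St_KF) (hSub : St_Sub) (hCtr : St_Ctr) : St_Side := by
  classical
  intro lam C h5 hC V _ _ _ E F X S H K IH hc h0 hK5 hS hcov hH hU hfill hKU hF hEF
  obtain ⟨X', hX'⟩ := hC.sep V (E : Set V) X S H hc hcov hH hU hfill
  have hfinS : Finite ↥S := Module.finite_of_finite (ZMod 2)
  set T : Set ↥S := {y : ↥S | (y : V) ∈ (E : Set V) ∨ ((y : V) ∈ H ∧ y ≠ 0)} with hT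
  set ES : Finset ↥S := (Set.toFinite T).toFinset with hES
  have hcoe : (ES : Set ↥S) = T := Set.Finite.coe_toFinset _
  have hKS : K ≤ S := hKU.trans inf_le_left
  have hKH : K ≤ H := hKU.trans inf_le_right
  have hmapK : (K.comap S.subtype).map S.subtype = K := by
    rw [Submodule.map_comap_subtype]
    exact inf_eq_right.2 hKS
  set F' : Finset ↥S := F.subtype (fun x => x ∈ S) with hF'
  have hmapF : F'.map ⟨Subtype.val, Subtype.val_injective⟩ = F :=
    Finset.subtype_map_of_mem (fun x hx => (hF x hx).1)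
  have hq := hSub V lam S F' (K.comap S.subtype)
  rw [hmapF, hmapK] at hq
  have hgen : Gen (ES : Set ↥S) (K.comap S.subtype) := by
    intro y hy
    by_cases hy0 : y = 0
    · rw [hy0]; exact zero_mem _
    · refine subset_span ⟨?_, hy⟩
      rw [hcoe]
      exact Or.inr ⟨hKH hy, hy0⟩
  have hlt : finrank (ZMod 2) ↥S < finrank (ZMod 2) V + finrank (ZMod 2) ↥(K.comap S.subtype) := by
    have := Submodule.finrank_lt hS
    omega
  have hmem : ∀ y : ↥S, y ∈ ES ↔ (y : V) ∈ (E : Set V) ∨ ((y : V) ∈ H ∧ y ≠ 0) := by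
    intro y
    rw [← Finset.mem_coe, hcoe]
    rfl
  have hmain := hCtr lam C hC (finrank (ZMod 2) V) IH ↥S ES F' X' (K.comap S.subtype)
    (by rw [hcoe]; exact hX') (by rw [hcoe]; exact fun h => hK5 (hKF V (E : Set V) S H hfill h))
    hgen hlt
    (by
      intro y hy
      rw [hmem]
      have h1 : (y : V) ∈ F := Finset.mem_subtype.1 hy
      rcases (hF _ h1).2 with h | h
      · exact Or.inl h
      · exact Or.inr ⟨h.1, fun h' => h.2 (by rw [h']; rfl)⟩)
    (by
      intro y hy hyK
      refine Finset.mem_subtype.2 (hEF _ y.2 ?_ hyK)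
      rcases (hmem y).1 hy with h | h
      · exact Or.inl h
      · exact Or.inr ⟨h.1, fun h' => h.2 (Subtype.ext h')⟩)
  have hlam : 0 < lam ^ (finrank (ZMod 2) V - finrank (ZMod 2) ↥S) := pow_pos (by linarith) _
  rw [hq]
  refine ⟨mul_nonneg hlam.le hmain.1, fun h => mul_pos hlam (hmain.2 ?_)⟩
  intro y hy hyK
  exact h _ (Finset.mem_subtype.1 hy) hyK

end Pool.Agent.Work.MP_9f8812_co.LG
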