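import Pool.Agent.Work.MP_9f8812_co.LG.Defs

/-!
# Lifts of graphic matroids without M(K5)-minor: statements

Theorem LG: for a loopless binary matroid `M` without `M(K5)`-minor, `P(M; lam) > 0` for all real
`lam ≥ 5` if some contraction `M / e` is graphic; for all real `lam ≥ 6` if `M` is an even cycle
matroid; and so on.  Every docstring is the complete proof of its statement.  In a docstring `n`
is the dimension of `V`, and `q(E, K)` stands for `q lam E K`.  All vector spaces are over `GF(2)`,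
so `x + x = 0` (`ZModModule.add_self`), every scalar is `0` or `1`, and a finite dimensional space
is finite.
-/

set_option autoImplicit false

namespace Pool.Agent.Work.MP_9f8812_co.LG

open Submodule Module
open Pool.Agent.WW (HasK5 Gen Pres VC Good)

/-! ### Counting and the polynomial -/

/-- EASY. The value of the polynomial: `Polynomial.eval_finset_sum`, `eval_mul`, `eval_pow`,
`eval_neg`, `eval_one`, `eval_X`. -/
def St_Ev : Prop := ∀ (V : Type) [AddCommGroup V] [Module (ZMod 2) V] (lam : ℝ) (E : Finset V)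
  (K : Submodule (ZMod 2) V), (Qp E K).eval lam = q lam E K

/-- EASY. Two real polynomials which agree at `2 ^ k` for all `k ≥ k0` are equal: the set
`{2 ^ k | k ≥ k0}` is infinite; `Polynomial.eq_of_infinite_eval_eq`. -/
def St_Pid : Prop := ∀ (a b : Polynomial ℝ) (k0 : ℕ),
  (∀ k, k0 ≤ k → a.eval ((2 : ℝ) ^ k) = b.eval ((2 : ℝ) ^ k)) → a = b

/-- EASY-MEDIUM. Crapo-Rota with contraction.  Copy of `WW.crapo_rota` in
`Work/MP_a8f287_co/Crit.lean` (70 lines): by `WW.card_vanish` the number of linear maps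
`V → GF(2)^k` vanishing on a subspace `P` is `(2 ^ k) ^ (n - dim P)`; apply this to
`P = span A ⊔ K` (`f` vanishes on `P` iff it vanishes on `K` and on all `x ∈ A`), so the sum is
the sum over all `f` vanishing on `K` of `∑_{A ⊆ E} (-1)^|A| [f = 0 on A] = ∏_{x ∈ E} (1 - [f x = 0])`
(`Finset.prod_one_add` / `Finset.prod_sub`), which is `1` if `f` is nonzero on `E` and `0`
otherwise. -/
def St_Cnt : Prop := ∀ (V : Type) [AddCommGroup V] [Module (ZMod 2) V]
  [FiniteDimensional (ZMod 2) V] (k : ℕ) (E : Finset V) (K : Submodule (ZMod 2) V),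
  q ((2 : ℝ) ^ k) E K = (cnt k E K : ℝ)

/-- EASY. Deletion and contraction.  If `d ∉ E`: `Finset.sum_powerset_insert`, and
`span (insert d A) ⊔ K = span A ⊔ (K ⊔ span {d})`.  If `d ∈ E`: `insert d E = E` and
`q(E, K ⊔ span {d}) = 0`, since in the first case applied to `E.erase d` with
`K' = K ⊔ span {d}` both terms are equal (`K' ⊔ span {d} = K'`).  Model: `P_insert` in
`Work/MP_9f8812_co/SC1.lean`. -/
def St_DC : Prop := ∀ (V : Type) [AddCommGroup V] [Module (ZMod 2) V]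
  [FiniteDimensional (ZMod 2) V] [DecidableEq V] (lam : ℝ) (E : Finset V) (d : V)
  (K : Submodule (ZMod 2) V),
  q lam (insert d E) K = q lam E K - q lam E (K ⊔ span (ZMod 2) {d})

/-- EASY. Loops: `E = insert x (E.erase x)` and `St_DC`, `K ⊔ span {x} = K`. -/
def St_Lp : Prop := ∀ (V : Type) [AddCommGroup V] [Module (ZMod 2) V]
  [FiniteDimensional (ZMod 2) V] (lam : ℝ) (E : Finset V) (x : V) (K : Submodule (ZMod 2) V),
  x ∈ E → x ∈ K → q lam E K = 0

/-- EASY. Contraction of a coloop: for `A ⊆ E` the vector `d` is not in `span A ⊔ K ≤ ker f`, so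
the dimension grows by one (`finrank_sup_span_singleton`), and it is at most `n`.  Model:
`P_coloop` in `Work/MP_9f8812_co/SC1.lean`. -/
def St_Col : Prop := ∀ (V : Type) [AddCommGroup V] [Module (ZMod 2) V]
  [FiniteDimensional (ZMod 2) V] (lam : ℝ) (f : V →ₗ[ZMod 2] ZMod 2) (E : Finset V) (d : V)
  (K : Submodule (ZMod 2) V), (∀ x ∈ K, f x = 0) → (∀ x ∈ E, f x = 0) → f d ≠ 0 →
  lam * q lam E (K ⊔ span (ZMod 2) {d}) = q lam E K

/-- EASY-MEDIUM. Contraction as a quotient: `π` is surjective with kernel `K` and no element of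
`E` is in `K`.  By `hE : St_Ev`, `hP : St_Pid` it is enough to compare the values at `2 ^ k`, which
are numbers of linear maps (`hC : St_Cnt`): `g ↦ g ∘ π` is a bijection from the maps `W → GF(2)^k`
nonzero on `π(E)` onto the maps `V → GF(2)^k` vanishing on `K` and nonzero on `E`
(`LinearMap.ker_le..`, inverse by `Submodule.liftQ` / `LinearMap.exists_..`; or
`(LinearMap.quotKerEquivOfSurjective π hπ)`). -/
def St_Quo : Prop := ∀ (V W : Type) [AddCommGroup V] [Module (ZMod 2) V]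
  [FiniteDimensional (ZMod 2) V] [AddCommGroup W] [Module (ZMod 2) W]
  [FiniteDimensional (ZMod 2) W] [DecidableEq W] (lam : ℝ) (π : V →ₗ[ZMod 2] W) (E : Finset V)
  (K : Submodule (ZMod 2) V), Function.Surjective π → LinearMap.ker π = K →
  (∀ x ∈ E, x ∉ K) → q lam E K = q lam (E.image π) ⊥

/-- EASY-MEDIUM. Sets inside a subspace `S` (dimension `s`): `A ↦ A.map subtype` is a bijection
between the subsets of `F` and of `F.map subtype`; the dimension of
`span (A.map) ⊔ K.map` is that of `span A ⊔ K` in `S` (`Submodule.map_span`, `Submodule.map_sup`,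
`LinearEquiv.finrank_eq` of `Submodule.equivMapOfInjective`), it is at most `s ≤ n`, and
`n - a = (n - s) + (s - a)`. -/
def St_Sub : Prop := ∀ (V : Type) [AddCommGroup V] [Module (ZMod 2) V]
  [FiniteDimensional (ZMod 2) V] (lam : ℝ) (S : Submodule (ZMod 2) V) (F : Finset ↥S)
  (K : Submodule (ZMod 2) ↥S),
  q lam (F.map ⟨Subtype.val, Subtype.val_injective⟩) (K.map S.subtype) =
    lam ^ (finrank (ZMod 2) V - finrank (ZMod 2) ↥S) * q lam F K

/-- MEDIUM. The cocircuit inequality (port of `basic` and `step` in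
`Work/MP_9f8812_co/SC2.lean`, `5` replaced by `lam`).  Put `Z(T; d, x) = q(N ∪ T, span {d, x})`.
Fix `d1 ∈ D` (in the second alternative of the last hypothesis: the given `d`).
(a) `lam * q(N ∪ T, span {e}) ≤ q(N, ⊥)` for `e ∈ D`, `T ⊆ D`, `e ∉ T`: more exactly
`q(insert d1 N ∪ T, span {e}) ≤ q(insert d1 N, span {e})` for `e ∈ D`, `e ≠ d1`,
`T ⊆ D`, `e ∉ T`: add the elements `x` of `T` one by one (`hDC : St_DC`), each subtracts
`q(N ∪ T', span {e} ⊔ span {x}) ≥ 0` by hypothesis, `T' ⊆ D`, `e, x ∉ T'` (if `x` is already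
there nothing changes).
(b) `q(insert d1 N, span {e}) = q(N, span {e}) - q(N, span {e, d1})` and
`lam * q(N, span {e}) = q(N, ⊥)` (`hCol : St_Col` with `K = ⊥`).
(c) By induction on `T ⊆ D` with `d1 ∉ T`:
`lam * q(insert d1 N ∪ T, ⊥) ≥ (lam - 1 - |T|) * q(N, ⊥) + lam * ∑_{e ∈ T} q(N, span {e, d1})`;
for `T = ∅` it is `q(insert d1 N, ⊥) = q(N, ⊥) - q(N, span {d1})` and `hCol`; the step is
`St_DC` for `e` with (a), (b).
(d) `T = D.erase d1`: `lam * q(N ∪ D, ⊥) ≥ (lam - |D|) * q(N, ⊥) + lam * ∑ ...`, all terms of the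
sum are `≥ 0` (hypothesis with `T = ∅`), and one of them is `> 0` in the second alternative. -/
def St_CO : Prop := ∀ (V : Type) [AddCommGroup V] [Module (ZMod 2) V]
  [FiniteDimensional (ZMod 2) V] [DecidableEq V] (lam : ℝ) (f : V →ₗ[ZMod 2] ZMod 2)
  (N D : Finset V), 1 ≤ lam → (∀ x ∈ N, f x = 0) → (∀ x ∈ D, f x ≠ 0) → D.Nonempty →
  0 < q lam N ⊥ →
  (∀ d ∈ D, ∀ x ∈ D, x ≠ d → ∀ T ⊆ D, d ∉ T → x ∉ T →
    0 ≤ q lam (N ∪ T) (span (ZMod 2) {d, x})) →
  ((D.card : ℝ) < lam ∨ ((D.card : ℝ) ≤ lam ∧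
    ∃ d ∈ D, ∃ x ∈ D, d ≠ x ∧ 0 < q lam N (span (ZMod 2) {d, x}))) →
  0 < q lam (N ∪ D) ⊥

/-! ### Gluing formulas -/

/-- MEDIUM. The bijection behind the gluing formulas.  Let `U = S ⊓ H`, `S ⊔ H = ⊤`, `A ⊆ S`,
`B ⊆ H`.  Choose complements: `S = U ⊕ S1`, `H = U ⊕ H1`; then `V = U ⊕ S1 ⊕ H1`, `A ⊆ U ⊕ S1`,
`B ⊆ U ⊕ H1`.  A map `f` with `f = g` on `U` is a pair (`f1` on `S1`, `f2` on `H1`); whether `f` is
nonzero on `A` depends on `f1` only, whether it is nonzero on `B` depends on `f2` only.  So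
`ext(A ∪ B) = a b`, `ext(A) = a L^(dim H1)`, `ext(B) = b L^(dim S1)`, where `a`, `b` are the numbers
of good `f1`, `f2`, `L = 2 ^ k`, and `dim S1 + dim H1 = n - dim U`.
Without bases: the map `(f, h) ↦ (f + h ∘ pH, f + h ∘ pS)`, where `h : V → GF(2)^k` runs through
the maps vanishing on `U`, `pS`, `pH` are the projections of `V = U ⊕ S1 ⊕ H1` onto `S1`, `H1`,
is a bijection from `{f good for A ∪ B} × {h = 0 on U}` onto
`{f good for A} × {f good for B}`; the number of `h` is `L^(n - dim U)` (`WW.card_vanish` in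
`Work/MP_a8f287_co/Crit.lean`). -/
def St_GB : Prop := ∀ (V : Type) [AddCommGroup V] [Module (ZMod 2) V]
  [FiniteDimensional (ZMod 2) V] [DecidableEq V] (k : ℕ) (S H : Submodule (ZMod 2) V)
  (A B : Finset V) (g : V →ₗ[ZMod 2] (Fin k → ZMod 2)), S ⊔ H = ⊤ → (∀ x ∈ A, x ∈ S) →
  (∀ x ∈ B, x ∈ H) →
  ext k (S ⊓ H) (A ∪ B) g * (2 ^ k) ^ (finrank (ZMod 2) V - finrank (ZMod 2) ↥(S ⊓ H)) =
    ext k (S ⊓ H) A g * ext k (S ⊓ H) B g

/-- EASY-MEDIUM. Symmetry: `g` and `g'` have the same kernel on `U`, so there is an automorphism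
`τ` of `GF(2)^k` with `g' x = τ (g x)` for all `x ∈ U` (choose a basis of the image `g(U)`, its
elements `g u_i`; the `g' u_i` are linearly independent too; extend both to bases.  Or:
`g(U) ≅ U / ker ≅ g'(U)` and complements have equal dimension; model `WW.glueCol_aut` in
`Work/MP_a8f287_co/Bd/B03.lean` line 1034, copy it).  Then `f ↦ τ ∘ f` is a bijection. -/
def St_GS : Prop := ∀ (V : Type) [AddCommGroup V] [Module (ZMod 2) V]
  [FiniteDimensional (ZMod 2) V] (k : ℕ) (U : Submodule (ZMod 2) V) (A : Finset V)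
  (g g' : V →ₗ[ZMod 2] (Fin k → ZMod 2)), (∀ x ∈ U, g x = 0 ↔ g' x = 0) →
  ext k U A g = ext k U A g'

/-- EASY-MEDIUM. Classes of restrictions to a line `U = {0, u}`.  By `hGS : St_GS` the number
`ext k U A g` is the same number `a` for all `g` with `g u ≠ 0`.  The maps `f` nonzero on
`insert u A` are classified by the value `c = f u ≠ 0` (`2 ^ k - 1` values; for each there is `g`
with `g u = c`, since `u ≠ 0`), and `f = g` on `U` iff `f u = c`: `(2 ^ k - 1) a` maps.  The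
maps vanishing on `U` and nonzero on `A` are `ext k U A 0` many.  The last equation is the sum of
the two cases `f u ≠ 0`, `f u = 0`.  (If `2 ^ k - 1 = 0`, that is `k = 0`, take `a = 0`.) -/
def St_GT1 : Prop := ∀ (V : Type) [AddCommGroup V] [Module (ZMod 2) V]
  [FiniteDimensional (ZMod 2) V] [DecidableEq V] (k : ℕ) (A : Finset V) (u : V), u ≠ 0 →
  ∃ a : ℕ,
    (∀ g : V →ₗ[ZMod 2] (Fin k → ZMod 2), g u ≠ 0 → ext k (span (ZMod 2) {u}) A g = a) ∧
    (cnt k (insert u A) ⊥ : ℝ) = ((2 : ℝ) ^ k - 1) * a ∧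
    cnt k A (span (ZMod 2) {u}) = ext k (span (ZMod 2) {u}) A 0 ∧
    (cnt k A ⊥ : ℝ) = ((2 : ℝ) ^ k - 1) * a + ext k (span (ZMod 2) {u}) A 0

/-- MEDIUM. Classes of restrictions to a plane `U = {0, u, w, u + w}` (`u`, `w` independent).  The
restriction of `f` to `U` is given by the pair `(f u, f w) = (c, e)`, every pair occurs for some
`g : V → GF(2)^k` (extend `u, w` to a basis).  `f` and `g` agree on `U` iff they agree on `u`
and `w`.  By `hGS : St_GS` the number `ext k U A g` depends only on the kernel of `g` on `U`: it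
is `a` if `c, e, c + e` are nonzero (`(2^k - 1)(2^k - 2)` pairs), `b1` if `c = 0 ≠ e`
(`2^k - 1` pairs), `b2` if `e = 0 ≠ c`, `b3` if `c = e ≠ 0`, and `ext k U A 0` for
`c = e = 0`.  The counts are the sums over the pairs allowed: nonzero on `u, w, u + w`; vanishing
on `u` and nonzero on `w` and `u + w` (the same); and so on. -/
def St_GT2 : Prop := ∀ (V : Type) [AddCommGroup V] [Module (ZMod 2) V]
  [FiniteDimensional (ZMod 2) V] [DecidableEq V] (k : ℕ) (A : Finset V) (u w : V), u ≠ 0 →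
  w ≠ 0 → u ≠ w → 2 ≤ k →
  ∃ a b1 b2 b3 : ℕ,
    (∀ g : V →ₗ[ZMod 2] (Fin k → ZMod 2), g u ≠ 0 → g w ≠ 0 → g u ≠ g w →
      ext k (span (ZMod 2) {u, w}) A g = a) ∧
    (∀ g : V →ₗ[ZMod 2] (Fin k → ZMod 2), g u = 0 → g w ≠ 0 →
      ext k (span (ZMod 2) {u, w}) A g = b1) ∧
    (∀ g : V →ₗ[ZMod 2] (Fin k → ZMod 2), g u ≠ 0 → g w = 0 →
      ext k (span (ZMod 2) {u, w}) A g = b2) ∧
    (∀ g : V →ₗ[ZMod 2] (Fin k → ZMod 2), g u ≠ 0 → g u = g w →
      ext k (span (ZMod 2) {u, w}) A g = b3) ∧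
    (cnt k (insert u (insert w (insert (u + w) A))) ⊥ : ℝ) =
      ((2 : ℝ) ^ k - 1) * ((2 : ℝ) ^ k - 2) * a ∧
    (cnt k (insert w (insert (u + w) A)) (span (ZMod 2) {u}) : ℝ) = ((2 : ℝ) ^ k - 1) * b1 ∧
    (cnt k (insert u (insert (u + w) A)) (span (ZMod 2) {w}) : ℝ) = ((2 : ℝ) ^ k - 1) * b2 ∧
    (cnt k (insert u (insert w A)) (span (ZMod 2) {u + w}) : ℝ) = ((2 : ℝ) ^ k - 1) * b3 ∧
    cnt k A (span (ZMod 2) {u, w}) = ext k (span (ZMod 2) {u, w}) A 0 ∧
    (cnt k A ⊥ : ℝ) = ((2 : ℝ) ^ k - 1) * ((2 : ℝ) ^ k - 2) * a +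
      ((2 : ℝ) ^ k - 1) * (b1 + b2 + b3) + ext k (span (ZMod 2) {u, w}) A 0

/-- EASY. Gluing over `0`: both sides are values of polynomials (`hE : St_Ev`, `hP : St_Pid`:
compare `X ^ n * Qp (A ∪ B) ⊥` and `Qp A ⊥ * Qp B ⊥` at `2 ^ k`), and at `2 ^ k` it is
`hGB : St_GB` with `g = 0`, since `ext k ⊥ A 0 = cnt k A ⊥`. -/
def St_G0 : Prop := ∀ (V : Type) [AddCommGroup V] [Module (ZMod 2) V]
  [FiniteDimensional (ZMod 2) V] [DecidableEq V] (lam : ℝ) (S H : Submodule (ZMod 2) V)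
  (A B : Finset V), S ⊔ H = ⊤ → S ⊓ H = ⊥ → (∀ x ∈ A, x ∈ S) → (∀ x ∈ B, x ∈ H) →
  lam ^ finrank (ZMod 2) V * q lam (A ∪ B) ⊥ = q lam A ⊥ * q lam B ⊥

/-- EASY-MEDIUM. Gluing over a line.  Values of polynomials at `L = 2 ^ k`, `k ≥ 1`.  `hGT : St_GT1`
for `A`, `B`, `A ∪ B` gives `a, b, c`; `hGB : St_GB` for a `g` with `g u ≠ 0` gives
`c L^(n-1) = a b` (such a `g` exists: `u ≠ 0`, `k ≥ 1`), and for `g = 0`:
`ext(A ∪ B, 0) L^(n-1) = ext(A, 0) ext(B, 0)`.  Hence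
`(L - 1) L^(n-1) cnt(A ∪ B) = (L - 1) ((L - 1) c + ext(A ∪ B, 0)) L^(n-1)
= (L - 1) a (L - 1) b + (L - 1) ext(A, 0) ext(B, 0)`, and `(L - 1) a = cnt(insert u A)`. -/
def St_G1 : Prop := ∀ (V : Type) [AddCommGroup V] [Module (ZMod 2) V]
  [FiniteDimensional (ZMod 2) V] [DecidableEq V] (lam : ℝ) (S H : Submodule (ZMod 2) V)
  (A B : Finset V) (u : V), S ⊔ H = ⊤ → u ≠ 0 → S ⊓ H = span (ZMod 2) {u} →
  (∀ x ∈ A, x ∈ S) → (∀ x ∈ B, x ∈ H) →
  (lam - 1) * lam ^ (finrank (ZMod 2) V - 1) * q lam (A ∪ B) ⊥ =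
    q lam (insert u A) ⊥ * q lam (insert u B) ⊥ +
      (lam - 1) * (q lam A (span (ZMod 2) {u}) * q lam B (span (ZMod 2) {u}))

/-- EASY-MEDIUM. Gluing over a plane, as `St_G1`, with `hGT : St_GT2`.  For `L = 2 ^ k`, `k ≥ 2`,
let `a, b1, b2, b3` and `c0 = ext(A, 0)` belong to `A`, `a', ...` to `B` and `a'', ...` to
`A ∪ B`.  `hGB : St_GB` for suitable `g` (they exist for `k ≥ 2`) gives `a'' L^(n-2) = a a'`,
`bi'' L^(n-2) = bi bi'`, `c0'' L^(n-2) = c0 c0'`.  So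
`L^(n-2) cnt(A ∪ B) = (L-1)(L-2) a a' + (L-1) (b1 b1' + b2 b2' + b3 b3') + c0 c0'`; multiply by
`(L-1)(L-2)`.  (`finrank (S ⊓ H) = 2`.) -/
def St_G2 : Prop := ∀ (V : Type) [AddCommGroup V] [Module (ZMod 2) V]
  [FiniteDimensional (ZMod 2) V] [DecidableEq V] (lam : ℝ) (S H : Submodule (ZMod 2) V)
  (A B : Finset V) (u w : V), S ⊔ H = ⊤ → u ≠ 0 → w ≠ 0 → u ≠ w →
  S ⊓ H = span (ZMod 2) {u, w} → (∀ x ∈ A, x ∈ S) → (∀ x ∈ B, x ∈ H) →
  (lam - 1) * (lam - 2) * lam ^ (finrank (ZMod 2) V - 2) * q lam (A ∪ B) ⊥ =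
    q lam (insert u (insert w (insert (u + w) A))) ⊥ *
      q lam (insert u (insert w (insert (u + w) B))) ⊥ +
    (lam - 2) * (q lam (insert w (insert (u + w) A)) (span (ZMod 2) {u}) *
        q lam (insert w (insert (u + w) B)) (span (ZMod 2) {u}) +
      q lam (insert u (insert (u + w) A)) (span (ZMod 2) {w}) *
        q lam (insert u (insert (u + w) B)) (span (ZMod 2) {w}) +
      q lam (insert u (insert w A)) (span (ZMod 2) {u + w}) *
        q lam (insert u (insert w B)) (span (ZMod 2) {u + w})) +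
    (lam - 1) * (lam - 2) * (q lam A (span (ZMod 2) {u, w}) * q lam B (span (ZMod 2) {u, w}))

/-- EASY-MEDIUM. The triad formula.  `N ≤ ker f`, `f x ≠ 0`, `f p = f r = 0`.  With `hDC : St_DC`
expand everything into the numbers `q(N, span B)`: inclusion-exclusion over
`B ⊆ {x, x + p, x + r}`.  By `hCol : St_Col`, for `K ≤ ker f` and any `y` with `f y ≠ 0`,
`lam q(N, K ⊔ span {y}) = q(N, K)`.  Put `n0 = q(N, ⊥)`, `n1 = q(N, span {p})`,
`n2 = q(N, span {r})`, `n3 = q(N, span {p + r})`, `n4 = q(N, span {p, r})`.  Then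
`lam q(N ∪ {x, x+p, x+r}, ⊥) = (lam - 3) n0 + n1 + n2 + n3 - n4` (the spans are
`span {x}`, `span {x+p}`, `span {x+r}`; `span {x, x+p} = span {x} ⊔ span {p}`,
`span {x, x+r} = span {x} ⊔ span {r}`, `span {x+p, x+r} = span {x+p} ⊔ span {p+r}`; and
`span {x, x+p, x+r} = span {x} ⊔ span {p, r}`), while
`lam q(N ∪ {x+p, x+r}, span {x}) = n0 - n1 - n2 + n4`,
`lam q(N ∪ {x+r}, span {x, x+p}) = n1 - n4`, `lam q(N ∪ {x+p}, span {x, x+r}) = n2 - n4`,
`lam q(N ∪ {x}, span {x+p, x+r}) = n3 - n4`, `lam q(N, span {x, x+p, x+r}) = n4`, and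
`(lam-3)(n0-n1-n2+n4) + (lam-2)(n1-n4+n2-n4) + (n3-n4) + (lam-1) n4` is the same number.  Divide by
`lam ≠ 0`. -/
def St_Tri : Prop := ∀ (V : Type) [AddCommGroup V] [Module (ZMod 2) V]
  [FiniteDimensional (ZMod 2) V] [DecidableEq V] (lam : ℝ) (f : V →ₗ[ZMod 2] ZMod 2)
  (N : Finset V) (x p r : V), lam ≠ 0 → (∀ y ∈ N, f y = 0) → f x ≠ 0 → f p = 0 → f r = 0 →
  q lam (N ∪ {x, x + p, x + r}) ⊥ =
    (lam - 3) * q lam (N ∪ {x + p, x + r}) (span (ZMod 2) {x}) +
    (lam - 2) * (q lam (N ∪ {x + r}) (span (ZMod 2) {x, x + p}) +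
      q lam (N ∪ {x + p}) (span (ZMod 2) {x, x + r})) +
    q lam (N ∪ {x}) (span (ZMod 2) {x + p, x + r}) +
    (lam - 1) * q lam N (span (ZMod 2) {x, x + p, x + r})

/-- EASY-MEDIUM. Positivity in dimension at most three, for `lam ≥ 5`, without any condition on
`E`.  Strong induction on `n = dim V`.  `n = 0`: `E = ∅`, `q = 1`.  `n ≥ 1`: choose `f ≠ 0`,
`N = {x ∈ E | f x = 0}`, `D = {x ∈ E | f x ≠ 0}`, `|D| ≤ 2 ^ (n - 1) ≤ 4 < lam`.  `0 < q(N, ⊥)`: `N`
lies in `S = ker f` of dimension `n - 1`, `hSub : St_Sub` and the induction hypothesis.  If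
`D = ∅` we are done.  Otherwise `hCO : St_CO`; its hypothesis: for `d ≠ x` in `D` let
`K = span {d, x}`; if an element of `N ∪ T` is in `K`, then `q(N ∪ T, K) = 0` (`hLp : St_Lp`),
otherwise `q(N ∪ T, K) = q(π(N ∪ T), ⊥)` in `V / K` (`hQuo : St_Quo` with `π = K.mkQ`), where
`0 ∉ π(N ∪ T)`, and the induction hypothesis applies. -/
def St_SP : Prop := ∀ (lam : ℝ), 5 ≤ lam → ∀ (V : Type) [AddCommGroup V] [Module (ZMod 2) V]
  [FiniteDimensional (ZMod 2) V] (E : Finset V), finrank (ZMod 2) V ≤ 3 → (0 : V) ∉ E →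
  0 < q lam E ⊥

/-- EASY-MEDIUM. Five elements off a hyperplane with all pair sums in `E` give `M(K5)`.  The
elements of `D` satisfy `f x = 1`.  Among five distinct vectors with `f = 1` there are four
linearly independent ones: no one or two or three distinct ones are dependent (a vanishing sum of
an odd number of them has `f = 1`; `a + b = 0` means `a = b`), and if `a, b, c, d` are dependent then
`a + b + c + d = 0`; choose distinct `a, b, c, d, e` in `D`: if `a + b + c + d = 0` then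
`a + b + c + e ≠ 0`.  `HasK5 E` with `K = ⊥` and these four vectors `s i`: `s i ∈ E` and
`s i + s j ∈ E` are congruent to themselves modulo `⊥` (`Pres E ⊥ v` for `v ∈ E`, as `v + v = 0`),
and `∑ c i • s i ∈ ⊥` gives `c = 0`. -/
def St_K5P : Prop := ∀ (V : Type) [AddCommGroup V] [Module (ZMod 2) V] (E : Set V)
  (f : V →ₗ[ZMod 2] ZMod 2) (D : Finset V), (∀ x ∈ D, x ∈ E ∧ f x ≠ 0) → 5 ≤ D.card →
  (∀ x ∈ D, ∀ y ∈ D, x ≠ y → x + y ∈ E) → HasK5 E

/-! ### The classes -/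

/-- EASY-MEDIUM. Merging coordinates (contraction in a graph).  `P` is spanned by vectors of weight
at most two.  Induction on `dim P` (or on a finite spanning set `C` of `P` consisting of such
vectors): there is an endomorphism `μ` of `GF(2)^m` with kernel `P` which does not increase
weights beyond two.  For one vector `c` of weight at most two: `c = 0`: the identity; `c = e_i`:
`(μ w) i = 0`, other coordinates unchanged; `c = e_i + e_j`: `(μ w) i = w i + w j`, `(μ w) j = 0`,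
others unchanged.  In each case `ker μ = span {c}` and `wt (μ w) ≤ wt w` (the nonzero coordinates
of `μ w` outside `i` are nonzero for `w`, and if `(μ w) i ≠ 0` then `w i ≠ 0` or `w j ≠ 0`).
For `C = insert c C'` take `μ'` for `span C'` and compose with the `μ` for the vector `μ' c`, which
has weight at most two: the kernel is `{w | μ' w ∈ span {μ' c}} = span C' ⊔ span {c}`. -/
def St_Mrg : Prop := ∀ (m : ℕ) (P : Submodule (ZMod 2) (Fin m → ZMod 2)),
  P ≤ span (ZMod 2) {w | w ∈ P ∧ wt w ≤ 2} →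
  ∃ μ : (Fin m → ZMod 2) →ₗ[ZMod 2] (Fin m → ZMod 2), LinearMap.ker μ = P ∧
    ∀ w, wt w ≤ 2 → wt (μ w) ≤ 2

/-- EASY. Contraction at the level of `Gr`: if `φ` shows `Gr E X` and `Gen E K` (the subspace `K`
is spanned by elements of `E`), apply `hM : St_Mrg` to `P = φ(K)` (spanned by the `φ x`,
`x ∈ E ∩ K`, of weight at most two) and take `φ' = μ ∘ φ`:
`ker φ' = {v | φ v ∈ φ(K)} = ker φ ⊔ K` (`Submodule.comap_map_eq`).  The conclusion keeps the
weights of ALL vectors `v` with `wt (φ v) ≤ 2`. -/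
def St_GrC : Prop := ∀ (V : Type) [AddCommGroup V] [Module (ZMod 2) V] (E : Set V)
  (K : Submodule (ZMod 2) V) (m : ℕ) (φ : V →ₗ[ZMod 2] (Fin m → ZMod 2)),
  (∀ x ∈ E, wt (φ x) ≤ 2) → Gen E K →
  ∃ φ' : V →ₗ[ZMod 2] (Fin m → ZMod 2), LinearMap.ker φ' = LinearMap.ker φ ⊔ K ∧
    ∀ v, wt (φ v) ≤ 2 → wt (φ' v) ≤ 2

/-- EASY. Deletion: `Gr` passes to subsets (same `φ`); `Gen E X` means
`X ≤ span (E ∩ X)`, and `E ∩ X ⊆ E'`. -/
def St_C1 : Prop := ∀ (p : Prop) (t : ℕ) (V : Type) [AddCommGroup V] [Module (ZMod 2) V]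
  (E E' : Set V) (X : Submodule (ZMod 2) V), Cl p t E X → E' ⊆ E →
  (∀ x ∈ E, x ∈ X → x ∈ E') → Cl p t E' X

/-- EASY-MEDIUM. Contraction.  `hG : St_GrC` with `K = ker π` gives `φ'` with kernel `X ⊔ K`, which
factors as `φ' = φ'' ∘ π` (`π` is surjective, `ker π ≤ ker φ'`; e.g.
`φ'' = φ'.comp (right inverse)`, or `Submodule.liftQ` and `LinearMap.quotKerEquivOfSurjective`);
`ker φ'' = π(X ⊔ K) = π(X)`.  Weights: `φ'' (π x) = φ' x`.  `finrank (X.map π) ≤ finrank X`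
(`Submodule.finrank_map_le`).  `Gen`: `π(X)` is spanned by the `π x` with `x ∈ E ∩ X`, those
which are nonzero belong to the new set and to `π(X)`. -/
def St_C2 : Prop := ∀ (p : Prop) (t : ℕ) (V W : Type) [AddCommGroup V] [Module (ZMod 2) V]
  [FiniteDimensional (ZMod 2) V] [AddCommGroup W] [Module (ZMod 2) W] (π : V →ₗ[ZMod 2] W)
  (E : Set V) (X : Submodule (ZMod 2) V), Function.Surjective π → Gen E (LinearMap.ker π) →
  Cl p t E X → Cl p t {w | w ≠ 0 ∧ ∃ x ∈ E, π x = w} (X.map π)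

/-- EASY. Restriction to a subspace containing `E`: `φ ∘ S.subtype`, its kernel is the comap.
`finrank (X.comap S.subtype) ≤ finrank X` (it embeds into `X`).  `Gen`: if
`X ≤ span (E ∩ X)`, then `X ≤ S` and every element of `X.comap S.subtype` is a combination of
elements of `E ∩ X` inside `S` (`Submodule.map_injective_of_injective`, `Submodule.map_span`,
`Submodule.map_comap_subtype`). -/
def St_C3 : Prop := ∀ (p : Prop) (t : ℕ) (V : Type) [AddCommGroup V] [Module (ZMod 2) V]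
  [FiniteDimensional (ZMod 2) V] (S : Submodule (ZMod 2) V) (E : Set V)
  (X : Submodule (ZMod 2) V), (∀ x ∈ E, x ∈ S) → Cl p t E X →
  Cl p t {y : ↥S | (y : V) ∈ E} (X.comap S.subtype)

/-- MEDIUM. A side of a separation, first case.  Let `K` be the subspace of `Fill`:
`K ≤ H`, `Gen (E ∩ H) K`, `K ⊓ (S ⊓ H) = ⊥`, and every nonzero `u ∈ S ⊓ H` is congruent modulo
`K` to an element `x` of `E ∩ H`.  Then `K ⊓ S = ⊥` (`K ≤ H`).  `hG : St_GrC` gives
`φ'` with kernel `X ⊔ K`; take `φ' ∘ S.subtype`.  Weights: for `y ∈ S`, `y ∈ E` clear; for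
`y ∈ S ⊓ H`, `y ≠ 0`: `y + x ∈ K` for some `x ∈ E`, so `φ' y = φ' x` has weight at most two.
Kernel: `X' = (X ⊔ K).comap S.subtype`.  Its dimension is at most `t`: `S ⊓ (X ⊔ K)` is mapped
injectively into `V / K` (as `S ⊓ K = ⊥`), with image inside `(X ⊔ K) / K`, the image of `X`, of
dimension at most `dim X`.  If `p` holds: `X ≤ span (E ∩ X)` and `E ∩ X ⊆ S`, so `X ≤ S`, and
`S ⊓ (X ⊔ K) = X ⊔ (S ⊓ K) = X` (modular law); it is spanned by the elements of `E ∩ X ⊆ S`, which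
belong to the new set. -/
def St_C4a : Prop := ∀ (p : Prop) (t : ℕ) (V : Type) [AddCommGroup V] [Module (ZMod 2) V]
  [FiniteDimensional (ZMod 2) V] (E : Set V) (X S H : Submodule (ZMod 2) V), Cl p t E X →
  (p → ∀ x ∈ E, x ∈ X → x ∈ S) → Fill E S H →
  ∃ X' : Submodule (ZMod 2) ↥S, Cl p t {y : ↥S | (y : V) ∈ E ∨ ((y : V) ∈ H ∧ y ≠ 0)} X'

/-- EASY-MEDIUM. Linear algebra for the second case.  Let `H ≤ span (E ∩ H)` and let
`J0 ⊆ E ∩ H` be any set with `span J0 ⊓ S = ⊥`.  Then there is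
`K` with `span J0 ≤ K ≤ H`, `Gen (E ∩ H) K`, `K ⊓ S = ⊥` and `H ≤ K ⊔ (S ⊓ H)`: among the
subspaces spanned by subsets of `E ∩ H`, containing `span J0` and meeting `S` in `⊥` take one of
maximal dimension; if some `z ∈ E ∩ H` were not in `K ⊔ S`, then `K ⊔ span {z}` would be larger
(`(K ⊔ span {z}) ⊓ S = ⊥`: `k + z ∈ S` gives `z ∈ K ⊔ S`).  So `H ≤ span (E ∩ H) ≤ K ⊔ S`, and by
the modular law (`K ≤ H`) `H = K ⊔ (S ⊓ H)`. -/
def St_Ln : Prop := ∀ (V : Type) [AddCommGroup V] [Module (ZMod 2) V]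
  [FiniteDimensional (ZMod 2) V] (E J0 : Set V) (S H : Submodule (ZMod 2) V),
  H ≤ span (ZMod 2) (E ∩ (H : Set V)) → J0 ⊆ E ∩ (H : Set V) → span (ZMod 2) J0 ⊓ S = ⊥ →
  ∃ K : Submodule (ZMod 2) V, span (ZMod 2) J0 ≤ K ∧ K ≤ H ∧ Gen (E ∩ (H : Set V)) K ∧
    K ⊓ S = ⊥ ∧ H ≤ K ⊔ (S ⊓ H)

/-- MEDIUM-HARD. A side of a separation, second case: some `y0 ∈ E ∩ X` is not in `S` (so it is in
`H`).  Let `U = S ⊓ H`, `dim U ≤ 2`.
(1) Choose `J ⊆ E ∩ X ∩ H` linearly independent with `span J ⊓ S = ⊥`, maximal (start with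
`{y0}`); equivalently choose `Q = span J`, a subspace spanned by elements of `E ∩ X ∩ H`, of maximal
dimension with `Q ⊓ S = ⊥`; `dim Q ≥ 1`, `Q ≤ X`.  Every `y ∈ E ∩ X ∩ H` is in `Q ⊔ S`, so
`y = j + s_y` with `j ∈ Q`, `s_y ∈ S`, and `s_y = y + j ∈ H`, so `s_y ∈ U`.
(2) `hLn : St_Ln` with `J0 = J`: `Q ≤ K ≤ H`, `Gen (E ∩ H) K`, `K ⊓ S = ⊥`, `H = K ⊔ U`.
(3) If `U = ⊥` put `M = ⊥`.  Otherwise: the classes modulo `K` of the elements of `E ∩ H` span
`H / K ≅ U`; so there is a basis `u1 (, u2)` of `U` with `u_i + x_i ∈ K` for some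
`x_i ∈ E ∩ H`.  Put `M = span {u1}`.  So `dim M ≤ 1`, and every nonzero element `u` of `U` is in
`M`, or congruent modulo `K ⊔ M` to `u2`, hence to `x_2 ∈ E` (if `dim U = 2`).  `K ⊔ M` is spanned
by elements of `E` and `u1`; since `u1 ≡ x_1` modulo `K`, `K ⊔ M = K ⊔ span {x_1}` and
`Gen (E ∩ H) (K ⊔ M)`.
(4) `hG : St_GrC` for the subspace `K ⊔ M` gives `φ'` with kernel `X ⊔ K ⊔ M`; take
`φ' ∘ S.subtype`.  Weights: `y ∈ E ∩ S` clear; `u ∈ U`, `u ≠ 0`: `φ' u = 0` if `u ∈ M`, otherwise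
`φ' u = φ' x_2`.
(5) Let `R = span (E ∩ X ∩ S) ⊔ span {s_y | y ∈ E ∩ X ∩ H} ⊔ M ≤ S`.  As `X` is spanned by `E ∩ X`
and every element of `E` is in `S` or `H`, `X ⊔ K ⊔ M = R ⊔ K` (`s_y ∈ X + K`: `s_y = y + j`).  By the
modular law `S ⊓ (R ⊔ K) = R ⊔ (S ⊓ K) = R`.  So `X' = R` (as a subspace of `S`), and
`R` is spanned by elements of the new set: `E ∩ X ∩ S`, the nonzero `s_y ∈ U`, and `u1 ∈ U`.
(6) Dimension: `R` embeds into `(X ⊔ K ⊔ M) / K` (as `R ⊓ K ≤ S ⊓ K = ⊥`), whose dimension is at most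
`dim X - dim (X ⊓ K) + dim M ≤ t - dim Q + 1 ≤ t`. -/
def St_C4b : Prop := ∀ (t : ℕ) (V : Type) [AddCommGroup V] [Module (ZMod 2) V]
  [FiniteDimensional (ZMod 2) V] (E : Set V) (X S H : Submodule (ZMod 2) V), Cl True t E X →
  (∀ x ∈ E, x ∈ S ∨ x ∈ H) → H ≤ span (ZMod 2) (E ∩ (H : Set V)) →
  finrank (ZMod 2) ↥(S ⊓ H) ≤ 2 → (∃ y ∈ E, y ∈ X ∧ y ∉ S) →
  ∃ X' : Submodule (ZMod 2) ↥S, Cl True t {y : ↥S | (y : V) ∈ E ∨ ((y : V) ∈ H ∧ y ≠ 0)} X'

/-- EASY. The class `Cl p t` has the closure properties: `del` is `h1 : St_C1`, `quo` is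
`h2 : St_C2`, `sub` is `h3 : St_C3`; `sep`: if `p` fails or all elements of `E ∩ X` are in `S`, it is
`h4 : St_C4a`; otherwise `p` is true (replace `p` by `True`) and it is `h5 : St_C4b`. -/
def St_OK : Prop := ∀ (p : Prop) (t : ℕ), OK (fun _ _ _ E X => Cl p t E X)

/-- EASY. The class of all sets in dimension at most `r` (with `X = ⊥`) has the closure
properties: `quo`: `finrank W ≤ finrank V` by surjectivity and `⊥.map π = ⊥`; `sub`:
`finrank S ≤ finrank V`, `⊥.comap S.subtype = ⊥`; `sep`: `X' = ⊥`. (In `del` nothing changes.)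
`FiniteDimensional` is part of the predicate, so that it can be used. -/
def St_OK0 : Prop := ∀ (r : ℕ), OK (fun V _ _ _E X => FiniteDimensional (ZMod 2) V ∧
  finrank (ZMod 2) V ≤ r ∧ X = ⊥)

/-- MEDIUM. A light star.  Let `φ : V → GF(2)^m` with kernel `X` and `wt (φ x) ≤ 2` on `E`;
`d = dim V - dim X ≥ 1`.  Put `f_i v = (φ v) i` for `i < m` and `f_∞ = ∑ f_i`.  These `m + 1`
functionals vanish on `X`, their sum is `0`, and each `x ∈ E` is nonzero on at most two of them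
(weight `0`: none, weight `1`: `f_i` and `f_∞`, weight `2`: two `f_i`, and `f_∞ x = 0`), on none of
them if `x ∈ X`.  Let `J` be the set of indices with `f_i ≠ 0`.  The common kernel of the `f_i`,
`i ∈ J`, is `X` (common kernel of all), so `J` has at least `d` elements, and the same is true for
`J` minus any of its elements, because the sum of the `f_i`, `i ∈ J`, is `0`; since `d ≥ 1`, `J` is
not empty, so `|J| ≥ d + 1`.  Double counting: `∑_{i ∈ J} |{x ∈ E | f_i x ≠ 0}| ≤ 2 |E \ X|`, so for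
the `i ∈ J` with the smallest support `|supp| * (d + 1) ≤ |supp| * |J| ≤ 2 |E \ X|`. -/
def St_Star : Prop := ∀ (V : Type) [AddCommGroup V] [Module (ZMod 2) V]
  [FiniteDimensional (ZMod 2) V] (E : Finset V) (X : Submodule (ZMod 2) V),
  Gr (E : Set V) X → X ≠ ⊤ →
  ∃ f : V →ₗ[ZMod 2] ZMod 2, f ≠ 0 ∧ X ≤ LinearMap.ker f ∧
    ({x ∈ (E : Set V) | f x ≠ 0}).ncard * (finrank (ZMod 2) V - finrank (ZMod 2) X + 1) ≤
      2 * ({x ∈ (E : Set V) | x ∉ X}).ncard

/-- EASY. If `X` is spanned by elements of `E`, then `E` has at least `dim X` elements in `X`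
(`finrank_span_finset_le_card` or `Set.finrank_le..`). -/
def St_GC : Prop := ∀ (V : Type) [AddCommGroup V] [Module (ZMod 2) V]
  [FiniteDimensional (ZMod 2) V] (E : Finset V) (X : Submodule (ZMod 2) V),
  Gen (E : Set V) X → finrank (ZMod 2) X ≤ ({x ∈ (E : Set V) | x ∈ X}).ncard

/-- EASY-MEDIUM. Averaging over all functionals: every nonzero `x` is nonzero on exactly
`2 ^ (n - 1)` of the `2 ^ n - 1` nonzero functionals (`Module.Dual`), so some `f ≠ 0` has
`|supp f| * (2 ^ n - 1) ≤ |E| * 2 ^ (n - 1)`.  (The number of `f` with `f x = 0` is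
`2 ^ (n - 1)` for `x ≠ 0`: translation by a functional with value one at `x`, or
`WW.card_vanish` in `Work/MP_a8f287_co/Crit.lean` with `k = 1`.) -/
def St_Avg : Prop := ∀ (V : Type) [AddCommGroup V] [Module (ZMod 2) V]
  [FiniteDimensional (ZMod 2) V] (E : Finset V), (0 : V) ∉ E → 1 ≤ finrank (ZMod 2) V →
  ∃ f : V →ₗ[ZMod 2] ZMod 2, f ≠ 0 ∧
    ({x ∈ (E : Set V) | f x ≠ 0}).ncard * (2 ^ finrank (ZMod 2) V - 1) ≤
      E.card * 2 ^ (finrank (ZMod 2) V - 1)

/-! ### The induction -/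

/-- EASY. The quotient of a free set is free (`WW.HasK5.of_map` in
`Work/MP_a8f287_co/Bd/B01.lean`, line 1965; copy the lemma or import `Bd.B01`).  Choose a linear right
inverse `σ` of `π` (`π (σ w) = w`); apply `of_map` to `σ`, `K = ker π`: `σ w ∈ ker π` gives
`w = π (σ w) = 0`; for `w = π x`, `x ∈ E`: `x + σ w ∈ ker π`, so `Pres E K (σ w)`. -/
def St_KQ : Prop := ∀ (V W : Type) [AddCommGroup V] [Module (ZMod 2) V] [AddCommGroup W]
  [Module (ZMod 2) W] (π : V →ₗ[ZMod 2] W) (E : Set V), Function.Surjective π →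
  Gen E (LinearMap.ker π) → HasK5 {w | w ≠ 0 ∧ ∃ x ∈ E, π x = w} → HasK5 E

/-- EASY. Free sets inside a subspace: `WW.HasK5.of_map` with `φ = S.subtype`, `K = ⊥`. -/
def St_KS : Prop := ∀ (V : Type) [AddCommGroup V] [Module (ZMod 2) V]
  (S : Submodule (ZMod 2) V) (E : Set V), HasK5 {y : ↥S | (y : V) ∈ E} → HasK5 E

/-- EASY. `WW.colSep_free` in `Work/MP_a8f287_co/Bd/B03.lean` line 69 (it needs `WW.claimRel`);
direct proof: `WW.HasK5.of_map` with `φ = S.subtype`, the set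
`F = {y : S | y ∈ E ∨ (y ∈ H ∧ y ≠ 0)}` and `K` of `Fill` (`K ⊓ S = ⊥` as `K ≤ H`), `Gen E K` since
`E ∩ H ⊆ E`. -/
def St_KF : Prop := ∀ (V : Type) [AddCommGroup V] [Module (ZMod 2) V] (E : Set V)
  (S H : Submodule (ZMod 2) V), Fill E S H →
  HasK5 {y : ↥S | (y : V) ∈ E ∨ ((y : V) ∈ H ∧ y ≠ 0)} → HasK5 E

/-- EASY-MEDIUM. Positivity of contractions.  `K` is spanned by elements of `E` and `F` consists of
elements of `E` and contains all elements of `E` outside `K`.  If some element of `F` is in `K`,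
then `q(F, K) = 0` (`hLp : St_Lp`).  Otherwise let `π = K.mkQ : V → V ⧸ K` (surjective, kernel
`K`); `q(F, K) = q(π(F), ⊥)` (`hQuo : St_Quo`); `π(F)` is the set of the nonzero `π x`,
`x ∈ E` (for `x ∈ E ∩ K` it is `0`), so it is in the class (`hC.quo`), it has no `M(K5)`
(`hKQ : St_KQ`), `0 ∉ π(F)`, and `dim (V ⧸ K) < r` because `K ≠ ⊥` or `dim V < r`: hypothesis
`IHyp`. -/
def St_Ctr : Prop := ∀ (lam : ℝ) (C : Prp), OK C → ∀ (r : ℕ), IHyp lam C r →
  ∀ (V : Type) [AddCommGroup V] [Module (ZMod 2) V] [FiniteDimensional (ZMod 2) V]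
  (E F : Finset V) (X K : Submodule (ZMod 2) V), C V (E : Set V) X → ¬ HasK5 (E : Set V) →
  Gen (E : Set V) K → finrank (ZMod 2) V < r + finrank (ZMod 2) K →
  (∀ x ∈ F, x ∈ E) → (∀ x ∈ E, x ∉ K → x ∈ F) →
  0 ≤ q lam F K ∧ ((∀ x ∈ F, x ∉ K) → 0 < q lam F K)

/-- MEDIUM. The vertically 4-connected case: a light functional `f` which vanishes on `X`.  Let
`N = {x ∈ E | f x = 0}`, `D = {x ∈ E | f x ≠ 0}`; `D` is not empty since `E` spans `V` and
`f ≠ 0`.  Apply `hCO : St_CO` (`N ∪ D = E`).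
(1) `0 < q(N, ⊥)`: `N` lies in `S = ker f` of dimension `n - 1 < n`; it is in the class
(`hC.del`: the elements of `E ∩ X` are in `N`; then `hC.sub`), has no `M(K5)` (`hKS : St_KS` and
monotonicity of `HasK5`, 5 lines, `WW.HasK5.mono`), so `IHyp` gives `0 < q(N_S, ⊥)` and
`hSub : St_Sub` (with `K = ⊥`) gives `q(N, ⊥) = lam ^ _ * q(N_S, ⊥)`.
(2) For `d ≠ x` in `D` and `T ⊆ D` with `d, x ∉ T` let `E' = N ∪ T ∪ {d, x} ⊆ E`: it is in the class
(`hC.del`), free, and `K = span {d, x}` is spanned by elements of `E'`; `hCtr : St_Ctr` with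
`r = n` for `E'`, `F = N ∪ T`: `0 ≤ q(N ∪ T, K)` (`dim K ≥ 1` since `d ≠ 0`; an element of `E'`
outside `K` is in `N ∪ T`).
(3) If `|D| < lam` we are done.  Otherwise `|D| ≥ lam ≥ 5`, so by `hK5 : St_K5P` there are
`d ≠ x` in `D` with `d + x ∉ E`.  Then no element of `N` is in `K = span {d, x} =
{0, d, x, d + x}` (`0 ∉ E`, `f d ≠ 0`, `f x ≠ 0`, `d + x ∉ E`), and `hCtr` for
`E' = N ∪ {d, x}`, `F = N` gives `0 < q(N, K)`. -/
def St_VC : Prop := ∀ (lam : ℝ) (C : Prp), 5 ≤ lam → OK C →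
  ∀ (V : Type) [AddCommGroup V] [Module (ZMod 2) V] [FiniteDimensional (ZMod 2) V]
  (E : Finset V) (X : Submodule (ZMod 2) V) (f : V →ₗ[ZMod 2] ZMod 2),
  IHyp lam C (finrank (ZMod 2) V) → C V (E : Set V) X → (0 : V) ∉ E → ¬ HasK5 (E : Set V) →
  span (ZMod 2) (E : Set V) = ⊤ → f ≠ 0 → X ≤ LinearMap.ker f →
  ((({x ∈ (E : Set V) | f x ≠ 0}).ncard : ℕ) : ℝ) ≤ lam → 0 < q lam E ⊥

/-- EASY-MEDIUM. One side of a separation, with the guts filled.  The set
`ES = {y : S | y ∈ E ∨ (y ∈ H ∧ y ≠ 0)}` is in the class (`hC.sep`) and free (`hKF : St_KF`).  `K ≤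
S ⊓ H`, so `K' = K.comap S.subtype` is spanned by elements of `ES` (all its nonzero elements are in
`ES`).  Let `F' : Finset S` be the preimage of `F` (`F'.map val = F`, `K'.map S.subtype = K`);
`hSub : St_Sub` gives `q(F, K) = lam ^ _ * q(F', K')`, and `hCtr : St_Ctr` in the space `S` with
`r = dim V > dim S` and the finite set `ES` gives the claim (`lam ^ _ > 0`). -/
def St_Side : Prop := ∀ (lam : ℝ) (C : Prp), 5 ≤ lam → OK C →
  ∀ (V : Type) [AddCommGroup V] [Module (ZMod 2) V] [FiniteDimensional (ZMod 2) V]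
  (E F : Finset V) (X S H K : Submodule (ZMod 2) V),
  IHyp lam C (finrank (ZMod 2) V) → C V (E : Set V) X → (0 : V) ∉ E → ¬ HasK5 (E : Set V) →
  S ≠ ⊤ → (∀ x ∈ E, x ∈ S ∨ x ∈ H) → H ≤ span (ZMod 2) ((E : Set V) ∩ (H : Set V)) →
  finrank (ZMod 2) ↥(S ⊓ H) ≤ 2 → Fill (E : Set V) S H → K ≤ S ⊓ H →
  (∀ x ∈ F, x ∈ S ∧ (x ∈ E ∨ (x ∈ H ∧ x ≠ 0))) →
  (∀ x ∈ S, (x ∈ E ∨ (x ∈ H ∧ x ≠ 0)) → x ∉ K → x ∈ F) →
  0 ≤ q lam F K ∧ ((∀ x ∈ F, x ∉ K) → 0 < q lam F K)

/-- EASY-MEDIUM. A separation with guts of dimension `0`, `1` or `2` (all filled from both sides).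
Let `A = {x ∈ E | x ∈ S}`, `B = {x ∈ E | x ∈ H}`, `A ∪ B = E`, `U = S ⊓ H`; `S ⊔ H = ⊤` since `E`
spans.  `dim U = 0`: `hG0 : St_G0` and `hSide : St_Side` for both sides with `K = ⊥` (`F = A`).
`dim U = 1`, `U = span {u}`: `hG1 : St_G1`; the terms `q(insert u A, ⊥) > 0` (`K = ⊥`,
`F = insert u A`; no element of it is `0`), `q(A, span {u}) ≥ 0` (`K = U`, `F = A`).  `dim U = 2`,
`U = span {u, w}` (`u, w` a basis): `hG2 : St_G2`; `q(insert u (insert w (insert (u+w) A)), ⊥) > 0`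
(`K = ⊥`), the terms with `K = span {u}`, `F = insert w (insert (u + w) A)` and so on are `≥ 0`, and
`q(A, U) ≥ 0` (`F = A`; the elements of `S ⊓ H` outside `K` are `w, u + w`, ...).  The same for `B`
with `S`, `H` exchanged.  The factors on the left, `lam - 1`, `lam - 2`, powers of `lam`, are positive,
so `q(E, ⊥) > 0`. -/
def St_S012 : Prop := ∀ (lam : ℝ) (C : Prp), 5 ≤ lam → OK C →
  ∀ (V : Type) [AddCommGroup V] [Module (ZMod 2) V] [FiniteDimensional (ZMod 2) V]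
  (E : Finset V) (X S H : Submodule (ZMod 2) V),
  IHyp lam C (finrank (ZMod 2) V) → C V (E : Set V) X → (0 : V) ∉ E → ¬ HasK5 (E : Set V) →
  span (ZMod 2) (E : Set V) = ⊤ → S ≠ ⊤ → H ≠ ⊤ → (∀ x ∈ E, x ∈ S ∨ x ∈ H) →
  S ≤ span (ZMod 2) ((E : Set V) ∩ (S : Set V)) → H ≤ span (ZMod 2) ((E : Set V) ∩ (H : Set V)) →
  finrank (ZMod 2) ↥(S ⊓ H) ≤ 2 → Fill (E : Set V) S H → Fill (E : Set V) H S → 0 < q lam E ⊥

/-- EASY-MEDIUM. A triad.  `E ∩ H = {x, x + p, x + r}` with `x ∉ S`, `p, r ∈ S ⊓ H` nonzero and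
distinct.  Let `f` be a functional vanishing on `S` with `f x ≠ 0` (`WW.colSep_dual`, 15 lines in
`Bd/B03.lean`; or `Submodule.exists_le_ker_of_notMem` / `Submodule.exists_dual_map_eq_bot..`), and
`N = {y ∈ E | y ∈ S}`; then `E = N ∪ {x, x + p, x + r}` and `hTri : St_Tri` applies.  All terms on the
right are `≥ 0` and the first one is `> 0` by `hCtr : St_Ctr` with `r = n` for the set `E`: `K = span {x}`,
`F = N ∪ {x+p, x+r}` (no element of `F` is in `{0, x}`: `f` is `0` on `N`, `0 ∉ E`, `p, r ≠ 0`);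
`K = span {x, x+p}`, `F = N ∪ {x+r}`; `K = span {x, x+r}`, `F = N ∪ {x+p}`;
`K = span {x+p, x+r}`, `F = N ∪ {x}`; `K = span {x, x+p, x+r}`, `F = N`. -/
def St_S3 : Prop := ∀ (lam : ℝ) (C : Prp), 5 ≤ lam → OK C →
  ∀ (V : Type) [AddCommGroup V] [Module (ZMod 2) V] [FiniteDimensional (ZMod 2) V]
  (E : Finset V) (X S H : Submodule (ZMod 2) V) (x p r : V),
  IHyp lam C (finrank (ZMod 2) V) → C V (E : Set V) X → (0 : V) ∉ E → ¬ HasK5 (E : Set V) →
  (∀ y ∈ E, y ∈ S ∨ y ∈ H) → p ∈ S ⊓ H → r ∈ S ⊓ H → p ≠ 0 → r ≠ 0 → p ≠ r → x ∉ S → x ∈ H →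
  (E : Set V) ∩ (H : Set V) = {x, x + p, x + r} → 0 < q lam E ⊥

/-! ### The matroid of a family of vectors -/

/-- EASY-MEDIUM. Parallel elements do not matter.  `v : ι → V` is a finite family, `E` its set of
values.  Both sides are values of real polynomials in `lam` (the left one is
`∑ (-1)^|A| X^(n - dim span v(A))`), so by `hP : St_Pid` it is enough to compare at `2 ^ k`: the left side
is the number of linear maps `V → GF(2)^k` with `f (v i) ≠ 0` for all `i`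
(`WW.crapo_rota` in `Work/MP_a8f287_co/Crit.lean`), the right side is
`cnt k E ⊥` (`hE : St_Ev`, `hC : St_Cnt`), the same number. -/
def St_Fam : Prop := ∀ (V ι : Type) [AddCommGroup V] [Module (ZMod 2) V]
  [FiniteDimensional (ZMod 2) V] [DecidableEq V] [Fintype ι] [DecidableEq ι] (lam : ℝ)
  (v : ι → V),
  ∑ A : Finset ι, (-1 : ℝ) ^ A.card * lam ^ (finrank (ZMod 2) V -
    finrank (ZMod 2) ↥(span (ZMod 2) (v '' (A : Set ι)))) =
  q lam (Finset.univ.image v) ⊥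

end Pool.Agent.Work.MP_9f8812_co.LG
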