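import Mathlib
import Pool.Agent.Work.MP_9f8812_co.LG.Stmts

/-!
# Block LG, item C4b: a side of a separation, second case
-/

set_option autoImplicit false

namespace Pool.Agent.Work.MP_9f8812_co.LG

open Submodule Module
open Pool.Agent.WW (HasK5 Gen Pres VC Good)

namespace IC4b

section

variable {V : Type} [AddCommGroup V] [Module (ZMod 2) V]

theorem aself (x : V) : x + x = 0 := ZModModule.add_self x

theorem cancel (k u : V) : k + u + u = k := by rw [add_assoc, aself, add_zero]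

theorem zmod2 (c : ZMod 2) : c = 0 ∨ c = 1 := by
  revert c
  decide

theorem gen_mono {E E' : Set V} {K : Submodule (ZMod 2) V} (h : Gen E K) (hE : E ⊆ E') :
    Gen E' K := by
  unfold Gen at *
  exact h.trans (span_mono (Set.inter_subset_inter_left _ hE))

theorem exM [FiniteDimensional (ZMod 2) V] (E : Set V) (S H K U : Submodule (ZMod 2) V)
    (hU : U = S ⊓ H) (hKS : K ⊓ S = ⊥) (hHK : H ≤ K ⊔ U)
    (hH : H ≤ span (ZMod 2) (E ∩ (H : Set V))) (hdim : finrank (ZMod 2) ↥U ≤ 2)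
    (hGK : Gen E K) :
    ∃ M : Submodule (ZMod 2) V, M ≤ U ∧ finrank (ZMod 2) ↥M ≤ 1 ∧ Gen E (K ⊔ M) ∧
      ∀ u ∈ U, u ∉ M → ∃ x ∈ E, u + x ∈ K ⊔ M := by
  set T : Set V := {u | u ∈ U ∧ ∃ x ∈ E, x ∈ H ∧ x + u ∈ K} with hT
  have hTU : span (ZMod 2) T ≤ U := span_le.2 (fun u hu => hu.1)
  have h1 : H ≤ span (ZMod 2) T ⊔ K := by
    refine hH.trans (span_le.2 ?_)
    rintro x ⟨hxE, hxH⟩
    obtain ⟨k, hk, u, hu, hku⟩ := mem_sup.1 (hHK hxH)
    have hxu : x + u = k := by rw [← hku, cancel]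
    have hxu' : x = u + k := by rw [← hku, add_comm]
    have huT : u ∈ T := ⟨hu, x, hxE, hxH, by rw [hxu]; exact hk⟩
    show x ∈ span (ZMod 2) T ⊔ K
    rw [hxu']
    exact add_mem (mem_sup_left (subset_span huT)) (mem_sup_right hk)
  have hUH : U ≤ H := by rw [hU]; exact inf_le_right
  have hUS : U ≤ S := by rw [hU]; exact inf_le_left
  have h2 : U ≤ span (ZMod 2) T := by
    have e : (span (ZMod 2) T ⊔ K) ⊓ U = span (ZMod 2) T ⊔ K ⊓ U := sup_inf_assoc_of_le K hTU
    have e2 : K ⊓ U = ⊥ := by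
      rw [eq_bot_iff, ← hKS]
      exact inf_le_inf_left K hUS
    have e3 : U ≤ (span (ZMod 2) T ⊔ K) ⊓ U := le_inf (hUH.trans h1) le_rfl
    rw [e, e2, sup_bot_eq] at e3
    exact e3
  by_cases hbot : ∀ u ∈ T, u = 0
  · have hUbot : U = ⊥ := by
      rw [eq_bot_iff]
      refine h2.trans (span_le.2 ?_)
      intro u hu
      rw [hbot u hu]
      exact zero_mem _
    refine ⟨⊥, bot_le, ?_, ?_, ?_⟩
    · rw [finrank_bot]
      omega
    · rw [sup_bot_eq]
      exact hGK
    · intro u hu hu'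
      rw [hUbot] at hu
      exact absurd hu hu'
  · push Not at hbot
    obtain ⟨u1, hu1T, hu1⟩ := hbot
    obtain ⟨hu1U, x1, hx1E, hx1H, hx1K⟩ := hu1T
    set M : Submodule (ZMod 2) V := span (ZMod 2) {u1} with hM
    have hMU : M ≤ U := span_le.2 (by rintro y rfl; exact hu1U)
    have hu1M : u1 ∈ M := mem_span_singleton_self u1
    have hM1 : finrank (ZMod 2) ↥M = 1 := finrank_span_singleton hu1
    refine ⟨M, hMU, hM1.le, ?_, ?_⟩
    · -- generation
      have hK : K ≤ span (ZMod 2) (E ∩ ((K ⊔ M : Submodule (ZMod 2) V) : Set V)) := by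
        have h3 : K ≤ span (ZMod 2) (E ∩ (K : Set V)) := hGK
        refine h3.trans (span_mono ?_)
        rintro y ⟨hy1, hy2⟩
        exact ⟨hy1, mem_sup_left hy2⟩
      refine sup_le hK (span_le.2 ?_)
      rintro y rfl
      have e1 : y = x1 + (x1 + y) := by rw [← add_assoc, aself, zero_add]
      have hx1 : x1 ∈ K ⊔ M := by
        have e2 : x1 = x1 + y + y := (cancel x1 y).symm
        rw [e2]
        exact add_mem (mem_sup_left hx1K) (mem_sup_right hu1M)
      show y ∈ span (ZMod 2) (E ∩ ((K ⊔ M : Submodule (ZMod 2) V) : Set V))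
      rw [e1]
      exact add_mem (subset_span ⟨hx1E, hx1⟩) (hK hx1K)
    · intro u hu huM
      have hex : ∃ u2 ∈ T, u2 ∉ M := by
        by_contra hcon
        push Not at hcon
        exact huM ((h2.trans (span_le.2 hcon)) hu)
      obtain ⟨u2, ⟨hu2U, x2, hx2E, hx2H, hx2K⟩, hu2M⟩ := hex
      have hu2 : u2 ≠ 0 := by
        intro h0
        exact hu2M (h0 ▸ zero_mem M)
      have hdis : Disjoint M (span (ZMod 2) {u2}) :=
        (disjoint_span_singleton' hu2).2 hu2M
      have hsum := Submodule.finrank_sup_add_finrank_inf_eq M (span (ZMod 2) {u2})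
      rw [hdis.eq_bot, finrank_bot, hM1, finrank_span_singleton hu2] at hsum
      have hle : M ⊔ span (ZMod 2) {u2} ≤ U :=
        sup_le hMU (span_le.2 (by rintro y rfl; exact hu2U))
      have heq : M ⊔ span (ZMod 2) {u2} = U :=
        Submodule.eq_of_le_of_finrank_le hle (by omega)
      rw [← heq] at hu
      obtain ⟨m, hm, y, hy, hmy⟩ := mem_sup.1 hu
      obtain ⟨c, hc⟩ := mem_span_singleton.1 hy
      rcases zmod2 c with h0 | h0
      · rw [h0, zero_smul] at hc
        rw [← hc, add_zero] at hmy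
        exact absurd (hmy ▸ hm) huM
      · rw [h0, one_smul] at hc
        refine ⟨x2, hx2E, ?_⟩
        have e : u + x2 = m + (x2 + u2) := by
          rw [← hmy, ← hc]
          abel
        rw [e]
        exact add_mem (mem_sup_right hm) (mem_sup_left hx2K)

end

end IC4b

open IC4b in
theorem pr_C4b (hG : St_GrC) (hLn : St_Ln) : St_C4b := by
  intro t V _ _ _ E X S H hCl hE hH hdim hy0
  obtain ⟨⟨m, φ, hker, hwt⟩, hXt, hGX⟩ := hCl
  have hGX' : X ≤ span (ZMod 2) (E ∩ (X : Set V)) := hGX trivial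
  obtain ⟨y0, hy0E, hy0X, hy0S⟩ := hy0
  have hy0H : y0 ∈ H := (hE y0 hy0E).resolve_left hy0S
  have hy00 : y0 ≠ 0 := fun h => hy0S (h ▸ zero_mem S)
  -- step 1
  set E' : Set V := {y | y ∈ E ∧ y ∈ X ∧ y ∈ H} with hE'
  set H' : Submodule (ZMod 2) V := span (ZMod 2) E' with hH'
  have hH'H : H' ≤ H := span_le.2 (fun y hy => hy.2.2)
  have hH'X : H' ≤ X := span_le.2 (fun y hy => hy.2.1)
  have hE'H' : E' ∩ (H' : Set V) = E' := Set.inter_eq_left.2 subset_span
  obtain ⟨Q, hQ1, hQ2, hQ3, hQ4, hQ5⟩ := hLn V E' {y0} S H' (by rw [hE'H']) (by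
      rintro y rfl
      exact ⟨⟨hy0E, hy0X, hy0H⟩, subset_span ⟨hy0E, hy0X, hy0H⟩⟩) (by
      have := (disjoint_span_singleton' (s := S) hy00).2 hy0S
      rw [inf_comm]
      exact this.eq_bot)
  have hQX : Q ≤ X := hQ2.trans hH'X
  have hQ1' : 1 ≤ finrank (ZMod 2) ↥Q := by
    have := Submodule.finrank_mono hQ1
    rw [finrank_span_singleton hy00] at this
    exact this
  have hQgen : Q ≤ span (ZMod 2) (E' ∩ (H' : Set V) ∩ (Q : Set V)) := hQ3
  rw [hE'H'] at hQgen
  have hQspan : span (ZMod 2) (E' ∩ (Q : Set V)) = Q :=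
    le_antisymm (span_le.2 (fun y hy => hy.2)) hQgen
  -- step 2
  obtain ⟨K, hK1, hKH, hK3, hKS, hHK⟩ := hLn V E (E' ∩ (Q : Set V)) S H hH
    (fun y hy => ⟨hy.1.1, hy.1.2.2⟩) (by rw [hQspan]; exact hQ4)
  rw [hQspan] at hK1
  have hGK : Gen E K := gen_mono hK3 Set.inter_subset_left
  -- step 3
  obtain ⟨M, hMU, hM1, hGM, hMx⟩ := exM E S H K (S ⊓ H) rfl hKS hHK hH hdim hGK
  -- step 4
  obtain ⟨φ', hker', hwt'⟩ := hG V E (K ⊔ M) m φ hwt hGM
  rw [hker] at hker'
  -- step 5
  set R : Submodule (ZMod 2) V := span (ZMod 2) ({y | y ∈ E ∧ y ∈ X ∧ y ∈ S} ∪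
    ({s | s ∈ S ⊓ H ∧ ∃ y ∈ E', s + y ∈ Q} ∪ (M : Set V))) with hR
  have hMR : M ≤ R := fun x hx => subset_span (Or.inr (Or.inr hx))
  have hRS : R ≤ S := by
    refine span_le.2 ?_
    rintro y (hy | hy | hy)
    · exact hy.2.2
    · exact hy.1.1
    · exact (hMU hy).1
  have hRX : R ≤ X ⊔ (K ⊔ M) := by
    refine span_le.2 ?_
    rintro y (hy | hy | hy)
    · exact mem_sup_left hy.2.1
    · obtain ⟨-, z, hz, hyz⟩ := hy
      have e : y = y + z + z := (cancel y z).symm
      show y ∈ X ⊔ (K ⊔ M)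
      rw [e]
      exact mem_sup_left (add_mem (hQX hyz) hz.2.1)
    · exact mem_sup_right (mem_sup_right hy)
  have hXR : X ≤ R ⊔ K := by
    refine hGX'.trans (span_le.2 ?_)
    rintro y ⟨hyE, hyX⟩
    rcases hE y hyE with hyS | hyH
    · exact mem_sup_left (subset_span (Or.inl ⟨hyE, hyX, hyS⟩))
    · have hyE' : y ∈ E' := ⟨hyE, hyX, hyH⟩
      have hyH' : y ∈ H' := subset_span hyE'
      obtain ⟨j, hj, s, hs, hjs⟩ := mem_sup.1 (hQ5 hyH')
      have hsU : s ∈ S ⊓ H := ⟨hs.1, hH'H hs.2⟩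
      have e : s + y = j := by
        rw [← hjs, add_comm, cancel]
      have hsR : s ∈ R := subset_span (Or.inr (Or.inl ⟨hsU, y, hyE', by rw [e]; exact hj⟩))
      show y ∈ R ⊔ K
      rw [← hjs, add_comm]
      exact add_mem (mem_sup_left hsR) (mem_sup_right (hK1 hj))
  have hsup : X ⊔ (K ⊔ M) = R ⊔ K := by
    refine le_antisymm ?_ ?_
    · exact sup_le hXR (sup_le le_sup_right (hMR.trans le_sup_left))
    · exact sup_le hRX (le_sup_left.trans le_sup_right)
  have hmod : (X ⊔ (K ⊔ M)) ⊓ S = R := by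
    rw [hsup, sup_inf_assoc_of_le K hRS, hKS, sup_bot_eq]
  -- the kernel
  refine ⟨LinearMap.ker (φ' ∘ₗ S.subtype), ⟨m, φ' ∘ₗ S.subtype, rfl, ?_⟩, ?_, ?_⟩
  · -- weights
    intro y hy
    show wt (φ' (y : V)) ≤ 2
    by_cases hyE : (y : V) ∈ E
    · exact hwt' _ (hwt _ hyE)
    · have hyH : (y : V) ∈ H ∧ y ≠ 0 := hy.resolve_left hyE
      have hyU : (y : V) ∈ S ⊓ H := ⟨y.2, hyH.1⟩
      by_cases hyM : (y : V) ∈ M
      · have h0 : φ' (y : V) = 0 := by
          have : (y : V) ∈ LinearMap.ker φ' := by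
            rw [hker']
            exact mem_sup_right (mem_sup_right hyM)
          exact this
        rw [h0]
        unfold wt
        simp
      · obtain ⟨x, hxE, hxy⟩ := hMx _ hyU hyM
        have h0 : φ' ((y : V) + x) = 0 := by
          have : (y : V) + x ∈ LinearMap.ker φ' := by
            rw [hker']
            exact mem_sup_right hxy
          exact this
        rw [map_add] at h0
        have h1 : φ' (y : V) = φ' x := by
          have := cancel (φ' (y : V)) (φ' x)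
          rw [h0, zero_add] at this
          exact this.symm
        rw [h1]
        exact hwt' _ (hwt _ hxE)
  · -- dimension
    refine le_trans ?_ hXt
    have hmapeq : (LinearMap.ker (φ' ∘ₗ S.subtype)).map S.subtype = R := by
      rw [LinearMap.ker_comp, hker', Submodule.map_comap_subtype, inf_comm]
      exact hmod
    have hfr : finrank (ZMod 2) ↥(LinearMap.ker (φ' ∘ₗ S.subtype)) = finrank (ZMod 2) ↥R := by
      rw [← hmapeq]
      exact (Submodule.finrank_map_subtype_eq S _).symm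
    rw [hfr]
    have hRK : R ⊓ K = ⊥ := by
      rw [eq_bot_iff, ← hKS, inf_comm]
      exact inf_le_inf_left K hRS
    have d1 := Submodule.finrank_sup_add_finrank_inf_eq R K
    rw [hRK, finrank_bot, ← hsup] at d1
    have d2 := Submodule.finrank_add_le_finrank_add_finrank (X ⊔ K) M
    have d3 := Submodule.finrank_sup_add_finrank_inf_eq X K
    have d4 : finrank (ZMod 2) ↥Q ≤ finrank (ZMod 2) ↥(X ⊓ K) :=
      Submodule.finrank_mono (le_inf hQX hK1)
    have d5 : X ⊔ (K ⊔ M) = (X ⊔ K) ⊔ M := (sup_assoc X K M).symm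
    rw [d5] at d1
    omega
  · -- generation
    intro _
    show LinearMap.ker (φ' ∘ₗ S.subtype) ≤ span (ZMod 2) _
    set F : Set ↥S := {y : ↥S | (y : V) ∈ E ∨ ((y : V) ∈ H ∧ y ≠ 0)} with hF
    set X' : Submodule (ZMod 2) ↥S := LinearMap.ker (φ' ∘ₗ S.subtype) with hX'
    have hmemX' : ∀ y : ↥S, (y : V) ∈ R → y ∈ X' := by
      intro y hy
      show φ' (y : V) = 0
      have : (y : V) ∈ LinearMap.ker φ' := by
        rw [hker']
        exact hRX hy
      exact this
    have hgen : R ≤ (span (ZMod 2) (F ∩ (X' : Set ↥S))).map S.subtype := by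
      refine span_le.2 ?_
      intro a ha
      have haR : a ∈ R := subset_span ha
      have haS : a ∈ S := hRS haR
      by_cases ha0 : a = 0
      · rw [ha0]
        exact zero_mem _
      · refine ⟨⟨a, haS⟩, subset_span ⟨?_, hmemX' _ haR⟩, rfl⟩
        have hne : (⟨a, haS⟩ : ↥S) ≠ 0 := fun h => ha0 (congrArg Subtype.val h)
        rcases ha with ha | ha | ha
        · exact Or.inl ha.1
        · exact Or.inr ⟨ha.1.2, hne⟩
        · exact Or.inr ⟨(hMU ha).2, hne⟩
    intro y hy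
    have hyR : (y : V) ∈ R := by
      rw [← hmod]
      refine ⟨?_, y.2⟩
      show (y : V) ∈ X ⊔ (K ⊔ M)
      rw [← hker']
      exact hy
    obtain ⟨y', hy', he⟩ := hgen hyR
    have : y' = y := Subtype.ext he
    rw [← this]
    exact hy'

end Pool.Agent.Work.MP_9f8812_co.LG
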