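import Pool.Agent.Work.MP_9f8812_co.LG.Stmts

/-! # Items Ev, Pid, DC, Lp, Col, GrC, C1, OK, KQ, KS, KF of block LG -/

set_option autoImplicit false

namespace Pool.Agent.Work.MP_9f8812_co.LG

open Submodule Module
open Pool.Agent.WW (HasK5 Gen Pres VC Good)

theorem pr_Ev : St_Ev := by
  intro V _ _ lam E K
  unfold Qp q
  rw [Polynomial.eval_finset_sum]
  refine Finset.sum_congr rfl fun A _ => ?_
  simp

theorem pr_Pid : St_Pid := by
  intro a b k0 h
  apply Polynomial.eq_of_infinite_eval_eq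
  have hinj : Function.Injective (fun k : ℕ => (2 : ℝ) ^ (k + k0)) := by
    intro i j hij
    have h1 : (2 : ℝ) ^ (i + k0) = 2 ^ (j + k0) := hij
    have h2 := pow_right_injective₀ (by norm_num : (0 : ℝ) < 2) (by norm_num : (2 : ℝ) ≠ 1) h1
    omega
  refine (Set.infinite_range_of_injective hinj).mono ?_
  rintro _ ⟨k, rfl⟩
  exact h _ (by omega)

namespace IDC

variable {V : Type} [AddCommGroup V] [Module (ZMod 2) V] [FiniteDimensional (ZMod 2) V]

lemma sup_insert (d : V) (A : Set V) (K : Submodule (ZMod 2) V) :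
    span (ZMod 2) (insert d A) ⊔ K = span (ZMod 2) A ⊔ (K ⊔ span (ZMod 2) {d}) := by
  rw [span_insert, sup_comm K, ← sup_assoc, sup_comm (span (ZMod 2) A)]

lemma main [DecidableEq V] (lam : ℝ) (E : Finset V) (d : V) (K : Submodule (ZMod 2) V)
    (hd : d ∉ E) : q lam (insert d E) K = q lam E K - q lam E (K ⊔ span (ZMod 2) {d}) := by
  unfold q
  rw [Finset.sum_powerset_insert hd, sub_eq_add_neg, ← Finset.sum_neg_distrib]
  congr 1
  refine Finset.sum_congr rfl fun A hA => ?_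
  have hdA : d ∉ A := fun h => hd (Finset.mem_powerset.1 hA h)
  rw [Finset.card_insert_of_notMem hdA, Finset.coe_insert, sup_insert, pow_succ]
  ring

end IDC

theorem pr_DC : St_DC := by
  intro V _ _ _ _ lam E d K
  by_cases hd : d ∈ E
  · have h1 := IDC.main lam (E.erase d) d (K ⊔ span (ZMod 2) {d}) (Finset.notMem_erase d E)
    rw [Finset.insert_erase hd, sup_assoc, sup_idem, sub_self] at h1
    rw [Finset.insert_eq_of_mem hd, h1, sub_zero]
  · exact IDC.main lam E d K hd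

theorem pr_Lp (hDC : St_DC) : St_Lp := by
  classical
  intro V _ _ _ lam E x K hx hK
  have h1 := hDC V lam (E.erase x) x K
  rw [Finset.insert_erase hx] at h1
  have h2 : K ⊔ span (ZMod 2) {x} = K := by
    rw [sup_eq_left, span_singleton_le_iff_mem]
    exact hK
  rw [h1, h2, sub_self]

theorem pr_Col : St_Col := by
  intro V _ _ _ lam f E d K hK hE hd
  unfold q
  rw [Finset.mul_sum]
  refine Finset.sum_congr rfl fun A hA => ?_
  have hA' := Finset.mem_powerset.1 hA
  have h2 : d ∉ span (ZMod 2) (A : Set V) ⊔ K := by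
    intro h
    have h3 : span (ZMod 2) (A : Set V) ⊔ K ≤ LinearMap.ker f := by
      refine sup_le (span_le.2 ?_) ?_
      · intro x hx
        exact hE x (hA' hx)
      · intro x hx
        exact hK x hx
    exact hd (h3 h)
  have h1 : finrank (ZMod 2) ↥(span (ZMod 2) (A : Set V) ⊔ (K ⊔ span (ZMod 2) {d})) =
      finrank (ZMod 2) ↥(span (ZMod 2) (A : Set V) ⊔ K) + 1 := by
    rw [← sup_assoc]
    exact finrank_sup_span_singleton h2
  have h3 : finrank (ZMod 2) ↥(span (ZMod 2) (A : Set V) ⊔ (K ⊔ span (ZMod 2) {d})) ≤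
      finrank (ZMod 2) V := Submodule.finrank_le _
  have h4 : finrank (ZMod 2) V - finrank (ZMod 2) ↥(span (ZMod 2) (A : Set V) ⊔ K) =
      (finrank (ZMod 2) V -
        finrank (ZMod 2) ↥(span (ZMod 2) (A : Set V) ⊔ (K ⊔ span (ZMod 2) {d}))) + 1 := by
    omega
  rw [h4, pow_succ]
  ring

theorem pr_GrC (hM : St_Mrg) : St_GrC := by
  intro V _ _ E K m φ hE hK
  obtain ⟨μ, hμ, hw⟩ := hM m (K.map φ) (by
    refine (map_mono hK).trans ?_
    rw [map_span, span_le]
    rintro _ ⟨x, ⟨hx, hxK⟩, rfl⟩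
    exact subset_span ⟨mem_map_of_mem hxK, hE x hx⟩)
  refine ⟨μ.comp φ, ?_, fun v hv => hw _ hv⟩
  rw [LinearMap.ker_comp, hμ, Submodule.comap_map_eq, sup_comm]

theorem pr_C1 : St_C1 := by
  intro p t V _ _ E E' X h hE hX
  obtain ⟨⟨m, φ, hφ, hw⟩, ht, hp⟩ := h
  refine ⟨⟨m, φ, hφ, fun x hx => hw x (hE hx)⟩, ht, fun h => ?_⟩
  refine (hp h).trans (span_mono ?_)
  rintro x ⟨hx, hxX⟩
  exact ⟨hX x hx hxX, hxX⟩

theorem pr_OK (h1 : St_C1) (h2 : St_C2) (h3 : St_C3) (h4 : St_C4a) (h5 : St_C4b) : St_OK := by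
  intro p t
  refine ⟨?_, ?_, ?_, ?_⟩
  · intro V _ _ E E' X h hE hX
    exact h1 p t V E E' X h hE hX
  · intro V W _ _ _ _ _ π E X hπ hG h
    exact h2 p t V W π E X hπ hG h
  · intro V _ _ _ S E X hS h
    exact h3 p t V S E X hS h
  · intro V _ _ _ E X S H h hcov hH hd hF
    by_cases hc : p → ∀ x ∈ E, x ∈ X → x ∈ S
    · exact h4 p t V E X S H h hc hF
    · push Not at hc
      obtain ⟨hp, y, hy, hyX, hyS⟩ := hc
      have hp' : p = True := eq_true hp
      subst hp'
      exact h5 t V E X S H h hcov hH hd ⟨y, hy, hyX, hyS⟩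

namespace IK

variable {V W : Type} [AddCommGroup V] [Module (ZMod 2) V] [AddCommGroup W] [Module (ZMod 2) W]

lemma add_self (v : V) : v + v = 0 := by
  have h : (2 : ZMod 2) = 0 := rfl
  rw [← two_smul (ZMod 2) v, h, zero_smul]

theorem of_map (φ : W →ₗ[ZMod 2] V) (F : Set W) (E : Set V) (K : Submodule (ZMod 2) V)
    (hK : Gen E K) (hinj : ∀ w, φ w ∈ K → w = 0) (hF : ∀ w ∈ F, Pres E K (φ w))
    (h : HasK5 F) : HasK5 E := by
  obtain ⟨KF, hGF, s, hi, hp, hpp⟩ := h
  set K' : Submodule (ZMod 2) V := K ⊔ map φ KF with hK'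
  have hKK' : K ≤ K' := le_sup_left
  have hmK' : ∀ y ∈ KF, φ y ∈ K' := fun y hy => (le_sup_right : map φ KF ≤ K') (mem_map_of_mem hy)
  have hP : ∀ v, Pres F KF v → Pres E K' (φ v) := by
    rintro v ⟨w, hw, hwv⟩
    obtain ⟨x, hx, hxw⟩ := hF w hw
    refine ⟨x, hx, ?_⟩
    have e : x + φ v = (x + φ w) + φ (w + v) := by
      rw [map_add]
      calc x + φ v = x + φ v + (φ w + φ w) := by rw [add_self, add_zero]
        _ = _ := by abel
    rw [e]
    exact add_mem (hKK' hxw) (hmK' _ hwv)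
  refine ⟨K', ?_, fun i => φ (s i), ?_, fun i => hP _ (hp i), fun i j hij => ?_⟩
  · have h1 : K ≤ span (ZMod 2) (E ∩ K') :=
      hK.trans (span_mono (Set.inter_subset_inter_right _ hKK'))
    refine sup_le h1 ?_
    refine (map_mono hGF).trans ?_
    rw [map_span, span_le]
    rintro _ ⟨w, ⟨hwF, hwK⟩, rfl⟩
    obtain ⟨x, hx, hxw⟩ := hF w hwF
    have e : φ w = x + (x + φ w) := by
      rw [← add_assoc, add_self, zero_add]
    have e' : x = (x + φ w) + φ w := by
      rw [add_assoc, add_self, add_zero]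
    have hxK' : x ∈ K' := by
      rw [e']
      exact add_mem (hKK' hxw) (hmK' _ hwK)
    rw [SetLike.mem_coe, e]
    exact add_mem (subset_span ⟨hx, hxK'⟩) (h1 hxw)
  · intro c hc
    rw [hK', mem_sup] at hc
    obtain ⟨k, hk, z, ⟨y, hy, rfl⟩, hz⟩ := hc
    apply hi
    have e : φ (∑ i, c i • s i - y) = k := by
      rw [map_sub, map_sum]
      simp only [map_smul]
      rw [← hz]
      abel
    have h0 := hinj (∑ i, c i • s i - y) (by rw [e]; exact hk)
    rw [sub_eq_zero] at h0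
    rw [h0]
    exact hy
  · have := hP _ (hpp i j hij)
    rwa [map_add] at this

end IK

theorem pr_KQ : St_KQ := by
  intro V W _ _ _ _ π E hπ hG h
  obtain ⟨σ, hσ⟩ := LinearMap.exists_rightInverse_of_surjective π (LinearMap.range_eq_top.2 hπ)
  have hσ' : ∀ w, π (σ w) = w := fun w => LinearMap.congr_fun hσ w
  refine IK.of_map σ _ E (LinearMap.ker π) hG ?_ ?_ h
  · intro w hw
    rw [LinearMap.mem_ker, hσ'] at hw
    exact hw
  · rintro w ⟨_, x, hx, rfl⟩
    refine ⟨x, hx, ?_⟩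
    rw [LinearMap.mem_ker, map_add, hσ', IK.add_self]

theorem pr_KS : St_KS := by
  intro V _ _ S E h
  refine IK.of_map S.subtype _ E ⊥ bot_le ?_ ?_ h
  · intro w hw
    rw [mem_bot] at hw
    exact Subtype.ext hw
  · intro w hw
    refine ⟨(w : V), hw, ?_⟩
    rw [mem_bot, Submodule.subtype_apply, IK.add_self]

theorem pr_KF : St_KF := by
  intro V _ _ E S H hF h
  obtain ⟨K, k1, k2, k3, k4⟩ := hF
  refine IK.of_map S.subtype _ E K (k1.trans (span_mono
    (Set.inter_subset_inter_left _ Set.inter_subset_left))) ?_ ?_ h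
  · intro w hw
    have : (w : V) ∈ K ⊓ (S ⊓ H) := ⟨hw, w.2, k2 hw⟩
    rw [k3, mem_bot] at this
    exact Subtype.ext this
  · rintro w (hw | ⟨hw, hw0⟩)
    · exact ⟨(w : V), hw, by rw [Submodule.subtype_apply, IK.add_self]; exact K.zero_mem⟩
    · obtain ⟨x, hx, hxw⟩ := k4 (w : V) ⟨w.2, hw⟩ (fun h => hw0 (Subtype.ext h))
      exact ⟨x, hx.1, hxw⟩

end Pool.Agent.Work.MP_9f8812_co.LG
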