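import Pool.Agent.Work.MP_9f8812_co.LG.Stmts

/-! # Items Sub, C3, C2, OK0, Ctr, S3 of block LG -/

set_option autoImplicit false

namespace Pool.Agent.Work.MP_9f8812_co.LG

open Submodule Module
open Pool.Agent.WW (HasK5 Gen Pres VC Good)

theorem pr_Sub : St_Sub := by
  classical
  intro V _ _ _ lam S F K
  unfold q
  rw [Finset.mul_sum]
  have hinj : Function.Injective (fun A : Finset ↥S =>
      A.map ⟨Subtype.val, Subtype.val_injective⟩) := Finset.map_injective _
  have hpow : (F.map ⟨Subtype.val, Subtype.val_injective⟩ : Finset V).powerset =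
      F.powerset.map ⟨_, hinj⟩ := by
    ext B
    simp only [Finset.mem_powerset, Finset.mem_map, Function.Embedding.coeFn_mk]
    constructor
    · intro hB
      refine ⟨F.filter (fun y => (y : V) ∈ B), Finset.filter_subset _ _, ?_⟩
      ext x
      simp only [Finset.mem_map, Finset.mem_filter, Function.Embedding.coeFn_mk]
      constructor
      · rintro ⟨y, ⟨_, hy⟩, rfl⟩
        exact hy
      · intro hx
        obtain ⟨y, hy, hyx⟩ := Finset.mem_map.1 (hB hx)
        exact ⟨y, ⟨hy, by rw [show (y : V) = x from hyx]; exact hx⟩, hyx⟩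
    · rintro ⟨A, hA, rfl⟩
      exact Finset.map_subset_map.2 hA
  rw [hpow, Finset.sum_map]
  refine Finset.sum_congr rfl fun A _ => ?_
  have h0 : ((A.map ⟨Subtype.val, Subtype.val_injective⟩ : Finset V) : Set V) =
      Subtype.val '' (A : Set ↥S) := by
    rw [Finset.coe_map]
    rfl
  change (-1 : ℝ) ^ (A.map ⟨Subtype.val, Subtype.val_injective⟩ : Finset V).card *
    lam ^ (finrank (ZMod 2) V - finrank (ZMod 2)
      ↥(span (ZMod 2) ((A.map ⟨Subtype.val, Subtype.val_injective⟩ : Finset V) : Set V) ⊔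
        K.map S.subtype)) = _
  rw [h0, Finset.card_map]
  have h1 : span (ZMod 2) (Subtype.val '' (A : Set ↥S)) ⊔ K.map S.subtype =
      (span (ZMod 2) (A : Set ↥S) ⊔ K).map S.subtype := by
    rw [Submodule.map_sup, Submodule.map_span]
    rfl
  rw [h1, Submodule.finrank_map_subtype_eq]
  have h2 : finrank (ZMod 2) ↥(span (ZMod 2) (A : Set ↥S) ⊔ K) ≤ finrank (ZMod 2) ↥S :=
    Submodule.finrank_le _
  have h3 : finrank (ZMod 2) ↥S ≤ finrank (ZMod 2) V := Submodule.finrank_le _
  have h4 : finrank (ZMod 2) V - finrank (ZMod 2) ↥(span (ZMod 2) (A : Set ↥S) ⊔ K) =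
      (finrank (ZMod 2) V - finrank (ZMod 2) ↥S) +
      (finrank (ZMod 2) ↥S - finrank (ZMod 2) ↥(span (ZMod 2) (A : Set ↥S) ⊔ K)) := by omega
  rw [h4, pow_add]
  ring

theorem pr_C3 : St_C3 := by
  intro p t V _ _ _ S E X hES h
  obtain ⟨⟨m, φ, hφ, hw⟩, ht, hp⟩ := h
  have hmap : (X.comap S.subtype).map S.subtype = S ⊓ X := Submodule.map_comap_subtype S X
  refine ⟨⟨m, φ.comp S.subtype, ?_, fun y hy => hw y hy⟩, ?_, ?_⟩
  · rw [LinearMap.ker_comp, hφ]
  · have h1 := Submodule.finrank_map_subtype_eq S (X.comap S.subtype)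
    rw [hmap] at h1
    rw [← h1]
    exact (Submodule.finrank_mono inf_le_right).trans ht
  · intro hpp
    have hG := hp hpp
    have h2 : span (ZMod 2) (E ∩ (X : Set V)) ≤
        (span (ZMod 2) ({y : ↥S | (y : V) ∈ E} ∩ ((X.comap S.subtype : Submodule (ZMod 2) ↥S) :
          Set ↥S))).map S.subtype := by
      rw [span_le]
      rintro x ⟨hx, hxX⟩
      exact ⟨⟨x, hES x hx⟩, subset_span ⟨hx, hxX⟩, rfl⟩
    intro y hy
    obtain ⟨z, hz, hzy⟩ := h2 (hG (show (y : V) ∈ X from hy))
    have : z = y := Subtype.ext hzy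
    rw [← this]
    exact hz

theorem pr_C2 (hG : St_GrC) : St_C2 := by
  intro p t V W _ _ _ _ _ π E X hπ hK h
  obtain ⟨⟨m, φ, hφ, hw⟩, ht, hp⟩ := h
  obtain ⟨φ', hφ', hw'⟩ := hG V E (LinearMap.ker π) m φ hw hK
  obtain ⟨σ, hσ⟩ := LinearMap.exists_rightInverse_of_surjective π (LinearMap.range_eq_top.2 hπ)
  have hσ' : ∀ w, π (σ w) = w := fun w => LinearMap.congr_fun hσ w
  have hfac : ∀ x, φ' (σ (π x)) = φ' x := by
    intro x
    have h1 : σ (π x) - x ∈ LinearMap.ker π := by
      rw [LinearMap.mem_ker, map_sub, hσ', sub_self]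
    have h2 : σ (π x) - x ∈ LinearMap.ker φ' := by
      rw [hφ']
      exact mem_sup_right h1
    rw [LinearMap.mem_ker, map_sub, sub_eq_zero] at h2
    exact h2
  refine ⟨⟨m, φ'.comp σ, ?_, ?_⟩, ?_, ?_⟩
  · ext w
    rw [LinearMap.mem_ker, LinearMap.comp_apply]
    constructor
    · intro hw0
      have h1 : σ w ∈ LinearMap.ker φ' := hw0
      rw [hφ', hφ, mem_sup] at h1
      obtain ⟨x, hx, k, hk, hxk⟩ := h1
      refine ⟨x, hx, ?_⟩
      have h2 := congrArg π hxk
      rw [map_add, LinearMap.mem_ker.1 hk, add_zero, hσ'] at h2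
      exact h2
    · rintro ⟨x, hx, rfl⟩
      rw [hfac]
      have : x ∈ LinearMap.ker φ' := by
        rw [hφ', hφ]
        exact mem_sup_left hx
      exact this
  · rintro w ⟨_, x, hx, rfl⟩
    rw [LinearMap.comp_apply, hfac]
    exact hw' x (hw x hx)
  · exact (Submodule.finrank_map_le π X).trans ht
  · intro hpp
    have hgen := hp hpp
    refine (map_mono hgen).trans ?_
    rw [map_span, span_le]
    rintro _ ⟨x, ⟨hx, hxX⟩, rfl⟩
    by_cases h0 : π x = 0
    · rw [h0]; exact zero_mem _
    · exact subset_span ⟨⟨h0, x, hx, rfl⟩, mem_map_of_mem hxX⟩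

theorem pr_OK0 : St_OK0 := by
  intro r
  refine ⟨?_, ?_, ?_, ?_⟩
  · intro V _ _ E E' X h _ _
    exact h
  · intro V W _ _ _ _ _ π E X hπ _ h
    obtain ⟨_, hr, hX⟩ := h
    have hfin : FiniteDimensional (ZMod 2) W := Module.Finite.of_surjective π hπ
    refine ⟨hfin, ?_, ?_⟩
    · exact (LinearMap.finrank_le_finrank_of_surjective hπ).trans hr
    · rw [hX, Submodule.map_bot]
  · intro V _ _ _ S E X _ h
    obtain ⟨_, hr, hX⟩ := h
    refine ⟨inferInstance, (Submodule.finrank_le S).trans hr, ?_⟩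
    rw [hX, Submodule.comap_bot, Submodule.ker_subtype]
  · intro V _ _ _ E X S H h _ _ _ _
    obtain ⟨_, hr, hX⟩ := h
    exact ⟨⊥, inferInstance, (Submodule.finrank_le S).trans hr, rfl⟩

theorem pr_Ctr (hLp : St_Lp) (hQuo : St_Quo) (hKQ : St_KQ) : St_Ctr := by
  classical
  intro lam C hC r IH V _ _ _ E F X K hc hK5 hG hr hFE hEF
  have hmain : (∀ x ∈ F, x ∉ K) → 0 < q lam F K := by
    intro hFK
    have hsurj : Function.Surjective K.mkQ := Submodule.mkQ_surjective K
    have hker : LinearMap.ker K.mkQ = K := Submodule.ker_mkQ K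
    rw [hQuo V (V ⧸ K) lam K.mkQ F K hsurj hker hFK]
    have hset : ((F.image K.mkQ : Finset (V ⧸ K)) : Set (V ⧸ K)) =
        {w | w ≠ 0 ∧ ∃ x ∈ (E : Set V), K.mkQ x = w} := by
      ext w
      simp only [Finset.coe_image, Set.mem_image, Finset.mem_coe]
      constructor
      · rintro ⟨x, hx, rfl⟩
        refine ⟨?_, x, hFE x hx, rfl⟩
        intro h
        exact hFK x hx ((Submodule.Quotient.mk_eq_zero K).1 h)
      · rintro ⟨hw, x, hx, rfl⟩
        refine ⟨x, hEF x hx ?_, rfl⟩
        intro h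
        exact hw ((Submodule.Quotient.mk_eq_zero K).2 h)
    refine IH (V ⧸ K) (F.image K.mkQ) (X.map K.mkQ) ?_ ?_ ?_ ?_
    · have h1 := Submodule.finrank_quotient_add_finrank K
      omega
    · rw [hset]
      exact hC.quo V (V ⧸ K) K.mkQ (E : Set V) X hsurj (by rw [hker]; exact hG) hc
    · intro h
      have h1 : (0 : V ⧸ K) ∈ ((F.image K.mkQ : Finset (V ⧸ K)) : Set (V ⧸ K)) := by
        exact_mod_cast h
      rw [hset] at h1
      exact h1.1 rfl
    · intro h
      rw [hset] at h
      exact hK5 (hKQ V (V ⧸ K) K.mkQ (E : Set V) hsurj (by rw [hker]; exact hG) h)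
  refine ⟨?_, hmain⟩
  by_cases h : ∀ x ∈ F, x ∉ K
  · exact (hmain h).le
  · push Not at h
    obtain ⟨x, hx, hxK⟩ := h
    rw [hLp V lam F x K hx hxK]

namespace IS3

variable {V : Type} [AddCommGroup V] [Module (ZMod 2) V]

lemma add_self (v : V) : v + v = 0 := by
  have h : (2 : ZMod 2) = 0 := rfl
  rw [← two_smul (ZMod 2) v, h, zero_smul]

theorem dual (S : Submodule (ZMod 2) V) (x : V) (hx : x ∉ S) :
    ∃ ψ : V →ₗ[ZMod 2] ZMod 2, (∀ v ∈ S, ψ v = 0) ∧ ψ x ≠ 0 := by
  have h1 : S.mkQ x ≠ 0 := by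
    rw [Submodule.mkQ_apply]
    intro h
    exact hx ((Submodule.Quotient.mk_eq_zero S).1 h)
  have h2 : ¬ ∀ φ : Module.Dual (ZMod 2) (V ⧸ S), φ (S.mkQ x) = 0 := fun h =>
    h1 ((Module.forall_dual_apply_eq_zero_iff (ZMod 2) (S.mkQ x)).1 h)
  push Not at h2
  obtain ⟨φ, hφ⟩ := h2
  refine ⟨φ.comp S.mkQ, ?_, ?_⟩
  · intro v hv
    rw [LinearMap.comp_apply, Submodule.mkQ_apply, (Submodule.Quotient.mk_eq_zero S).2 hv, map_zero]
  · rw [LinearMap.comp_apply]
    exact hφ

end IS3

theorem pr_S3 (hTri : St_Tri) (hCtr : St_Ctr) : St_S3 := by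
  classical
  intro lam C h5 hC V _ _ _ E X S H x p r IH hc h0 hK hcov hp hr hp0 hr0 hpr hxS hxH hEH
  obtain ⟨f, hfS, hfx⟩ := IS3.dual S x hxS
  set N := E.filter (fun y => y ∈ S) with hN
  have hfp : f p = 0 := hfS p hp.1
  have hfr : f r = 0 := hfS r hr.1
  have hmemH : ∀ y, y ∈ E ∧ y ∈ H ↔ y = x ∨ y = x + p ∨ y = x + r := by
    intro y
    have h1 : y ∈ (E : Set V) ∩ (H : Set V) ↔ y ∈ ({x, x + p, x + r} : Set V) := by rw [hEH]
    simpa using h1
  have hx := (hmemH x).2 (Or.inl rfl)
  have hxp := (hmemH (x + p)).2 (Or.inr (Or.inl rfl))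
  have hxr := (hmemH (x + r)).2 (Or.inr (Or.inr rfl))
  have hE : N ∪ {x, x + p, x + r} = E := by
    ext y
    simp only [Finset.mem_union, hN, Finset.mem_filter, Finset.mem_insert, Finset.mem_singleton]
    constructor
    · rintro (h | h)
      · exact h.1
      · exact ((hmemH y).2 h).1
    · intro hy
      rcases hcov y hy with h | h
      · exact Or.inl ⟨hy, h⟩
      · exact Or.inr ((hmemH y).1 ⟨hy, h⟩)
  have hNE : ∀ y ∈ N, y ∈ E := fun y hy => (Finset.mem_filter.1 hy).1
  have hfN : ∀ y ∈ N, f y = 0 := fun y hy => hfS y (Finset.mem_filter.1 hy).2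
  have hx0 : x ≠ 0 := fun h => h0 (h ▸ hx.1)
  have hmem : ∀ y ∈ E, y ∈ N ∨ y = x ∨ y = x + p ∨ y = x + r := by
    intro y hy
    rcases hcov y hy with h | h
    · exact Or.inl (Finset.mem_filter.2 ⟨hy, h⟩)
    · exact Or.inr ((hmemH y).1 ⟨hy, h⟩)
  have hpos : ∀ (K : Submodule (ZMod 2) V), x ∈ K ∨ x + p ∈ K → 0 < finrank (ZMod 2) K := by
    intro K h
    by_contra hcon
    push Not at hcon
    have h1 : K = ⊥ := by
      rw [← Submodule.finrank_eq_zero (R := ZMod 2)]
      omega
    rw [h1] at h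
    rcases h with h | h
    · exact hx0 ((mem_bot _).1 h)
    · apply h0
      rw [← (mem_bot (ZMod 2)).1 h]
      exact hxp.1
  have gen : ∀ (B : Set V), B ⊆ (E : Set V) → Gen (E : Set V) (span (ZMod 2) B) := by
    intro B hB
    exact span_mono fun y hy => ⟨hB hy, subset_span hy⟩
  have key : ∀ (B : Set V) (F : Finset V), B ⊆ (E : Set V) → (x ∈ B ∨ x + p ∈ B) →
      (∀ y ∈ F, y ∈ E) → (∀ y ∈ E, y ∉ span (ZMod 2) B → y ∈ F) →
      0 ≤ q lam F (span (ZMod 2) B) ∧
        ((∀ y ∈ F, y ∉ span (ZMod 2) B) → 0 < q lam F (span (ZMod 2) B)) := by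
    intro B F hB hxB hF hEF
    refine hCtr lam C hC _ IH V E F X _ hc hK (gen B hB) ?_ hF hEF
    have := hpos (span (ZMod 2) B) (hxB.imp (fun h => subset_span h) (fun h => subset_span h))
    omega
  have m1 : ∀ a b c : V, a ∈ ({a, b, c} : Set V) := fun a b c => Set.mem_insert _ _
  have m2 : ∀ a b c : V, b ∈ ({a, b, c} : Set V) := fun a b c =>
    Set.mem_insert_of_mem _ (Set.mem_insert _ _)
  have m3 : ∀ a b c : V, c ∈ ({a, b, c} : Set V) := fun a b c =>
    Set.mem_insert_of_mem _ (Set.mem_insert_of_mem _ (Set.mem_singleton _))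
  have d1 : ∀ a b : V, a ∈ ({a, b} : Set V) := fun a b => Set.mem_insert _ _
  have d2 : ∀ a b : V, b ∈ ({a, b} : Set V) := fun a b =>
    Set.mem_insert_of_mem _ (Set.mem_singleton _)
  have hsubE : ∀ (F : Finset V), (∀ y ∈ F, y = x ∨ y = x + p ∨ y = x + r) →
      ∀ y ∈ N ∪ F, y ∈ E := by
    intro F hF y hy
    rcases Finset.mem_union.1 hy with h | h
    · exact hNE y h
    · rcases hF y h with h' | h' | h'
      · rw [h']; exact hx.1
      · rw [h']; exact hxp.1
      · rw [h']; exact hxr.1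
  have t1 := key {x} (N ∪ {x + p, x + r})
    (by
      intro y hy
      rw [Set.mem_singleton_iff.1 hy]
      exact hx.1)
    (Or.inl (Set.mem_singleton _))
    (hsubE _ (by
      intro y hy
      rcases Finset.mem_insert.1 hy with h | h
      · exact Or.inr (Or.inl h)
      · exact Or.inr (Or.inr (Finset.mem_singleton.1 h))))
    (by
      intro y hy hyK
      rcases hmem y hy with h | h | h | h
      · exact Finset.mem_union_left _ h
      · rw [h] at hyK
        exact absurd (subset_span (Set.mem_singleton x)) hyK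
      · rw [h]
        exact Finset.mem_union_right _ (Finset.mem_insert_self _ _)
      · rw [h]
        exact Finset.mem_union_right _ (Finset.mem_insert_of_mem (Finset.mem_singleton_self _)))
  have t2 := key {x, x + p} (N ∪ {x + r})
    (by
      intro y hy
      rcases Set.mem_insert_iff.1 hy with h | h
      · rw [h]; exact hx.1
      · rw [Set.mem_singleton_iff.1 h]; exact hxp.1)
    (Or.inl (d1 _ _))
    (hsubE _ (by
      intro y hy
      exact Or.inr (Or.inr (Finset.mem_singleton.1 hy))))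
    (by
      intro y hy hyK
      rcases hmem y hy with h | h | h | h
      · exact Finset.mem_union_left _ h
      · rw [h] at hyK
        exact absurd (subset_span (d1 x (x + p))) hyK
      · rw [h] at hyK
        exact absurd (subset_span (d2 x (x + p))) hyK
      · rw [h]
        exact Finset.mem_union_right _ (Finset.mem_singleton_self _))
  have t3 := key {x, x + r} (N ∪ {x + p})
    (by
      intro y hy
      rcases Set.mem_insert_iff.1 hy with h | h
      · rw [h]; exact hx.1
      · rw [Set.mem_singleton_iff.1 h]; exact hxr.1)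
    (Or.inl (d1 _ _))
    (hsubE _ (by
      intro y hy
      exact Or.inr (Or.inl (Finset.mem_singleton.1 hy))))
    (by
      intro y hy hyK
      rcases hmem y hy with h | h | h | h
      · exact Finset.mem_union_left _ h
      · rw [h] at hyK
        exact absurd (subset_span (d1 x (x + r))) hyK
      · rw [h]
        exact Finset.mem_union_right _ (Finset.mem_singleton_self _)
      · rw [h] at hyK
        exact absurd (subset_span (d2 x (x + r))) hyK)
  have t4 := key {x + p, x + r} (N ∪ {x})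
    (by
      intro y hy
      rcases Set.mem_insert_iff.1 hy with h | h
      · rw [h]; exact hxp.1
      · rw [Set.mem_singleton_iff.1 h]; exact hxr.1)
    (Or.inr (d1 _ _))
    (hsubE _ (by
      intro y hy
      exact Or.inl (Finset.mem_singleton.1 hy)))
    (by
      intro y hy hyK
      rcases hmem y hy with h | h | h | h
      · exact Finset.mem_union_left _ h
      · rw [h]
        exact Finset.mem_union_right _ (Finset.mem_singleton_self _)
      · rw [h] at hyK
        exact absurd (subset_span (d1 (x + p) (x + r))) hyK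
      · rw [h] at hyK
        exact absurd (subset_span (d2 (x + p) (x + r))) hyK)
  have t5 := key {x, x + p, x + r} N
    (by
      intro y hy
      rcases Set.mem_insert_iff.1 hy with h | h
      · rw [h]; exact hx.1
      · rcases Set.mem_insert_iff.1 h with h | h
        · rw [h]; exact hxp.1
        · rw [Set.mem_singleton_iff.1 h]; exact hxr.1)
    (Or.inl (m1 _ _ _)) hNE
    (by
      intro y hy hyK
      rcases hmem y hy with h | h | h | h
      · exact h
      · rw [h] at hyK
        exact absurd (subset_span (m1 x (x + p) (x + r))) hyK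
      · rw [h] at hyK
        exact absurd (subset_span (m2 x (x + p) (x + r))) hyK
      · rw [h] at hyK
        exact absurd (subset_span (m3 x (x + p) (x + r))) hyK)
  have t1' : 0 < q lam (N ∪ {x + p, x + r}) (span (ZMod 2) {x}) := by
    apply t1.2
    intro y hy hyK
    obtain ⟨a, rfl⟩ := mem_span_singleton.1 hyK
    rcases (by decide : ∀ a : ZMod 2, a = 0 ∨ a = 1) a with rfl | rfl
    · rw [zero_smul] at hy
      refine h0 (hsubE _ ?_ _ hy)
      intro y hy
      rcases Finset.mem_insert.1 hy with h | h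
      · exact Or.inr (Or.inl h)
      · exact Or.inr (Or.inr (Finset.mem_singleton.1 h))
    · rw [one_smul] at hy
      simp only [Finset.mem_union, Finset.mem_insert, Finset.mem_singleton] at hy
      rcases hy with h | h | h
      · exact hfx (hfN x h)
      · exact hp0 (by simpa using h)
      · exact hr0 (by simpa using h)
  have hf := hTri V lam f N x p r (by linarith) hfN hfx hfp hfr
  rw [hE] at hf
  rw [hf]
  have a1 : 0 < lam - 3 := by linarith
  have a2 : 0 < lam - 2 := by linarith
  have a3 : 0 < lam - 1 := by linarith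
  have b1 := mul_pos a1 t1'
  have b2 := mul_nonneg a2.le (add_nonneg t2.1 t3.1)
  have b3 := mul_nonneg a3.le t5.1
  have b4 := t4.1
  linarith

end Pool.Agent.Work.MP_9f8812_co.LG
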