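import Pool.Agent.Work.MP_9f8812_co.LG.Stmts
import Pool.Agent.Work.MP_a8f287_co.Crit

/-! # Items Cnt, Quo, Fam, GC, Tri of block LG -/

set_option autoImplicit false

namespace Pool.Agent.Work.MP_9f8812_co.LG

open Submodule Module
open Pool.Agent.WW (HasK5 Gen Pres VC Good)

theorem pr_Cnt : St_Cnt := by
  classical
  intro V _ _ _ k E K
  have hfin : Finite (V →ₗ[ZMod 2] (Fin k → ZMod 2)) := Module.finite_of_finite (ZMod 2)
  have : Fintype (V →ₗ[ZMod 2] (Fin k → ZMod 2)) := Fintype.ofFinite _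
  have hX : ∀ X : Finset V, ((2 : ℝ) ^ k) ^ (finrank (ZMod 2) V -
      finrank (ZMod 2) ↥(span (ZMod 2) (X : Set V) ⊔ K)) =
      ∑ f : V →ₗ[ZMod 2] (Fin k → ZMod 2), (if K ≤ LinearMap.ker f then (1 : ℝ) else 0) *
        ∏ x ∈ X, (if f x = 0 then (1 : ℝ) else 0) := by
    intro X
    have h := Pool.Agent.WW.card_vanish (span (ZMod 2) (X : Set V) ⊔ K) k
    rw [Nat.card_eq_fintype_card, Fintype.card_subtype] at h
    have h' : ((2 : ℝ) ^ k) ^ (finrank (ZMod 2) V -
        finrank (ZMod 2) ↥(span (ZMod 2) (X : Set V) ⊔ K)) =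
        (((Finset.univ.filter fun f : V →ₗ[ZMod 2] (Fin k → ZMod 2) =>
          span (ZMod 2) (X : Set V) ⊔ K ≤ LinearMap.ker f).card : ℕ) : ℝ) := by
      rw [h]; push_cast; rfl
    rw [h', Finset.card_filter, Nat.cast_sum]
    refine Finset.sum_congr rfl fun f _ => ?_
    rw [Finset.prod_ite_zero]
    simp only [Finset.prod_const_one]
    have hiff : (span (ZMod 2) (X : Set V) ⊔ K ≤ LinearMap.ker f) ↔
        K ≤ LinearMap.ker f ∧ ∀ i ∈ X, f i = 0 := by
      rw [sup_le_iff, Submodule.span_le]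
      constructor
      · rintro ⟨h1, h2⟩
        exact ⟨h2, fun i hi => h1 hi⟩
      · rintro ⟨h2, h1⟩
        exact ⟨fun i hi => h1 i hi, h2⟩
    by_cases hK : K ≤ LinearMap.ker f
    · by_cases hc : ∀ i ∈ X, f i = 0
      · rw [if_pos hc, if_pos (hiff.2 ⟨hK, hc⟩), if_pos hK, mul_one, Nat.cast_one]
      · rw [if_neg hc, if_neg (fun h => hc (hiff.1 h).2), mul_zero, Nat.cast_zero]
    · rw [if_neg hK, if_neg (fun h => hK (hiff.1 h).1), zero_mul, Nat.cast_zero]
  have hsum : q ((2 : ℝ) ^ k) E K =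
      ∑ f : V →ₗ[ZMod 2] (Fin k → ZMod 2), (if K ≤ LinearMap.ker f then (1 : ℝ) else 0) *
        ∏ x ∈ E, (1 + -(if f x = 0 then (1 : ℝ) else 0)) := by
    unfold q
    simp only [hX, Finset.mul_sum]
    rw [Finset.sum_comm]
    refine Finset.sum_congr rfl fun f _ => ?_
    rw [Finset.prod_one_add, Finset.mul_sum]
    refine Finset.sum_congr rfl fun X _ => ?_
    rw [Finset.prod_neg]
    ring
  rw [hsum, cnt, Nat.card_eq_fintype_card, Fintype.card_subtype, Finset.card_filter, Nat.cast_sum]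
  refine Finset.sum_congr rfl fun f _ => ?_
  by_cases hK : K ≤ LinearMap.ker f
  · have hK' : ∀ x ∈ K, f x = 0 := fun x hx => hK hx
    rw [if_pos hK, one_mul]
    by_cases hc : ∀ x ∈ E, f x ≠ 0
    · rw [if_pos ⟨hK', hc⟩, Nat.cast_one]
      refine Finset.prod_eq_one fun x hx => ?_
      rw [if_neg (hc x hx), neg_zero, add_zero]
    · rw [if_neg (fun h => hc h.2), Nat.cast_zero]
      push Not at hc
      obtain ⟨x, hx, hx0⟩ := hc
      refine Finset.prod_eq_zero hx ?_
      rw [if_pos hx0]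
      norm_num
  · rw [if_neg hK, zero_mul, if_neg (fun h => hK (fun x hx => h.1 x hx)), Nat.cast_zero]

/-- comparison of values at powers of two -/
theorem q_eq_of_cnt (hE : St_Ev) (hP : St_Pid) (hC : St_Cnt) (V W : Type) [AddCommGroup V]
    [Module (ZMod 2) V] [FiniteDimensional (ZMod 2) V] [AddCommGroup W] [Module (ZMod 2) W]
    [FiniteDimensional (ZMod 2) W] (lam : ℝ) (E : Finset V) (K : Submodule (ZMod 2) V)
    (F : Finset W) (L : Submodule (ZMod 2) W) (h : ∀ k, cnt k E K = cnt k F L) :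
    q lam E K = q lam F L := by
  rw [← hE V lam E K, ← hE W lam F L]
  congr 1
  refine hP _ _ 0 fun k _ => ?_
  rw [hE V, hE W, hC V, hC W, h k]

theorem pr_Quo (hE : St_Ev) (hP : St_Pid) (hC : St_Cnt) : St_Quo := by
  intro V W _ _ _ _ _ _ _ lam π E K hπ hK hEK
  refine q_eq_of_cnt hE hP hC V W lam E K (E.image π) ⊥ fun k => ?_
  obtain ⟨σ, hσ⟩ := LinearMap.exists_rightInverse_of_surjective π (LinearMap.range_eq_top.2 hπ)
  have hσ' : ∀ w, π (σ w) = w := fun w => LinearMap.congr_fun hσ w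
  have hfac : ∀ (f : V →ₗ[ZMod 2] (Fin k → ZMod 2)), (∀ x ∈ K, f x = 0) →
      ∀ x, f (σ (π x)) = f x := by
    intro f hf x
    have h1 : σ (π x) - x ∈ K := by
      rw [← hK, LinearMap.mem_ker, map_sub, hσ', sub_self]
    have h2 := hf _ h1
    rw [map_sub, sub_eq_zero] at h2
    exact h2
  unfold cnt
  refine Nat.card_congr
    { toFun := fun f => ⟨f.1.comp σ, ?_, ?_⟩
      invFun := fun g => ⟨g.1.comp π, ?_, ?_⟩
      left_inv := ?_
      right_inv := ?_ }
  · intro x hx
    rw [(mem_bot (ZMod 2)).1 hx, map_zero]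
  · intro w hw
    obtain ⟨x, hx, rfl⟩ := Finset.mem_image.1 hw
    rw [LinearMap.comp_apply, hfac f.1 f.2.1]
    exact f.2.2 x hx
  · intro x hx
    rw [← hK, LinearMap.mem_ker] at hx
    rw [LinearMap.comp_apply, hx, map_zero]
  · intro x hx
    rw [LinearMap.comp_apply]
    exact g.2.2 _ (Finset.mem_image_of_mem _ hx)
  · intro f
    apply Subtype.ext
    ext x : 1
    exact hfac f.1 f.2.1 x
  · intro g
    apply Subtype.ext
    ext x : 1
    change g.1 (π (σ x)) = g.1 x
    rw [hσ']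

theorem pr_Fam (hE : St_Ev) (hP : St_Pid) (hC : St_Cnt) : St_Fam := by
  classical
  intro V ι _ _ _ _ _ _ lam v
  have h1 : (∑ A : Finset ι, (-1 : Polynomial ℝ) ^ A.card * Polynomial.X ^ (finrank (ZMod 2) V -
      finrank (ZMod 2) ↥(span (ZMod 2) (v '' (A : Set ι))))) = Qp (Finset.univ.image v) ⊥ := by
    refine hP _ _ 0 fun k _ => ?_
    rw [hE V, hC V, Polynomial.eval_finsetSum]
    have h2 := Pool.Agent.WW.crapo_rota v k
    have h3 : Nat.card {f : V →ₗ[ZMod 2] (Fin k → ZMod 2) // ∀ i, f (v i) ≠ 0} =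
        cnt k (Finset.univ.image v) ⊥ := by
      unfold cnt
      refine Nat.card_congr (Equiv.subtypeEquivRight fun f => ?_)
      constructor
      · intro h
        refine ⟨fun x hx => by rw [(mem_bot (ZMod 2)).1 hx, map_zero], fun x hx => ?_⟩
        obtain ⟨i, _, rfl⟩ := Finset.mem_image.1 hx
        exact h i
      · intro h i
        exact h.2 _ (Finset.mem_image_of_mem _ (Finset.mem_univ i))
    rw [← h3]
    have h4 := congrArg (Int.cast : ℤ → ℝ) h2
    push_cast at h4
    rw [← h4]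
    refine Finset.sum_congr rfl fun A _ => ?_
    simp
  rw [← hE V, ← h1, Polynomial.eval_finsetSum]
  refine Finset.sum_congr rfl fun A _ => ?_
  simp

theorem pr_GC : St_GC := by
  classical
  intro V _ _ _ E X hX
  have h1 : {x ∈ (E : Set V) | x ∈ X} = ((E.filter (fun x => x ∈ X) : Finset V) : Set V) := by
    ext x
    simp
  rw [h1, Set.ncard_coe_finset]
  have h2 : X ≤ span (ZMod 2) ((E.filter (fun x => x ∈ X) : Finset V) : Set V) := by
    rw [← h1]
    exact hX
  exact (Submodule.finrank_mono h2).trans (finrank_span_finset_le_card _)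

theorem pr_Tri (hDC : St_DC) (hCol : St_Col) : St_Tri := by
  intro V _ _ _ _ lam f N x p r hlam hN hx hp hr
  have hD : ∀ (E : Finset V) (d : V) (K : Submodule (ZMod 2) V),
      q lam (insert d E) K = q lam E K - q lam E (K ⊔ span (ZMod 2) {d}) :=
    fun E d K => hDC V lam E d K
  have hb : f (x + p) ≠ 0 := by rw [map_add, hp, add_zero]; exact hx
  have hc : f (x + r) ≠ 0 := by rw [map_add, hr, add_zero]; exact hx
  have hC : ∀ d, f d ≠ 0 → lam * q lam N (span (ZMod 2) {d}) = q lam N ⊥ := by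
    intro d hd
    have h := hCol V lam f N d ⊥ (fun y hy => by rw [(mem_bot (ZMod 2)).1 hy, map_zero]) hN hd
    rw [bot_sup_eq] at h
    exact h
  set a := x with ha
  set b := x + p with hbd
  set c := x + r with hcd
  have e1 : N ∪ {a, b, c} = insert a (insert b (insert c N)) := by
    ext y
    simp only [Finset.mem_union, Finset.mem_insert, Finset.mem_singleton]
    tauto
  have e2 : N ∪ {b, c} = insert b (insert c N) := by
    ext y
    simp only [Finset.mem_union, Finset.mem_insert, Finset.mem_singleton]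
    tauto
  have e3 : ∀ z, N ∪ {z} = insert z N := by
    intro z
    ext y
    simp only [Finset.mem_union, Finset.mem_insert, Finset.mem_singleton]
    tauto
  have s2 : ∀ y z : V, span (ZMod 2) ({y, z} : Set V) = span (ZMod 2) {y} ⊔ span (ZMod 2) {z} :=
    fun y z => Submodule.span_insert y {z}
  have s3 : span (ZMod 2) ({a, b, c} : Set V) =
      span (ZMod 2) {a} ⊔ span (ZMod 2) {b} ⊔ span (ZMod 2) {c} := by
    rw [Submodule.span_insert, s2, sup_assoc]
  have s4 : span (ZMod 2) {a} ⊔ span (ZMod 2) {c} ⊔ span (ZMod 2) {b} =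
      span (ZMod 2) {a} ⊔ span (ZMod 2) {b} ⊔ span (ZMod 2) {c} := sup_right_comm _ _ _
  have s5 : span (ZMod 2) {b} ⊔ span (ZMod 2) {c} ⊔ span (ZMod 2) {a} =
      span (ZMod 2) {a} ⊔ span (ZMod 2) {b} ⊔ span (ZMod 2) {c} := by
    rw [sup_comm, sup_assoc]
  rw [e1, e2, e3 c, e3 b, e3 a, s3, s2 a b, s2 a c, s2 b c]
  simp only [hD, bot_sup_eq, s4, s5]
  have h1 := hC a hx
  have h2 := hC b hb
  have h3 := hC c hc
  have h4 : q lam N (span (ZMod 2) {b}) = q lam N (span (ZMod 2) {a}) :=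
    mul_left_cancel₀ hlam (h2.trans h1.symm)
  have h5 : q lam N (span (ZMod 2) {c}) = q lam N (span (ZMod 2) {a}) :=
    mul_left_cancel₀ hlam (h3.trans h1.symm)
  rw [h4, h5, ← h1]
  ring

end Pool.Agent.Work.MP_9f8812_co.LG
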