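import Pool.Agent.Work.MP_9f8812_co.LG.Stmts

/-! # Items VC, S012, Mrg of block LG -/

set_option autoImplicit false

namespace Pool.Agent.Work.MP_9f8812_co.LG

open Submodule Module
open Pool.Agent.WW (HasK5 Gen Pres VC Good)

namespace IE5

variable {V : Type} [AddCommGroup V] [Module (ZMod 2) V]

lemma pres_mono {E F : Set V} (h : E ⊆ F) {K : Submodule (ZMod 2) V} {v : V} :
    Pres E K v → Pres F K v := by
  rintro ⟨x, hx, hxv⟩
  exact ⟨x, h hx, hxv⟩

lemma hasK5_mono {E F : Set V} (h : E ⊆ F) : HasK5 E → HasK5 F := by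
  rintro ⟨K, hK, s, h1, h2, h3⟩
  exact ⟨K, hK.trans (span_mono fun y hy => ⟨h hy.1, hy.2⟩), s, h1, fun i => pres_mono h (h2 i),
    fun i j hij => pres_mono h (h3 i j hij)⟩

end IE5

theorem pr_VC (hCO : St_CO) (hKS : St_KS) (hSub : St_Sub) (hCtr : St_Ctr) (hK5P : St_K5P) :
    St_VC := by
  classical
  intro lam C h5 hC V _ _ _ E X f IH hc h0 hK5 hspan hf hXf hDle
  set N := E.filter (fun x => f x = 0) with hN
  set D := E.filter (fun x => f x ≠ 0) with hD
  have hmemN : ∀ x, x ∈ N ↔ x ∈ E ∧ f x = 0 := fun x => Finset.mem_filter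
  have hmemD : ∀ x, x ∈ D ↔ x ∈ E ∧ f x ≠ 0 := fun x => Finset.mem_filter
  have hND : N ∪ D = E := by
    ext x
    rw [Finset.mem_union, hmemN, hmemD]
    tauto
  have hcardD : ({x ∈ (E : Set V) | f x ≠ 0}).ncard = D.card := by
    rw [← Set.ncard_coe_finset]
    congr 1
    ext x
    rw [Finset.mem_coe, hmemD]
    rfl
  rw [hcardD] at hDle
  have hDne : D.Nonempty := by
    rw [Finset.nonempty_iff_ne_empty]
    intro hDe
    apply hf
    have h1 : span (ZMod 2) (E : Set V) ≤ LinearMap.ker f := by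
      rw [span_le]
      intro x hx
      rw [SetLike.mem_coe, LinearMap.mem_ker]
      by_contra h
      have : x ∈ D := (hmemD x).2 ⟨hx, h⟩
      rw [hDe] at this
      exact Finset.notMem_empty _ this
    rw [hspan, top_le_iff, LinearMap.ker_eq_top] at h1
    exact h1
  have hNE : (N : Set V) ⊆ E := fun x hx => ((hmemN x).1 hx).1
  have hXN : ∀ x ∈ (E : Set V), x ∈ X → x ∈ N := fun x hx hxX => (hmemN x).2 ⟨hx, hXf hxX⟩
  -- positivity of the restriction
  have hposN : 0 < q lam N ⊥ := by
    have hSne : LinearMap.ker f ≠ ⊤ := fun h => hf (LinearMap.ker_eq_top.1 h)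
    have hlt := Submodule.finrank_lt hSne
    set N' : Finset ↥(LinearMap.ker f) := N.subtype (fun x => x ∈ LinearMap.ker f) with hN'
    have hmapN : N'.map ⟨Subtype.val, Subtype.val_injective⟩ = N :=
      Finset.subtype_map_of_mem (fun x hx => ((hmemN x).1 hx).2)
    have hcoe : (N' : Set ↥(LinearMap.ker f)) =
        {y : ↥(LinearMap.ker f) | (y : V) ∈ (N : Set V)} := by
      ext y
      rw [Finset.mem_coe, hN', Finset.mem_subtype]
      rfl
    have hq := hSub V lam (LinearMap.ker f) N' ⊥
    rw [hmapN, Submodule.map_bot] at hq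
    rw [hq]
    refine mul_pos (pow_pos (by linarith) _) ?_
    refine IH ↥(LinearMap.ker f) N' (X.comap (LinearMap.ker f).subtype) hlt ?_ ?_ ?_
    · rw [hcoe]
      exact hC.sub V (LinearMap.ker f) (N : Set V) X (fun x hx => ((hmemN x).1 hx).2)
        (hC.del V (E : Set V) (N : Set V) X hc hNE hXN)
    · rw [hN', Finset.mem_subtype]
      exact fun h => h0 (hNE h)
    · rw [hcoe]
      exact fun h => hK5 (IE5.hasK5_mono hNE (hKS V (LinearMap.ker f) (N : Set V) h))
  -- contractions
  have key : ∀ d ∈ D, ∀ x ∈ D, ∀ T ⊆ D, 0 ≤ q lam (N ∪ T) (span (ZMod 2) {d, x}) ∧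
      ((∀ y ∈ N ∪ T, y ∉ span (ZMod 2) {d, x}) → 0 < q lam (N ∪ T) (span (ZMod 2) {d, x})) := by
    intro d hd x hx T hT
    have hE' : ((N ∪ T ∪ {d, x} : Finset V) : Set V) ⊆ (E : Set V) := by
      intro y hy
      rw [Finset.mem_coe, Finset.mem_union, Finset.mem_union, Finset.mem_insert,
        Finset.mem_singleton] at hy
      rcases hy with (h | h) | (h | h)
      · exact hNE h
      · exact ((hmemD y).1 (hT h)).1
      · rw [h]; exact ((hmemD d).1 hd).1
      · rw [h]; exact ((hmemD x).1 hx).1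
    have hd1 : d ∈ ({d, x} : Set V) := Set.mem_insert _ _
    have hx1 : x ∈ ({d, x} : Set V) := Set.mem_insert_of_mem _ (Set.mem_singleton _)
    refine hCtr lam C hC (finrank (ZMod 2) V) IH V (N ∪ T ∪ {d, x}) (N ∪ T) X
      (span (ZMod 2) {d, x}) ?_ ?_ ?_ ?_ ?_ ?_
    · refine hC.del V (E : Set V) _ X hc hE' ?_
      intro y hy hyX
      rw [Finset.mem_coe, Finset.mem_union, Finset.mem_union]
      exact Or.inl (Or.inl (hXN y hy hyX))
    · exact fun h => hK5 (IE5.hasK5_mono hE' h)
    · refine span_mono fun y hy => ⟨?_, subset_span hy⟩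
      rw [Finset.mem_coe, Finset.mem_union, Finset.mem_insert, Finset.mem_singleton]
      exact Or.inr hy
    · have h1 : span (ZMod 2) ({d, x} : Set V) ≠ ⊥ := by
        intro h
        have h2 : d ∈ span (ZMod 2) ({d, x} : Set V) := subset_span hd1
        rw [h, mem_bot] at h2
        exact ((hmemD d).1 hd).2 (by rw [h2, map_zero])
      have h2 : finrank (ZMod 2) ↥(span (ZMod 2) ({d, x} : Set V)) ≠ 0 :=
        fun h => h1 (Submodule.finrank_eq_zero.1 h)
      omega
    · intro y hy
      exact Finset.mem_union_left _ hy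
    · intro y hy hyK
      rcases Finset.mem_union.1 hy with h | h
      · exact h
      · exfalso
        apply hyK
        apply subset_span
        rw [Finset.mem_insert, Finset.mem_singleton] at h
        exact h
  have hmain := hCO V lam f N D (by linarith) (fun x hx => ((hmemN x).1 hx).2)
    (fun x hx => ((hmemD x).1 hx).2) hDne hposN
    (fun d hd x hx _ T hT _ _ => (key d hd x hx T hT).1)
  rw [hND] at hmain
  apply hmain
  by_cases hlt : (D.card : ℝ) < lam
  · exact Or.inl hlt
  · right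
    refine ⟨hDle, ?_⟩
    push Not at hlt
    have h5D : 5 ≤ D.card := by
      have : (5 : ℝ) ≤ (D.card : ℝ) := by linarith
      exact_mod_cast this
    have hex : ∃ x ∈ D, ∃ y ∈ D, x ≠ y ∧ x + y ∉ (E : Set V) := by
      by_contra hcon
      push Not at hcon
      exact hK5 (hK5P V (E : Set V) f D (fun x hx => (hmemD x).1 hx) h5D hcon)
    obtain ⟨d, hd, x, hx, hdx, hE⟩ := hex
    refine ⟨d, hd, x, hx, hdx, ?_⟩
    have h := (key d hd x hx ∅ (Finset.empty_subset _)).2
    rw [Finset.union_empty] at h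
    apply h
    intro y hy hyK
    obtain ⟨a, b, rfl⟩ := mem_span_pair.1 hyK
    have hy' := (hmemN _).1 hy
    rcases (by decide : ∀ a : ZMod 2, a = 0 ∨ a = 1) a with rfl | rfl <;>
      rcases (by decide : ∀ a : ZMod 2, a = 0 ∨ a = 1) b with rfl | rfl
    · rw [zero_smul, zero_smul, add_zero] at hy'
      exact h0 hy'.1
    · rw [zero_smul, one_smul, zero_add] at hy'
      exact ((hmemD x).1 hx).2 hy'.2
    · rw [zero_smul, one_smul, add_zero] at hy'
      exact ((hmemD d).1 hd).2 hy'.2
    · rw [one_smul, one_smul] at hy'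
      exact hE hy'.1

theorem pr_S012 (hG0 : St_G0) (hG1 : St_G1) (hG2 : St_G2) (hSide : St_Side) : St_S012 := by
  classical
  intro lam C h5 hC V _ _ _ E X S H IH hc h0 hK5 hspan hS hH hcov hSs hHs hU hf1 hf2
  set A := E.filter (fun x => x ∈ S) with hA
  set B := E.filter (fun x => x ∈ H) with hB
  have hmA : ∀ x, x ∈ A ↔ x ∈ E ∧ x ∈ S := fun x => Finset.mem_filter
  have hmB : ∀ x, x ∈ B ↔ x ∈ E ∧ x ∈ H := fun x => Finset.mem_filter
  have hAB : A ∪ B = E := by
    ext x
    rw [Finset.mem_union, hmA, hmB]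
    have := hcov x
    tauto
  have hSH : S ⊔ H = ⊤ := by
    rw [← top_le_iff, ← hspan, span_le]
    intro x hx
    rcases hcov x hx with h | h
    · exact mem_sup_left h
    · exact mem_sup_right h
  have nA : ∀ (F : Finset V) (K : Submodule (ZMod 2) V), K ≤ S ⊓ H →
      (∀ x ∈ F, x ∈ A ∨ (x ∈ S ⊓ H ∧ x ≠ 0)) → (∀ x ∈ A, x ∈ F) →
      (∀ x ∈ S ⊓ H, x ≠ 0 → x ∉ K → x ∈ F) →
      0 ≤ q lam F K ∧ ((∀ x ∈ F, x ∉ K) → 0 < q lam F K) := by
    intro F K hK hF1 hF2 hF3
    refine hSide lam C h5 hC V E F X S H K IH hc h0 hK5 hS hcov hHs hU hf1 hK ?_ ?_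
    · intro x hx
      rcases hF1 x hx with h | h
      · exact ⟨((hmA x).1 h).2, Or.inl ((hmA x).1 h).1⟩
      · exact ⟨h.1.1, Or.inr ⟨h.1.2, h.2⟩⟩
    · intro x hxS hx hxK
      rcases hx with h | h
      · exact hF2 x ((hmA x).2 ⟨h, hxS⟩)
      · exact hF3 x ⟨hxS, h.1⟩ h.2 hxK
  have nB : ∀ (F : Finset V) (K : Submodule (ZMod 2) V), K ≤ S ⊓ H →
      (∀ x ∈ F, x ∈ B ∨ (x ∈ S ⊓ H ∧ x ≠ 0)) → (∀ x ∈ B, x ∈ F) →
      (∀ x ∈ S ⊓ H, x ≠ 0 → x ∉ K → x ∈ F) →
      0 ≤ q lam F K ∧ ((∀ x ∈ F, x ∉ K) → 0 < q lam F K) := by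
    intro F K hK hF1 hF2 hF3
    refine hSide lam C h5 hC V E F X H S K IH hc h0 hK5 hH (fun x hx => (hcov x hx).symm) hSs
      (by rw [inf_comm]; exact hU) hf2 (by rw [inf_comm]; exact hK) ?_ ?_
    · intro x hx
      rcases hF1 x hx with h | h
      · exact ⟨((hmB x).1 h).2, Or.inl ((hmB x).1 h).1⟩
      · exact ⟨h.1.2, Or.inr ⟨h.1.1, h.2⟩⟩
    · intro x hxS hx hxK
      rcases hx with h | h
      · exact hF2 x ((hmB x).2 ⟨h, hxS⟩)
      · exact hF3 x ⟨h.1, hxS⟩ h.2 hxK
  have hA0 : ∀ x ∈ A, x ≠ 0 := fun x hx h => h0 (h ▸ ((hmA x).1 hx).1)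
  have hB0 : ∀ x ∈ B, x ≠ 0 := fun x hx h => h0 (h ▸ ((hmB x).1 hx).1)
  have l0 : 0 < lam := by linarith
  have l1 : 0 < lam - 1 := by linarith
  have l2 : 0 < lam - 2 := by linarith
  have hZ : ∀ a : ZMod 2, a = 0 ∨ a = 1 := by decide
  rw [← hAB]
  rcases (by omega : finrank (ZMod 2) ↥(S ⊓ H) = 0 ∨ finrank (ZMod 2) ↥(S ⊓ H) = 1 ∨
    finrank (ZMod 2) ↥(S ⊓ H) = 2) with hd | hd | hd
  · -- direct sum
    have hbot : S ⊓ H = ⊥ := Submodule.finrank_eq_zero.1 hd
    have h1 := hG0 V lam S H A B hSH hbot (fun x hx => ((hmA x).1 hx).2)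
      (fun x hx => ((hmB x).1 hx).2)
    have hn : ∀ x ∈ S ⊓ H, x = 0 := fun x hx => by
      rw [hbot, mem_bot] at hx
      exact hx
    have h2 := (nA A ⊥ bot_le (fun x hx => Or.inl hx) (fun x hx => hx)
      (fun x hx h => absurd (hn x hx) h)).2 (fun x hx h => hA0 x hx ((mem_bot _).1 h))
    have h3 := (nB B ⊥ bot_le (fun x hx => Or.inl hx) (fun x hx => hx)
      (fun x hx h => absurd (hn x hx) h)).2 (fun x hx h => hB0 x hx ((mem_bot _).1 h))
    have h4 := mul_pos h2 h3
    rw [← h1] at h4
    exact (mul_pos_iff_of_pos_left (pow_pos l0 _)).1 h4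
  · -- a line
    obtain ⟨u, hu0, hu⟩ := finrank_eq_one_iff'.1 hd
    have hu0' : (u : V) ≠ 0 := fun h => hu0 (Subtype.ext h)
    have hUe : S ⊓ H = span (ZMod 2) {(u : V)} := by
      apply le_antisymm
      · intro x hx
        obtain ⟨c, hcx⟩ := hu ⟨x, hx⟩
        rw [mem_span_singleton]
        exact ⟨c, congrArg Subtype.val hcx⟩
      · rw [span_le]
        intro x hx
        rw [Set.mem_singleton_iff.1 hx]
        exact u.2
    have hUm : ∀ x ∈ S ⊓ H, x ≠ 0 → x = (u : V) := by
      intro x hx hx0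
      rw [hUe, mem_span_singleton] at hx
      obtain ⟨c, rfl⟩ := hx
      rcases hZ c with rfl | rfl
      · exact absurd (zero_smul _ _) hx0
      · exact one_smul _ _
    have h1 := hG1 V lam S H A B (u : V) hSH hu0' hUe (fun x hx => ((hmA x).1 hx).2)
      (fun x hx => ((hmB x).1 hx).2)
    have a1 := (nA (insert (u : V) A) ⊥ bot_le
      (fun x hx => by
        rcases Finset.mem_insert.1 hx with h | h
        · exact Or.inr ⟨h ▸ u.2, h ▸ hu0'⟩
        · exact Or.inl h)
      (fun x hx => Finset.mem_insert_of_mem hx)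
      (fun x hx h _ => by rw [hUm x hx h]; exact Finset.mem_insert_self _ _)).2
      (fun x hx h => by
        rw [mem_bot] at h
        rcases Finset.mem_insert.1 hx with h' | h'
        · exact hu0' (h'.symm.trans h)
        · exact hA0 x h' h)
    have b1 := (nB (insert (u : V) B) ⊥ bot_le
      (fun x hx => by
        rcases Finset.mem_insert.1 hx with h | h
        · exact Or.inr ⟨h ▸ u.2, h ▸ hu0'⟩
        · exact Or.inl h)
      (fun x hx => Finset.mem_insert_of_mem hx)
      (fun x hx h _ => by rw [hUm x hx h]; exact Finset.mem_insert_self _ _)).2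
      (fun x hx h => by
        rw [mem_bot] at h
        rcases Finset.mem_insert.1 hx with h' | h'
        · exact hu0' (h'.symm.trans h)
        · exact hB0 x h' h)
    have a2 := (nA A (span (ZMod 2) {(u : V)}) hUe.ge (fun x hx => Or.inl hx) (fun x hx => hx)
      (fun x hx _ hxK => absurd (hUe ▸ hx) hxK)).1
    have b2 := (nB B (span (ZMod 2) {(u : V)}) hUe.ge (fun x hx => Or.inl hx) (fun x hx => hx)
      (fun x hx _ hxK => absurd (hUe ▸ hx) hxK)).1
    have h4 := add_pos_of_pos_of_nonneg (mul_pos a1 b1) (mul_nonneg l1.le (mul_nonneg a2 b2))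
    rw [← h1] at h4
    exact (mul_pos_iff_of_pos_left (mul_pos l1 (pow_pos l0 _))).1 h4
  · -- a plane
    have bas := finBasisOfFinrankEq (ZMod 2) ↥(S ⊓ H) hd
    set u : V := (bas 0 : V) with hudef
    set w : V := (bas 1 : V) with hwdef
    have huU : u ∈ S ⊓ H := (bas 0).2
    have hwU : w ∈ S ⊓ H := (bas 1).2
    have hu0 : u ≠ 0 := fun h => bas.ne_zero 0 (Subtype.ext h)
    have hw0 : w ≠ 0 := fun h => bas.ne_zero 1 (Subtype.ext h)
    have huw : u ≠ w := by
      intro h
      have h1 : bas 0 = bas 1 := Subtype.ext h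
      have h2 := bas.injective h1
      exact absurd h2 (by decide)
    have huw0 : u + w ≠ 0 := by
      intro h
      apply huw
      have h2 : (2 : ZMod 2) = 0 := rfl
      have h3 : w + w = 0 := by rw [← two_smul (ZMod 2) w, h2, zero_smul]
      calc u = u + (w + w) := by rw [h3, add_zero]
        _ = (u + w) + w := by rw [add_assoc]
        _ = w := by rw [h, zero_add]
    have huwU : u + w ∈ S ⊓ H := add_mem huU hwU
    have hUe : S ⊓ H = span (ZMod 2) {u, w} := by
      apply le_antisymm
      · intro x hx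
        have h1 := bas.sum_repr ⟨x, hx⟩
        rw [Fin.sum_univ_two] at h1
        rw [mem_span_pair]
        exact ⟨_, _, congrArg Subtype.val h1⟩
      · rw [span_le]
        intro x hx
        rcases Set.mem_insert_iff.1 hx with h | h
        · rw [h]; exact huU
        · rw [Set.mem_singleton_iff.1 h]; exact hwU
    have hUm : ∀ x ∈ S ⊓ H, x ≠ 0 → x = u ∨ x = w ∨ x = u + w := by
      intro x hx hx0
      rw [hUe, mem_span_pair] at hx
      obtain ⟨a, b, rfl⟩ := hx
      rcases hZ a with rfl | rfl <;> rcases hZ b with rfl | rfl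
      · exact absurd (by rw [zero_smul, zero_smul, add_zero]) hx0
      · right; left; rw [zero_smul, one_smul, zero_add]
      · left; rw [zero_smul, one_smul, add_zero]
      · right; right; rw [one_smul, one_smul]
    have h1 := hG2 V lam S H A B u w hSH hu0 hw0 huw hUe (fun x hx => ((hmA x).1 hx).2)
      (fun x hx => ((hmB x).1 hx).2)
    have nzU : ∀ x, x = u ∨ x = w ∨ x = u + w → x ∈ S ⊓ H ∧ x ≠ 0 := by
      rintro x (rfl | rfl | rfl)
      · exact ⟨huU, hu0⟩
      · exact ⟨hwU, hw0⟩
      · exact ⟨huwU, huw0⟩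
    -- the terms for a general set `G` in the role of `A`, `B`
    have gen : ∀ (G : Finset V), (∀ x ∈ G, x ≠ 0) →
        (∀ (F : Finset V) (K : Submodule (ZMod 2) V), K ≤ S ⊓ H →
          (∀ x ∈ F, x ∈ G ∨ (x ∈ S ⊓ H ∧ x ≠ 0)) → (∀ x ∈ G, x ∈ F) →
          (∀ x ∈ S ⊓ H, x ≠ 0 → x ∉ K → x ∈ F) →
          0 ≤ q lam F K ∧ ((∀ x ∈ F, x ∉ K) → 0 < q lam F K)) →
        0 < q lam (insert u (insert w (insert (u + w) G))) ⊥ ∧
        0 ≤ q lam (insert w (insert (u + w) G)) (span (ZMod 2) {u}) ∧
        0 ≤ q lam (insert u (insert (u + w) G)) (span (ZMod 2) {w}) ∧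
        0 ≤ q lam (insert u (insert w G)) (span (ZMod 2) {u + w}) ∧
        0 ≤ q lam G (span (ZMod 2) {u, w}) := by
      intro G hG0 hG
      have hone : ∀ z ∈ S ⊓ H, span (ZMod 2) {z} ≤ S ⊓ H := by
        intro z hz
        rw [span_le]
        intro x hx
        rw [Set.mem_singleton_iff.1 hx]
        exact hz
      have hself : ∀ z : V, z ∈ span (ZMod 2) ({z} : Set V) := fun z =>
        subset_span (Set.mem_singleton z)
      refine ⟨?_, ?_, ?_, ?_, ?_⟩
      · refine (hG _ ⊥ bot_le ?_ ?_ ?_).2 ?_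
        · intro x hx
          simp only [Finset.mem_insert] at hx
          rcases hx with h | h | h | h
          · exact Or.inr (nzU x (Or.inl h))
          · exact Or.inr (nzU x (Or.inr (Or.inl h)))
          · exact Or.inr (nzU x (Or.inr (Or.inr h)))
          · exact Or.inl h
        · intro x hx
          simp only [Finset.mem_insert]
          tauto
        · intro x hx hx0 _
          simp only [Finset.mem_insert]
          rcases hUm x hx hx0 with h | h | h <;> tauto
        · intro x hx hx0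
          rw [mem_bot] at hx0
          simp only [Finset.mem_insert] at hx
          rcases hx with h | h | h | h
          · exact (nzU x (Or.inl h)).2 hx0
          · exact (nzU x (Or.inr (Or.inl h))).2 hx0
          · exact (nzU x (Or.inr (Or.inr h))).2 hx0
          · exact hG0 x h hx0
      · refine (hG _ _ (hone u huU) ?_ ?_ ?_).1
        · intro x hx
          simp only [Finset.mem_insert] at hx
          rcases hx with h | h | h
          · exact Or.inr (nzU x (Or.inr (Or.inl h)))
          · exact Or.inr (nzU x (Or.inr (Or.inr h)))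
          · exact Or.inl h
        · intro x hx
          simp only [Finset.mem_insert]
          tauto
        · intro x hx hx0 hxK
          simp only [Finset.mem_insert]
          rcases hUm x hx hx0 with h | h | h
          · exact absurd (h ▸ hself u) hxK
          · exact Or.inl h
          · exact Or.inr (Or.inl h)
      · refine (hG _ _ (hone w hwU) ?_ ?_ ?_).1
        · intro x hx
          simp only [Finset.mem_insert] at hx
          rcases hx with h | h | h
          · exact Or.inr (nzU x (Or.inl h))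
          · exact Or.inr (nzU x (Or.inr (Or.inr h)))
          · exact Or.inl h
        · intro x hx
          simp only [Finset.mem_insert]
          tauto
        · intro x hx hx0 hxK
          simp only [Finset.mem_insert]
          rcases hUm x hx hx0 with h | h | h
          · exact Or.inl h
          · exact absurd (h ▸ hself w) hxK
          · exact Or.inr (Or.inl h)
      · refine (hG _ _ (hone (u + w) huwU) ?_ ?_ ?_).1
        · intro x hx
          simp only [Finset.mem_insert] at hx
          rcases hx with h | h | h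
          · exact Or.inr (nzU x (Or.inl h))
          · exact Or.inr (nzU x (Or.inr (Or.inl h)))
          · exact Or.inl h
        · intro x hx
          simp only [Finset.mem_insert]
          tauto
        · intro x hx hx0 hxK
          simp only [Finset.mem_insert]
          rcases hUm x hx hx0 with h | h | h
          · exact Or.inl h
          · exact Or.inr (Or.inl h)
          · exact absurd (h ▸ hself (u + w)) hxK
      · refine (hG _ _ hUe.ge (fun x hx => Or.inl hx) (fun x hx => hx) ?_).1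
        intro x hx _ hxK
        exact absurd (hUe ▸ hx) hxK
    obtain ⟨a0, a1, a2, a3, a4⟩ := gen A hA0 nA
    obtain ⟨b0, b1, b2, b3, b4⟩ := gen B hB0 nB
    have h4 := add_pos_of_pos_of_nonneg (add_pos_of_pos_of_nonneg (mul_pos a0 b0)
      (mul_nonneg l2.le (add_nonneg (add_nonneg (mul_nonneg a1 b1) (mul_nonneg a2 b2))
        (mul_nonneg a3 b3)))) (mul_nonneg (mul_pos l1 l2).le (mul_nonneg a4 b4))
    rw [← h1] at h4
    exact (mul_pos_iff_of_pos_left (mul_pos (mul_pos l1 l2) (pow_pos l0 _))).1 h4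

end Pool.Agent.Work.MP_9f8812_co.LG
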