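import Pool.Agent.Work.MP_9f8812_co.LG.Stmts
import Pool.Agent.Work.MP_a8f287_co.Crit

/-! # Items Mrg, C4a, GB, G1 of block LG -/

set_option autoImplicit false

namespace Pool.Agent.Work.MP_9f8812_co.LG

open Submodule Module
open Pool.Agent.WW (HasK5 Gen Pres VC Good)

theorem mrg_one (m : ℕ) (c : Fin m → ZMod 2) (hc : wt c ≤ 2) :
    ∃ μ : (Fin m → ZMod 2) →ₗ[ZMod 2] (Fin m → ZMod 2),
      LinearMap.ker μ = span (ZMod 2) {c} ∧ ∀ w, wt w ≤ 2 → wt (μ w) ≤ 2 := by
  classical
  by_cases h0 : c = 0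
  · refine ⟨LinearMap.id, ?_, fun w hw => hw⟩
    rw [h0, LinearMap.ker_id, span_singleton_eq_bot.2 rfl]
  · obtain ⟨i, hi⟩ : ∃ i, c i ≠ 0 := by
      by_contra h
      push Not at h
      exact h0 (funext h)
    have hi1 : c i = 1 := by
      have : ∀ a : ZMod 2, a ≠ 0 → a = 1 := by decide
      exact this _ hi
    refine ⟨LinearMap.id - (LinearMap.proj i : (Fin m → ZMod 2) →ₗ[ZMod 2] ZMod 2).smulRight c,
      ?_, ?_⟩
    · ext w
      rw [LinearMap.mem_ker, LinearMap.sub_apply, LinearMap.id_apply, LinearMap.smulRight_apply,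
        LinearMap.proj_apply, mem_span_singleton, sub_eq_zero]
      constructor
      · intro h
        exact ⟨w i, h.symm⟩
      · rintro ⟨a, rfl⟩
        rw [Pi.smul_apply, hi1, smul_eq_mul, mul_one]
    · intro w hw
      rw [LinearMap.sub_apply, LinearMap.id_apply, LinearMap.smulRight_apply, LinearMap.proj_apply]
      by_cases hwi : w i = 0
      · rw [hwi, zero_smul, sub_zero]
        exact hw
      · have hwi1 : w i = 1 := by
          have : ∀ a : ZMod 2, a ≠ 0 → a = 1 := by decide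
          exact this _ hwi
        rw [hwi1, one_smul]
        unfold wt at hw hc ⊢
        set A := Finset.univ.filter (fun j => w j ≠ 0) with hA
        set B := Finset.univ.filter (fun j => c j ≠ 0) with hB
        have h1 : Finset.univ.filter (fun j => (w - c) j ≠ 0) ⊆ (A ∪ B).erase i := by
          intro j hj
          rw [Finset.mem_filter, Pi.sub_apply] at hj
          rw [Finset.mem_erase, Finset.mem_union, hA, hB, Finset.mem_filter, Finset.mem_filter]
          constructor
          · rintro rfl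
            exact hj.2 (by rw [hwi1, hi1, sub_self])
          · by_cases h : w j = 0
            · right
              refine ⟨Finset.mem_univ _, fun h' => hj.2 (by rw [h, h', sub_self])⟩
            · left
              exact ⟨Finset.mem_univ _, h⟩
        have hiA : i ∈ A := Finset.mem_filter.2 ⟨Finset.mem_univ _, hwi⟩
        have hiB : i ∈ B := Finset.mem_filter.2 ⟨Finset.mem_univ _, hi⟩
        have h2 := Finset.card_le_card h1
        rw [Finset.card_erase_of_mem (Finset.mem_union_left _ hiA)] at h2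
        have h3 := Finset.card_union_add_card_inter A B
        have h4 : 0 < (A ∩ B).card := Finset.card_pos.2 ⟨i, Finset.mem_inter.2 ⟨hiA, hiB⟩⟩
        omega

theorem pr_Mrg : St_Mrg := by
  classical
  intro m P hP
  have key : ∀ C : Finset (Fin m → ZMod 2), (∀ c ∈ C, wt c ≤ 2) →
      ∃ μ : (Fin m → ZMod 2) →ₗ[ZMod 2] (Fin m → ZMod 2),
        LinearMap.ker μ = span (ZMod 2) (C : Set (Fin m → ZMod 2)) ∧
        ∀ w, wt w ≤ 2 → wt (μ w) ≤ 2 := by
    intro C
    induction C using Finset.induction_on with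
    | empty =>
      intro _
      refine ⟨LinearMap.id, ?_, fun w hw => hw⟩
      rw [Finset.coe_empty, span_empty, LinearMap.ker_id]
    | insert c C _ ih =>
      intro hC
      obtain ⟨μ', hk, hw⟩ := ih (fun x hx => hC x (Finset.mem_insert_of_mem hx))
      obtain ⟨μ, hk2, hw2⟩ := mrg_one m (μ' c) (hw c (hC c (Finset.mem_insert_self _ _)))
      refine ⟨μ.comp μ', ?_, fun w h => hw2 _ (hw w h)⟩
      rw [LinearMap.ker_comp, hk2, ← Set.image_singleton, ← Submodule.map_span,
        Submodule.comap_map_eq, hk, Finset.coe_insert, span_insert]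
  set T : Set (Fin m → ZMod 2) := {w | w ∈ P ∧ wt w ≤ 2} with hT
  obtain ⟨μ, hk, hw⟩ := key (Set.toFinite T).toFinset (fun c hc => by
    rw [Set.Finite.mem_toFinset] at hc
    exact hc.2)
  refine ⟨μ, ?_, hw⟩
  rw [hk, Set.Finite.coe_toFinset]
  exact le_antisymm (span_le.2 fun w hw => hw.1) hP

theorem pr_C4a (hG : St_GrC) : St_C4a := by
  intro p t V _ _ _ E X S H hcl hpS hfill
  obtain ⟨⟨m, φ, hφ, hw⟩, ht, hp⟩ := hcl
  obtain ⟨K, hgen, hKH, hKU, hpres⟩ := hfill
  have hgenE : Gen E K := hgen.trans (span_mono fun y hy => ⟨hy.1.1, hy.2⟩)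
  obtain ⟨φ', hφ', hw'⟩ := hG V E K m φ hw hgenE
  rw [hφ] at hφ'
  have hKS : ∀ x ∈ K, x ∈ S → x = 0 := by
    intro x hx hxS
    have h1 : x ∈ K ⊓ (S ⊓ H) := ⟨hx, hxS, hKH hx⟩
    rw [hKU, mem_bot] at h1
    exact h1
  refine ⟨(X ⊔ K).comap S.subtype, ⟨m, φ'.comp S.subtype, ?_, ?_⟩, ?_, ?_⟩
  · rw [LinearMap.ker_comp, hφ']
  · rintro y (hy | ⟨hyH, hy0⟩)
    · exact hw' _ (hw _ hy)
    · obtain ⟨x, hx, hxy⟩ := hpres (y : V) ⟨y.2, hyH⟩ (fun h => hy0 (Subtype.ext h))
      have h1 : x + (y : V) ∈ LinearMap.ker φ' := by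
        rw [hφ']
        exact mem_sup_right hxy
      rw [LinearMap.mem_ker, map_add] at h1
      have h2 : φ' (y : V) = φ' x := by
        have h3 : ∀ a b : ZMod 2, a + b = 0 → b = a := by decide
        funext i
        exact h3 _ _ (congrFun h1 i)
      rw [LinearMap.comp_apply]
      change wt (φ' (y : V)) ≤ 2
      rw [h2]
      exact hw' _ (hw _ hx.1)
  · have h0 := Submodule.finrank_map_subtype_eq S ((X ⊔ K).comap S.subtype)
    rw [Submodule.map_comap_subtype] at h0
    rw [← h0]
    have h1 := Submodule.finrank_sup_add_finrank_inf_eq (S ⊓ (X ⊔ K)) K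
    have h2 : (S ⊓ (X ⊔ K)) ⊓ K = ⊥ := by
      rw [eq_bot_iff]
      intro x hx
      rw [mem_bot]
      exact hKS x hx.2 hx.1.1
    rw [h2, finrank_bot] at h1
    have h3 : (S ⊓ (X ⊔ K)) ⊔ K ≤ X ⊔ K := sup_le inf_le_right le_sup_right
    have h4 := Submodule.finrank_mono h3
    have h5 := Submodule.finrank_add_le_finrank_add_finrank X K
    omega
  · intro hpp
    have hgX := hp hpp
    have hXS : X ≤ S := hgX.trans (span_le.2 fun x hx => hpS hpp x hx.1 hx.2)
    have h2 : span (ZMod 2) (E ∩ (X : Set V)) ≤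
        (span (ZMod 2) ({y : ↥S | (y : V) ∈ E ∨ ((y : V) ∈ H ∧ y ≠ 0)} ∩
          (((X ⊔ K).comap S.subtype : Submodule (ZMod 2) ↥S) : Set ↥S))).map S.subtype := by
      rw [span_le]
      rintro x ⟨hx, hxX⟩
      refine ⟨⟨x, hXS hxX⟩, subset_span ⟨Or.inl hx, ?_⟩, rfl⟩
      exact mem_sup_left hxX
    intro y hy
    have hy' : (y : V) ∈ X ⊔ K := hy
    obtain ⟨x, hx, k, hk, hxk⟩ := mem_sup.1 hy'
    have hk0 : k = 0 := by
      apply hKS k hk
      have : k = (y : V) - x := by rw [← hxk, add_sub_cancel_left]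
      rw [this]
      exact sub_mem y.2 (hXS hx)
    rw [hk0, add_zero] at hxk
    obtain ⟨z, hz, hzy⟩ := h2 (hgX (hxk ▸ hx : (y : V) ∈ X))
    have : z = y := Subtype.ext hzy
    rw [← this]
    exact hz

theorem proj_exists {V : Type} [AddCommGroup V] [Module (ZMod 2) V] (S H : Submodule (ZMod 2) V)
    (h : S ⊔ H = ⊤) : ∃ p : V →ₗ[ZMod 2] V, (∀ x ∈ S, p x = 0) ∧ (∀ x, p x ∈ H) ∧
      ∀ x, x - p x ∈ S := by
  have hsurj : Function.Surjective (S.mkQ.comp H.subtype) := by
    intro y
    obtain ⟨v, rfl⟩ := Submodule.mkQ_surjective S y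
    have hv : v ∈ S ⊔ H := by rw [h]; exact mem_top
    obtain ⟨s, hs, t, ht, rfl⟩ := mem_sup.1 hv
    refine ⟨⟨t, ht⟩, ?_⟩
    rw [LinearMap.comp_apply, map_add, Submodule.mkQ_apply, Submodule.mkQ_apply,
      Submodule.mkQ_apply, (Submodule.Quotient.mk_eq_zero S).2 hs, zero_add]
    rfl
  obtain ⟨σ, hσ⟩ := LinearMap.exists_rightInverse_of_surjective _ (LinearMap.range_eq_top.2 hsurj)
  refine ⟨(H.subtype.comp σ).comp S.mkQ, ?_, ?_, ?_⟩
  · intro x hx
    rw [LinearMap.comp_apply, Submodule.mkQ_apply, (Submodule.Quotient.mk_eq_zero S).2 hx, map_zero]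
  · intro x
    exact (σ (S.mkQ x)).2
  · intro x
    have h1 := LinearMap.congr_fun hσ (S.mkQ x)
    apply (Submodule.Quotient.mk_eq_zero S).1
    rw [← Submodule.mkQ_apply, map_sub, sub_eq_zero]
    exact h1.symm

theorem pr_GB : St_GB := by
  intro V _ _ _ _ k S H A B g hSH hA hB
  obtain ⟨pH, hH1, hH2, hH3⟩ := proj_exists S H hSH
  obtain ⟨pS, hS1, hS2, hS3⟩ := proj_exists H S (by rw [sup_comm]; exact hSH)
  rw [← Pool.Agent.WW.card_vanish (S ⊓ H) k]
  unfold ext
  rw [← Nat.card_prod, ← Nat.card_prod]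
  refine Nat.card_congr
    { toFun := fun fh => (⟨fh.1.1 + fh.2.1.comp pH, ?_, ?_⟩, ⟨fh.1.1 + fh.2.1.comp pS, ?_, ?_⟩)
      invFun := fun ab =>
        (⟨ab.1.1.comp (LinearMap.id - pH) + ab.2.1.comp pH, ?_, ?_⟩,
          ⟨(ab.1.1 - (ab.1.1.comp (LinearMap.id - pH) + ab.2.1.comp pH)).comp pH +
            (ab.2.1 - (ab.1.1.comp (LinearMap.id - pH) + ab.2.1.comp pH)).comp pS, ?_⟩)
      left_inv := ?_
      right_inv := ?_ }
  · intro x hx
    rw [LinearMap.add_apply, LinearMap.comp_apply, hH1 x hx.1, map_zero, add_zero]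
    exact fh.1.2.1 x hx
  · intro x hx
    rw [LinearMap.add_apply, LinearMap.comp_apply, hH1 x (hA x hx), map_zero, add_zero]
    exact fh.1.2.2 x (Finset.mem_union_left _ hx)
  · intro x hx
    rw [LinearMap.add_apply, LinearMap.comp_apply, hS1 x hx.2, map_zero, add_zero]
    exact fh.1.2.1 x hx
  · intro x hx
    rw [LinearMap.add_apply, LinearMap.comp_apply, hS1 x (hB x hx), map_zero, add_zero]
    exact fh.1.2.2 x (Finset.mem_union_right _ hx)
  · -- agreement on U
    intro x hx
    rw [LinearMap.add_apply, LinearMap.comp_apply, LinearMap.comp_apply, LinearMap.sub_apply,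
      LinearMap.id_apply, hH1 x hx.1, map_zero, sub_zero, add_zero]
    exact ab.1.2.1 x hx
  · -- nonzero on A ∪ B
    intro x hx
    rcases Finset.mem_union.1 hx with h | h
    · rw [LinearMap.add_apply, LinearMap.comp_apply, LinearMap.comp_apply, LinearMap.sub_apply,
        LinearMap.id_apply, hH1 x (hA x h), map_zero, sub_zero, add_zero]
      exact ab.1.2.2 x h
    · have hU : x - pH x ∈ S ⊓ H := ⟨hH3 x, sub_mem (hB x h) (hH2 x)⟩
      rw [LinearMap.add_apply, LinearMap.comp_apply, LinearMap.comp_apply, LinearMap.sub_apply,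
        LinearMap.id_apply, ab.1.2.1 _ hU, ← ab.2.2.1 _ hU, ← map_add, sub_add_cancel]
      exact ab.2.2.2 x h
  · intro x hx
    rw [LinearMap.mem_ker, LinearMap.add_apply, LinearMap.comp_apply, LinearMap.comp_apply,
      hH1 x hx.1, hS1 x hx.2, map_zero, map_zero, add_zero]
  · -- left inverse
    rintro ⟨⟨f, hf1, hf2⟩, ⟨h, hh⟩⟩
    have hff : ∀ x, (f + h.comp pH) (((LinearMap.id : V →ₗ[ZMod 2] V) - pH) x) +
        (f + h.comp pS) (pH x) = f x := by
      intro x
      have e1 : pH (((LinearMap.id : V →ₗ[ZMod 2] V) - pH) x) = 0 := hH1 _ (hH3 x)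
      have e2 : pS (pH x) = 0 := hS1 _ (hH2 x)
      rw [LinearMap.add_apply, LinearMap.comp_apply, e1, map_zero, add_zero, LinearMap.add_apply,
        LinearMap.comp_apply, e2, map_zero, add_zero, LinearMap.sub_apply, LinearMap.id_apply,
        map_sub, sub_add_cancel]
    have hF : (f + h.comp pH).comp (LinearMap.id - pH) + (f + h.comp pS).comp pH = f := by
      ext x : 1
      exact hff x
    have hHH : ((f + h.comp pH) - f).comp pH + ((f + h.comp pS) - f).comp pS = h := by
      ext x : 1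
      have e1 : pH (pH x) = pH x := by
        have := hH1 _ (hH3 x)
        rw [map_sub, sub_eq_zero] at this
        exact this.symm
      have e2 : pS (pS x) = pS x := by
        have := hS1 _ (hS3 x)
        rw [map_sub, sub_eq_zero] at this
        exact this.symm
      rw [LinearMap.add_apply, LinearMap.comp_apply, LinearMap.comp_apply, add_sub_cancel_left,
        add_sub_cancel_left, LinearMap.comp_apply, LinearMap.comp_apply, e1, e2, ← map_add]
      have e3 : x - (pH x + pS x) ∈ S ⊓ H := by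
        constructor
        · have : x - (pH x + pS x) = (x - pH x) - pS x := by abel
          rw [this]
          exact sub_mem (hH3 x) (hS2 x)
        · have : x - (pH x + pS x) = (x - pS x) - pH x := by abel
          rw [this]
          exact sub_mem (hS3 x) (hH2 x)
      have e4 := hh e3
      rw [LinearMap.mem_ker, map_sub, sub_eq_zero] at e4
      exact e4.symm
    refine Prod.ext (Subtype.ext hF) (Subtype.ext ?_)
    change ((f + h.comp pH) - ((f + h.comp pH).comp (LinearMap.id - pH) +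
        (f + h.comp pS).comp pH)).comp pH +
      ((f + h.comp pS) - ((f + h.comp pH).comp (LinearMap.id - pH) +
        (f + h.comp pS).comp pH)).comp pS = h
    rw [hF]
    exact hHH
  · -- right inverse
    rintro ⟨⟨a, ha1, ha2⟩, ⟨b, hb1, hb2⟩⟩
    obtain ⟨f, hf⟩ : ∃ f : V →ₗ[ZMod 2] (Fin k → ZMod 2),
        f = a.comp (LinearMap.id - pH) + b.comp pH := ⟨_, rfl⟩
    have fS : ∀ x ∈ S, f x = a x := by
      intro x hx
      rw [hf, LinearMap.add_apply, LinearMap.comp_apply, LinearMap.comp_apply, LinearMap.sub_apply,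
        LinearMap.id_apply, hH1 x hx, map_zero, sub_zero, add_zero]
    have fH : ∀ x ∈ H, f x = b x := by
      intro x hx
      have hU : x - pH x ∈ S ⊓ H := ⟨hH3 x, sub_mem hx (hH2 x)⟩
      rw [hf, LinearMap.add_apply, LinearMap.comp_apply, LinearMap.comp_apply, LinearMap.sub_apply,
        LinearMap.id_apply, ha1 _ hU, ← hb1 _ hU, ← map_add, sub_add_cancel]
    refine Prod.ext (Subtype.ext ?_) (Subtype.ext ?_)
    · change (a.comp (LinearMap.id - pH) + b.comp pH) +
        ((a - (a.comp (LinearMap.id - pH) + b.comp pH)).comp pH +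
          (b - (a.comp (LinearMap.id - pH) + b.comp pH)).comp pS).comp pH = a
      rw [← hf]
      ext x : 1
      have e1 : pH (pH x) = pH x := by
        have := hH1 _ (hH3 x)
        rw [map_sub, sub_eq_zero] at this
        exact this.symm
      have e2 : pS (pH x) = 0 := hS1 _ (hH2 x)
      have e3 := fS _ (hH3 x)
      rw [map_sub, map_sub] at e3
      rw [LinearMap.add_apply, LinearMap.comp_apply, LinearMap.add_apply, LinearMap.comp_apply,
        LinearMap.comp_apply, e1, e2, map_zero, add_zero, LinearMap.sub_apply]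
      have e4 : a x = f x + (a (pH x) - f (pH x)) := by
        have : f x - f (pH x) + a (pH x) = a x := by rw [e3, sub_add_cancel]
        rw [← this]; abel
      exact e4.symm
    · change (a.comp (LinearMap.id - pH) + b.comp pH) +
        ((a - (a.comp (LinearMap.id - pH) + b.comp pH)).comp pH +
          (b - (a.comp (LinearMap.id - pH) + b.comp pH)).comp pS).comp pS = b
      rw [← hf]
      ext x : 1
      have e1 : pS (pS x) = pS x := by
        have := hS1 _ (hS3 x)
        rw [map_sub, sub_eq_zero] at this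
        exact this.symm
      have e2 : pH (pS x) = 0 := hH1 _ (hS2 x)
      have e3 := fH _ (hS3 x)
      rw [map_sub, map_sub] at e3
      rw [LinearMap.add_apply, LinearMap.comp_apply, LinearMap.add_apply, LinearMap.comp_apply,
        LinearMap.comp_apply, e1, e2, map_zero, zero_add, LinearMap.sub_apply]
      have e4 : b x = f x + (b (pS x) - f (pS x)) := by
        have : f x - f (pS x) + b (pS x) = b x := by rw [e3, sub_add_cancel]
        rw [← this]; abel
      exact e4.symm

theorem exists_map_ne {V : Type} [AddCommGroup V] [Module (ZMod 2) V] (k : ℕ) (hk : 1 ≤ k)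
    (u : V) (hu : u ≠ 0) : ∃ g : V →ₗ[ZMod 2] (Fin k → ZMod 2), g u ≠ 0 := by
  obtain ⟨f, hf⟩ : ∃ f : V →ₗ[ZMod 2] ZMod 2, f u ≠ 0 := by
    by_contra h
    push Not at h
    exact hu ((Module.forall_dual_apply_eq_zero_iff (ZMod 2) u).1 h)
  refine ⟨f.smulRight (fun _ => 1), ?_⟩
  intro h
  have h1 := congrFun h ⟨0, hk⟩
  rw [LinearMap.smulRight_apply, Pi.smul_apply, smul_eq_mul, mul_one] at h1
  exact hf h1

theorem pr_G1 (hE : St_Ev) (hP : St_Pid) (hC : St_Cnt) (hGB : St_GB) (hGT : St_GT1) : St_G1 := by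
  intro V _ _ _ _ lam S H A B u hSH hu hU hA hB
  have h1 : ((Polynomial.X - 1) * Polynomial.X ^ (finrank (ZMod 2) V - 1) * Qp (A ∪ B) ⊥ :
      Polynomial ℝ) = Qp (insert u A) ⊥ * Qp (insert u B) ⊥ +
        (Polynomial.X - 1) * (Qp A (span (ZMod 2) {u}) * Qp B (span (ZMod 2) {u})) := by
    refine hP _ _ 1 fun k hk => ?_
    simp only [Polynomial.eval_mul, Polynomial.eval_add, Polynomial.eval_sub, Polynomial.eval_pow,
      Polynomial.eval_X, Polynomial.eval_one]
    rw [hE V, hE V, hE V, hE V, hE V, hC V, hC V, hC V, hC V, hC V]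
    obtain ⟨a, ha1, ha2, ha3, ha4⟩ := hGT V k A u hu
    obtain ⟨b, hb1, hb2, hb3, hb4⟩ := hGT V k B u hu
    obtain ⟨c, hc1, hc2, hc3, hc4⟩ := hGT V k (A ∪ B) u hu
    obtain ⟨g, hg⟩ := exists_map_ne k hk u hu
    have e1 := hGB V k S H A B g hSH hA hB
    have e2 := hGB V k S H A B 0 hSH hA hB
    rw [hU, finrank_span_singleton hu, hc1 g hg, ha1 g hg, hb1 g hg] at e1
    rw [hU, finrank_span_singleton hu] at e2
    have e1' := congrArg (Nat.cast : ℕ → ℝ) e1
    have e2' := congrArg (Nat.cast : ℕ → ℝ) e2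
    push_cast at e1' e2'
    rw [hc4, ha2, hb2, ha3, hb3]
    linear_combination ((2 : ℝ) ^ k - 1) ^ 2 * e1' + ((2 : ℝ) ^ k - 1) * e2'
  have h4 := congrArg (Polynomial.eval lam) h1
  simp only [Polynomial.eval_mul, Polynomial.eval_add, Polynomial.eval_sub, Polynomial.eval_pow,
    Polynomial.eval_X, Polynomial.eval_one] at h4
  rw [hE V, hE V, hE V, hE V, hE V] at h4
  exact h4

end Pool.Agent.Work.MP_9f8812_co.LG
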