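import Pool.Agent.Work.MP_9f8812_co.LG.Stmts

/-!
# Item G2: gluing over a plane
-/

set_option autoImplicit false

namespace Pool.Agent.Work.MP_9f8812_co.LG

open Submodule Module

namespace IG2

variable {V : Type} [AddCommGroup V] [Module (ZMod 2) V]

/-- two different nonzero vectors over `ZMod 2`: the second is not in the span of the first -/
theorem notMem {u w : V} (hw : w ≠ 0) (huw : u ≠ w) : w ∉ span (ZMod 2) ({u} : Set V) := by
  intro h
  obtain ⟨c, hc⟩ := Submodule.mem_span_singleton.mp h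
  have h01 : ∀ c : ZMod 2, c = 0 ∨ c = 1 := by decide
  rcases h01 c with rfl | rfl
  · rw [zero_smul] at hc
    exact hw hc.symm
  · rw [one_smul] at hc
    exact huw hc

theorem indep {u w : V} (hu : u ≠ 0) (hw : w ≠ 0) (huw : u ≠ w) :
    LinearIndependent (ZMod 2) ![u, w] := by
  rw [LinearIndependent.pair_iff]
  intro s t hst
  have h01 : ∀ c : ZMod 2, c = 0 ∨ c = 1 := by decide
  have hadd : ∀ x : V, x + x = 0 := fun x => ZModModule.add_self x
  rcases h01 s with rfl | rfl <;> rcases h01 t with rfl | rfl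
  · exact ⟨rfl, rfl⟩
  · exfalso
    rw [zero_smul, zero_add, one_smul] at hst
    exact hw hst
  · exfalso
    rw [zero_smul, add_zero, one_smul] at hst
    exact hu hst
  · exfalso
    rw [one_smul, one_smul] at hst
    apply huw
    have h1 : u + w + w = w := by rw [hst, zero_add]
    rw [add_assoc, hadd, add_zero] at h1
    exact h1

theorem rank {u w : V} (hu : u ≠ 0) (hw : w ≠ 0) (huw : u ≠ w) :
    finrank (ZMod 2) ↥(span (ZMod 2) ({u, w} : Set V)) = 2 := by
  have h := finrank_span_eq_card (indep hu hw huw)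
  rw [Matrix.range_cons_cons_empty, Fintype.card_fin] at h
  exact h

/-- prescribed values at `u`, `w` -/
theorem exg {u w : V} (hu : u ≠ 0) (hw : w ≠ 0) (huw : u ≠ w) {k : ℕ}
    (c e : Fin k → ZMod 2) : ∃ g : V →ₗ[ZMod 2] (Fin k → ZMod 2), g u = c ∧ g w = e := by
  have h01 : ∀ c : ZMod 2, c ≠ 0 → c = 1 := by decide
  obtain ⟨φ, hφ, hφ'⟩ := Submodule.exists_le_ker_of_notMem (notMem hu huw.symm)
  obtain ⟨ψ, hψ, hψ'⟩ := Submodule.exists_le_ker_of_notMem (notMem hw huw)
  have a1 : φ w = 0 := hφ' (Submodule.mem_span_singleton_self w)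
  have a2 : ψ u = 0 := hψ' (Submodule.mem_span_singleton_self u)
  have a3 : φ u = 1 := h01 _ hφ
  have a4 : ψ w = 1 := h01 _ hψ
  refine ⟨φ.smulRight c + ψ.smulRight e, ?_, ?_⟩
  · rw [LinearMap.add_apply, LinearMap.smulRight_apply, LinearMap.smulRight_apply, a3, a2,
      one_smul, zero_smul, add_zero]
  · rw [LinearMap.add_apply, LinearMap.smulRight_apply, LinearMap.smulRight_apply, a1, a4,
      one_smul, zero_smul, zero_add]

end IG2

/-- Item G2. -/
theorem pr_G2 (hE : St_Ev) (hP : St_Pid) (hC : St_Cnt) (hGB : St_GB) (hGT : St_GT2) : St_G2 := by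
  intro V _ _ _ _ lam S H A B u w hSH hu hw huw hU hA hB
  have hE' : ∀ (x : ℝ) (E : Finset V) (K : Submodule (ZMod 2) V),
      (Qp E K).eval x = q x E K := fun x E K => hE V x E K
  have hC' : ∀ (k : ℕ) (E : Finset V) (K : Submodule (ZMod 2) V),
      q ((2 : ℝ) ^ k) E K = (cnt k E K : ℝ) := fun k E K => hC V k E K
  have hr : finrank (ZMod 2) ↥(S ⊓ H) = 2 := by rw [hU]; exact IG2.rank hu hw huw
  have key : ∀ k, 2 ≤ k →
      ((2 : ℝ) ^ k - 1) * ((2 : ℝ) ^ k - 2) * ((2 : ℝ) ^ k) ^ (finrank (ZMod 2) V - 2) *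
        q ((2 : ℝ) ^ k) (A ∪ B) ⊥ =
      q ((2 : ℝ) ^ k) (insert u (insert w (insert (u + w) A))) ⊥ *
        q ((2 : ℝ) ^ k) (insert u (insert w (insert (u + w) B))) ⊥ +
      ((2 : ℝ) ^ k - 2) * (q ((2 : ℝ) ^ k) (insert w (insert (u + w) A)) (span (ZMod 2) {u}) *
          q ((2 : ℝ) ^ k) (insert w (insert (u + w) B)) (span (ZMod 2) {u}) +
        q ((2 : ℝ) ^ k) (insert u (insert (u + w) A)) (span (ZMod 2) {w}) *
          q ((2 : ℝ) ^ k) (insert u (insert (u + w) B)) (span (ZMod 2) {w}) +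
        q ((2 : ℝ) ^ k) (insert u (insert w A)) (span (ZMod 2) {u + w}) *
          q ((2 : ℝ) ^ k) (insert u (insert w B)) (span (ZMod 2) {u + w})) +
      ((2 : ℝ) ^ k - 1) * ((2 : ℝ) ^ k - 2) *
        (q ((2 : ℝ) ^ k) A (span (ZMod 2) {u, w}) *
          q ((2 : ℝ) ^ k) B (span (ZMod 2) {u, w})) := by
    intro k hk
    obtain ⟨a, b1, b2, b3, ha, hb1, hb2, hb3, e1, e2, e3, e4, e5, -⟩ := hGT V k A u w hu hw huw hk
    obtain ⟨a', b1', b2', b3', ha', hb1', hb2', hb3', e1', e2', e3', e4', e5', -⟩ :=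
      hGT V k B u w hu hw huw hk
    obtain ⟨a'', b1'', b2'', b3'', ha'', hb1'', hb2'', hb3'', -, -, -, -, -, e6''⟩ :=
      hGT V k (A ∪ B) u w hu hw huw hk
    have hgb : ∀ g : V →ₗ[ZMod 2] (Fin k → ZMod 2),
        (ext k (span (ZMod 2) {u, w}) (A ∪ B) g : ℝ) *
          ((2 : ℝ) ^ k) ^ (finrank (ZMod 2) V - 2) =
        (ext k (span (ZMod 2) {u, w}) A g : ℝ) * (ext k (span (ZMod 2) {u, w}) B g : ℝ) := by
      intro g
      have h := hGB V k S H A B g hSH hA hB
      rw [hr, hU] at h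
      exact_mod_cast h
    obtain ⟨i0, i1, hi⟩ : ∃ i0 i1 : Fin k, i0 ≠ i1 :=
      ⟨⟨0, by omega⟩, ⟨1, by omega⟩, fun h => Nat.zero_ne_one (congrArg Fin.val h)⟩
    have hs : ∀ i : Fin k, (Pi.single i 1 : Fin k → ZMod 2) ≠ 0 := by
      intro i h
      have := congrFun h i
      rw [Pi.single_eq_same] at this
      exact one_ne_zero this
    have hne : (Pi.single i0 1 : Fin k → ZMod 2) ≠ Pi.single i1 1 := by
      intro h
      have := congrFun h i0
      rw [Pi.single_eq_same, Pi.single_eq_of_ne hi] at this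
      exact one_ne_zero this
    -- the five classes
    have r1 : (a'' : ℝ) * ((2 : ℝ) ^ k) ^ (finrank (ZMod 2) V - 2) = (a : ℝ) * a' := by
      obtain ⟨g, g1, g2⟩ := IG2.exg hu hw huw (Pi.single i0 1 : Fin k → ZMod 2) (Pi.single i1 1)
      have h := hgb g
      have p1 : g u ≠ 0 := by rw [g1]; exact hs i0
      have p2 : g w ≠ 0 := by rw [g2]; exact hs i1
      have p3 : g u ≠ g w := by rw [g1, g2]; exact hne
      rw [ha g p1 p2 p3, ha' g p1 p2 p3, ha'' g p1 p2 p3] at h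
      exact h
    have r2 : (b1'' : ℝ) * ((2 : ℝ) ^ k) ^ (finrank (ZMod 2) V - 2) = (b1 : ℝ) * b1' := by
      obtain ⟨g, g1, g2⟩ := IG2.exg hu hw huw (0 : Fin k → ZMod 2) (Pi.single i1 1)
      have h := hgb g
      have p2 : g w ≠ 0 := by rw [g2]; exact hs i1
      rw [hb1 g g1 p2, hb1' g g1 p2, hb1'' g g1 p2] at h
      exact h
    have r3 : (b2'' : ℝ) * ((2 : ℝ) ^ k) ^ (finrank (ZMod 2) V - 2) = (b2 : ℝ) * b2' := by
      obtain ⟨g, g1, g2⟩ := IG2.exg hu hw huw (Pi.single i0 1 : Fin k → ZMod 2) 0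
      have h := hgb g
      have p1 : g u ≠ 0 := by rw [g1]; exact hs i0
      rw [hb2 g p1 g2, hb2' g p1 g2, hb2'' g p1 g2] at h
      exact h
    have r4 : (b3'' : ℝ) * ((2 : ℝ) ^ k) ^ (finrank (ZMod 2) V - 2) = (b3 : ℝ) * b3' := by
      obtain ⟨g, g1, g2⟩ := IG2.exg hu hw huw (Pi.single i0 1 : Fin k → ZMod 2) (Pi.single i0 1)
      have h := hgb g
      have p1 : g u ≠ 0 := by rw [g1]; exact hs i0
      have p3 : g u = g w := by rw [g1, g2]
      rw [hb3 g p1 p3, hb3' g p1 p3, hb3'' g p1 p3] at h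
      exact h
    have r5 := hgb 0
    rw [hC', hC', hC', hC', hC', hC', hC', hC', hC', hC', hC', e1, e2, e3, e4, e5, e1', e2', e3',
      e4', e5', e6'']
    linear_combination ((2 : ℝ) ^ k - 1) ^ 2 * ((2 : ℝ) ^ k - 2) ^ 2 * r1 +
      ((2 : ℝ) ^ k - 1) ^ 2 * ((2 : ℝ) ^ k - 2) * (r2 + r3 + r4) +
      ((2 : ℝ) ^ k - 1) * ((2 : ℝ) ^ k - 2) * r5
  have hpoly := hP
    ((Polynomial.X - 1) * (Polynomial.X - Polynomial.C 2) *
      Polynomial.X ^ (finrank (ZMod 2) V - 2) * Qp (A ∪ B) ⊥)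
    (Qp (insert u (insert w (insert (u + w) A))) ⊥ *
        Qp (insert u (insert w (insert (u + w) B))) ⊥ +
      (Polynomial.X - Polynomial.C 2) *
        (Qp (insert w (insert (u + w) A)) (span (ZMod 2) {u}) *
          Qp (insert w (insert (u + w) B)) (span (ZMod 2) {u}) +
        Qp (insert u (insert (u + w) A)) (span (ZMod 2) {w}) *
          Qp (insert u (insert (u + w) B)) (span (ZMod 2) {w}) +
        Qp (insert u (insert w A)) (span (ZMod 2) {u + w}) *
          Qp (insert u (insert w B)) (span (ZMod 2) {u + w})) +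
      (Polynomial.X - 1) * (Polynomial.X - Polynomial.C 2) *
        (Qp A (span (ZMod 2) {u, w}) * Qp B (span (ZMod 2) {u, w}))) 2 (by
      intro k hk
      simp only [Polynomial.eval_mul, Polynomial.eval_add, Polynomial.eval_sub, Polynomial.eval_X,
        Polynomial.eval_one, Polynomial.eval_C, Polynomial.eval_pow, hE']
      exact key k hk)
  have h2 := congrArg (Polynomial.eval lam) hpoly
  simp only [Polynomial.eval_mul, Polynomial.eval_add, Polynomial.eval_sub, Polynomial.eval_X,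
    Polynomial.eval_one, Polynomial.eval_C, Polynomial.eval_pow, hE'] at h2
  exact h2

end Pool.Agent.Work.MP_9f8812_co.LG
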