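import Pool.Agent.Work.MP_9f8812_co.LG.Stmts

/-!
# Lifts of graphic matroids without M(K5)-minor: symmetry (item GS)
-/

set_option autoImplicit false

namespace Pool.Agent.Work.MP_9f8812_co.LG

open Submodule Module

namespace IGS

/-- Two injective linear maps into a finite dimensional space differ by an automorphism (copy of
`WW.glueCol_aut`). -/
theorem aut {F K U : Type*} [Field F] [AddCommGroup K] [Module F K] [AddCommGroup U]
    [Module F U] [FiniteDimensional F U] (a b : K →ₗ[F] U) (ha : Function.Injective a)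
    (hb : Function.Injective b) : ∃ τ : U ≃ₗ[F] U, ∀ x, τ (b x) = a x := by
  obtain ⟨q1, h1⟩ := Submodule.exists_isCompl (LinearMap.range b)
  obtain ⟨q2, h2⟩ := Submodule.exists_isCompl (LinearMap.range a)
  have e1 : LinearMap.range b ≃ₗ[F] LinearMap.range a :=
    (LinearEquiv.ofInjective b hb).symm ≪≫ₗ (LinearEquiv.ofInjective a ha)
  have hq : finrank F q1 = finrank F q2 := by
    have k1 := Submodule.finrank_add_eq_of_isCompl h1
    have k2 := Submodule.finrank_add_eq_of_isCompl h2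
    have k3 := e1.finrank_eq
    omega
  obtain ⟨e2⟩ : Nonempty (q1 ≃ₗ[F] q2) := FiniteDimensional.nonempty_linearEquiv_of_finrank_eq hq
  let e1' : LinearMap.range b ≃ₗ[F] LinearMap.range a :=
    (LinearEquiv.ofInjective b hb).symm ≪≫ₗ (LinearEquiv.ofInjective a ha)
  refine ⟨(Submodule.prodEquivOfIsCompl _ _ h1).symm ≪≫ₗ (LinearEquiv.prodCongr e1' e2) ≪≫ₗ
    (Submodule.prodEquivOfIsCompl _ _ h2), ?_⟩
  intro x
  obtain ⟨y, hy⟩ : ∃ y : LinearMap.range b, y = ⟨b x, LinearMap.mem_range_self b x⟩ := ⟨_, rfl⟩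
  have hy' : b x = (y : U) := by rw [hy]
  have h3 : (Submodule.prodEquivOfIsCompl _ _ h1).symm (b x) = (y, 0) := by
    rw [LinearEquiv.symm_apply_eq, hy']
    simp
  rw [LinearEquiv.trans_apply, LinearEquiv.trans_apply, h3]
  have h4 : (LinearEquiv.ofInjective b hb).symm y = x := by
    rw [LinearEquiv.symm_apply_eq, hy]
    rfl
  simp [e1', h4]

/-- Two linear maps with the same kernel into a finite dimensional space differ by an
automorphism. -/
theorem aut' {F K U : Type*} [Field F] [AddCommGroup K] [Module F K] [AddCommGroup U]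
    [Module F U] [FiniteDimensional F U] (a b : K →ₗ[F] U)
    (h : LinearMap.ker b = LinearMap.ker a) : ∃ τ : U ≃ₗ[F] U, ∀ x, τ (b x) = a x := by
  have ha := Submodule.ker_liftQ_eq_bot (LinearMap.ker a) a le_rfl le_rfl
  have hb := Submodule.ker_liftQ_eq_bot (LinearMap.ker a) b h.ge h.le
  obtain ⟨τ, hτ⟩ := aut _ _ (LinearMap.ker_eq_bot.mp ha) (LinearMap.ker_eq_bot.mp hb)
  exact ⟨τ, fun x => hτ ((LinearMap.ker a).mkQ x)⟩

end IGS

/-- **GS** -/
theorem pr_GS : St_GS := by
  intro V _ _ _ k U A g g' h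
  have hker : LinearMap.ker (g.domRestrict U) = LinearMap.ker (g'.domRestrict U) := by
    ext x
    rw [LinearMap.mem_ker, LinearMap.mem_ker, LinearMap.domRestrict_apply,
      LinearMap.domRestrict_apply]
    exact h x x.2
  obtain ⟨τ, hτ'⟩ := IGS.aut' (g'.domRestrict U) (g.domRestrict U) hker
  have hτ : ∀ x ∈ U, τ (g x) = g' x := fun x hx => hτ' ⟨x, hx⟩
  have hτs : ∀ x ∈ U, τ.symm (g' x) = g x := by
    intro x hx
    rw [← hτ x hx, LinearEquiv.symm_apply_apply]
  unfold ext
  refine Nat.card_congr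
    { toFun := fun f => ⟨τ.toLinearMap ∘ₗ f.1, ?_, ?_⟩
      invFun := fun f => ⟨τ.symm.toLinearMap ∘ₗ f.1, ?_, ?_⟩
      left_inv := ?_
      right_inv := ?_ }
  · intro x hx
    show τ (f.1 x) = g' x
    rw [f.2.1 x hx, hτ x hx]
  · intro x hx h0
    have h1 : τ (f.1 x) = 0 := h0
    exact f.2.2 x hx ((LinearEquiv.map_eq_zero_iff τ).1 h1)
  · intro x hx
    show τ.symm (f.1 x) = g x
    rw [f.2.1 x hx, hτs x hx]
  · intro x hx h0
    have h1 : τ.symm (f.1 x) = 0 := h0
    exact f.2.2 x hx ((LinearEquiv.map_eq_zero_iff τ.symm).1 h1)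
  · intro f
    apply Subtype.ext
    ext1 x
    show τ.symm (τ (f.1 x)) = f.1 x
    rw [LinearEquiv.symm_apply_apply]
  · intro f
    apply Subtype.ext
    ext1 x
    show τ (τ.symm (f.1 x)) = f.1 x
    rw [LinearEquiv.apply_symm_apply]

end Pool.Agent.Work.MP_9f8812_co.LG
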