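import Pool.Agent.Work.MP_9f8812_co.LG.Stmts

/-!
# Item GT1 of block LG: classes of restrictions to a line
-/

set_option autoImplicit false

namespace Pool.Agent.Work.MP_9f8812_co.LG

open Submodule Module
open Pool.Agent.WW (HasK5 Gen Pres VC Good)

namespace IGT1

section

variable {V : Type} [AddCommGroup V] [Module (ZMod 2) V]

theorem agree_iff {k : ℕ} (u : V) (f g : V →ₗ[ZMod 2] (Fin k → ZMod 2)) :
    (∀ x ∈ span (ZMod 2) {u}, f x = g x) ↔ f u = g u := by
  constructor
  · intro h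
    exact h u (mem_span_singleton_self u)
  · intro h x hx
    obtain ⟨s, rfl⟩ := mem_span_singleton.1 hx
    rw [map_smul, map_smul, h]

theorem exists_map {k : ℕ} (u : V) (hu : u ≠ 0) (c : Fin k → ZMod 2) :
    ∃ g : V →ₗ[ZMod 2] (Fin k → ZMod 2), g u = c := by
  have h1 : ∃ φ : Module.Dual (ZMod 2) V, φ u ≠ 0 := by
    by_contra hc
    push Not at hc
    exact hu ((Module.forall_dual_apply_eq_zero_iff (ZMod 2) u).1 hc)
  obtain ⟨φ, hφ⟩ := h1
  refine ⟨((φ u)⁻¹ • φ).smulRight c, ?_⟩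
  rw [LinearMap.smulRight_apply, LinearMap.smul_apply, smul_eq_mul, inv_mul_cancel₀ hφ, one_smul]

theorem nonz_iff {k : ℕ} (u : V) (g g' : V →ₗ[ZMod 2] (Fin k → ZMod 2)) (hg : g u ≠ 0)
    (hg' : g' u ≠ 0) : ∀ x ∈ span (ZMod 2) {u}, g x = 0 ↔ g' x = 0 := by
  intro x hx
  obtain ⟨s, rfl⟩ := mem_span_singleton.1 hx
  rw [map_smul, map_smul, smul_eq_zero, smul_eq_zero]
  constructor
  · rintro (h | h)
    · exact Or.inl h
    · exact absurd h hg
  · rintro (h | h)
    · exact Or.inl h
    · exact absurd h hg'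

end

end IGT1

open IGT1 in
/-- Item [GT1] -/
theorem pr_GT1 (hGS : St_GS) : St_GT1 := by
  classical
  intro V _ _ _ _ k A u hu
  have : Finite V := Module.finite_of_finite (ZMod 2)
  have : Finite (V →ₗ[ZMod 2] (Fin k → ZMod 2)) := DFunLike.finite _
  have : Fintype (V →ₗ[ZMod 2] (Fin k → ZMod 2)) := Fintype.ofFinite _
  set G : Finset (V →ₗ[ZMod 2] (Fin k → ZMod 2)) :=
    Finset.univ.filter (fun f => ∀ x ∈ A, f x ≠ 0) with hG
  have hext : ∀ g : V →ₗ[ZMod 2] (Fin k → ZMod 2), ext k (span (ZMod 2) {u}) A g =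
      (G.filter (fun f => f u = g u)).card := by
    intro g
    unfold ext
    rw [Nat.card_eq_fintype_card, Fintype.card_subtype, hG, Finset.filter_filter]
    congr 1
    ext f
    simp only [Finset.mem_filter, Finset.mem_univ, true_and]
    rw [agree_iff]
    exact and_comm
  have h1 : ∃ a : ℕ, ∀ g : V →ₗ[ZMod 2] (Fin k → ZMod 2), g u ≠ 0 →
      ext k (span (ZMod 2) {u}) A g = a := by
    by_cases hex : ∃ g : V →ₗ[ZMod 2] (Fin k → ZMod 2), g u ≠ 0
    · obtain ⟨g0, hg0⟩ := hex
      exact ⟨ext k (span (ZMod 2) {u}) A g0, fun g hg =>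
        hGS V k _ A g g0 (nonz_iff u g g0 hg hg0)⟩
    · push Not at hex
      exact ⟨0, fun g hg => absurd (hex g) hg⟩
  obtain ⟨a, ha⟩ := h1
  have hfib : ∀ c : Fin k → ZMod 2, c ≠ 0 → (G.filter (fun f => f u = c)).card = a := by
    intro c hc
    obtain ⟨g, hg⟩ := exists_map u hu c
    rw [← hg, ← hext g]
    exact ha g (by rw [hg]; exact hc)
  have hbot : ∀ f : V →ₗ[ZMod 2] (Fin k → ZMod 2), ∀ x ∈ (⊥ : Submodule (ZMod 2) V), f x = 0 := by
    intro f x hx
    rw [(Submodule.mem_bot (ZMod 2)).1 hx, map_zero]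
  have hnz : (Finset.univ.filter (fun c : Fin k → ZMod 2 => c ≠ 0)).card = 2 ^ k - 1 := by
    rw [Finset.filter_ne' Finset.univ (0 : Fin k → ZMod 2),
      Finset.card_erase_of_mem (Finset.mem_univ _), Finset.card_univ, Fintype.card_fun, ZMod.card,
      Fintype.card_fin]
  have hcast : (((2 ^ k - 1 : ℕ) : ℕ) : ℝ) = (2 : ℝ) ^ k - 1 := by
    rw [Nat.cast_sub Nat.one_le_two_pow]
    push_cast
    ring
  have hns : ((G.filter (fun f => f u ≠ 0)).card : ℝ) = ((2 : ℝ) ^ k - 1) * a := by
    have h2 : (G.filter (fun f => f u ≠ 0)).card = (2 ^ k - 1) * a := by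
      rw [Finset.card_eq_sum_card_fiberwise (f := fun f => f u)
        (t := Finset.univ.filter (fun c : Fin k → ZMod 2 => c ≠ 0))]
      · rw [← hnz, ← smul_eq_mul, ← Finset.sum_const]
        refine Finset.sum_congr rfl fun c hc => ?_
        have hc' : c ≠ 0 := (Finset.mem_filter.1 hc).2
        rw [Finset.filter_filter, ← hfib c hc']
        congr 1
        ext f
        simp only [Finset.mem_filter]
        constructor
        · rintro ⟨h3, -, h4⟩
          exact ⟨h3, h4⟩
        · rintro ⟨h3, h4⟩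
          exact ⟨h3, by rw [h4]; exact hc', h4⟩
      · intro f hf
        have hf' := (Finset.mem_filter.1 (Finset.mem_coe.1 hf)).2
        exact Finset.mem_coe.2 (Finset.mem_filter.2 ⟨Finset.mem_univ _, hf'⟩)
    rw [h2, Nat.cast_mul, hcast]
  refine ⟨a, ha, ?_, ?_, ?_⟩
  · rw [← hns]
    congr 1
    unfold cnt
    rw [Nat.card_eq_fintype_card, Fintype.card_subtype, hG, Finset.filter_filter]
    congr 1
    ext f
    simp only [Finset.mem_filter, Finset.mem_univ, true_and]
    constructor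
    · rintro ⟨-, h⟩
      exact ⟨fun x hx => h x (Finset.mem_insert_of_mem hx), h u (Finset.mem_insert_self _ _)⟩
    · rintro ⟨h, h'⟩
      refine ⟨hbot f, fun x hx => ?_⟩
      rcases Finset.mem_insert.1 hx with rfl | hx
      · exact h'
      · exact h x hx
  · rfl
  · rw [← hns, hext 0, ← Nat.cast_add]
    congr 1
    have e1 : cnt k A ⊥ = G.card := by
      unfold cnt
      rw [Nat.card_eq_fintype_card, Fintype.card_subtype, hG]
      congr 1
      ext f
      simp only [Finset.mem_filter, Finset.mem_univ, true_and]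
      exact ⟨fun h => h.2, fun h => ⟨hbot f, h⟩⟩
    rw [e1, LinearMap.zero_apply, add_comm]
    exact (Finset.card_filter_add_card_filter_not (s := G) (fun f => f u = 0)).symm

end Pool.Agent.Work.MP_9f8812_co.LG
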