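import Pool.Agent.Work.MP_9f8812_co.LG.Stmts

/-!
# Five elements off a hyperplane with all pair sums give M(K5)
-/

set_option autoImplicit false

namespace Pool.Agent.Work.MP_9f8812_co.LG

open Submodule Module
open Pool.Agent.WW (HasK5 Gen Pres VC Good)

namespace IK5P

variable {V : Type} [AddCommGroup V] [Module (ZMod 2) V]

theorem h01 (c : ZMod 2) : c = 0 ∨ c = 1 := by
  revert c; decide

theorem add_ne {a b : V} (h : a ≠ b) : a + b ≠ 0 := by
  intro hab
  apply h
  have h1 : a + b + b = b := by rw [hab, zero_add]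
  rw [add_assoc, ZModModule.add_self, add_zero] at h1
  exact h1

theorem indep (f : V →ₗ[ZMod 2] ZMod 2) (s : Fin 4 → V) (hf : ∀ i, f (s i) = 1)
    (hinj : Function.Injective s) (h4 : s 0 + s 1 + s 2 + s 3 ≠ 0) (c : Fin 4 → ZMod 2)
    (h : ∑ i, c i • s i = 0) : c = 0 := by
  rw [Fin.sum_univ_four] at h
  have hsum : c 0 + c 1 + c 2 + c 3 = 0 := by
    have h1 := congrArg f h
    simpa [hf] using h1
  have key : ∀ i j, i ≠ j → s i + s j ≠ 0 := fun i j hij => add_ne (fun hh => hij (hinj hh))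
  rcases h01 (c 0) with h0 | h0 <;> rcases h01 (c 1) with h1 | h1 <;>
    rcases h01 (c 2) with h2 | h2 <;> rcases h01 (c 3) with h3 | h3 <;>
    rw [h0, h1, h2, h3] at h hsum <;>
    simp only [zero_smul, one_smul, add_zero, zero_add] at h <;>
    first
    | exact absurd hsum (by decide)
    | exact absurd h h4
    | exact absurd h (key _ _ (by decide))
    | (funext i; fin_cases i <;> simp [h0, h1, h2, h3])

theorem mk (E : Set V) (f : V →ₗ[ZMod 2] ZMod 2) (s : Fin 4 → V) (hf : ∀ i, f (s i) = 1)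
    (hinj : Function.Injective s) (h4 : s 0 + s 1 + s 2 + s 3 ≠ 0)
    (hE : ∀ i, s i ∈ E) (hEE : ∀ i j, i ≠ j → s i + s j ∈ E) : HasK5 E := by
  refine ⟨⊥, bot_le, s, ?_, ?_, ?_⟩
  · intro c hc
    exact indep f s hf hinj h4 c (by simpa using hc)
  · intro i
    exact ⟨s i, hE i, by rw [ZModModule.add_self]; exact zero_mem _⟩
  · intro i j hij
    exact ⟨s i + s j, hEE i j hij, by rw [ZModModule.add_self]; exact zero_mem _⟩

end IK5P

open IK5P in
theorem pr_K5P : St_K5P := by
  intro V _ _ E f D hD hcard hpair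
  obtain ⟨t, htD, ht5⟩ := Finset.exists_subset_card_eq hcard
  let g0 : Fin 5 → V := fun i => ((t.equivFin.symm (Fin.cast ht5.symm i) : ↥t) : V)
  have hg0 : Function.Injective g0 := by
    intro i j hij
    have h1 := Subtype.ext hij
    have h2 := t.equivFin.symm.injective h1
    exact Fin.cast_injective _ h2
  have hg0D : ∀ i, g0 i ∈ D := fun i => htD (t.equivFin.symm (Fin.cast ht5.symm i)).2
  have hf1 : ∀ i, f (g0 i) = 1 := fun i => ((h01 (f (g0 i))).resolve_left (hD _ (hg0D i)).2)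
  have main : ∀ σ : Fin 4 → Fin 5, Function.Injective σ →
      g0 (σ 0) + g0 (σ 1) + g0 (σ 2) + g0 (σ 3) ≠ 0 → HasK5 E := by
    intro σ hσ h4
    refine mk E f (fun i => g0 (σ i)) (fun i => hf1 _) (hg0.comp hσ) h4
      (fun i => (hD _ (hg0D _)).1) (fun i j hij => ?_)
    exact hpair _ (hg0D _) _ (hg0D _) (fun hh => hij (hσ (hg0 hh)))
  by_cases hz : g0 0 + g0 1 + g0 2 + g0 3 = 0
  · refine main ![0, 1, 2, 4] (by decide) ?_
    change g0 0 + g0 1 + g0 2 + g0 4 ≠ 0
    intro h4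
    have h34 : g0 3 + g0 4 ≠ 0 := add_ne (fun hh => by
      have := hg0 hh
      exact absurd this (by decide))
    apply h34
    have h5 : (g0 0 + g0 1 + g0 2 + g0 3) + (g0 0 + g0 1 + g0 2 + g0 4) = g0 3 + g0 4 := by
      have h6 : g0 0 + g0 1 + g0 2 + g0 3 + (g0 0 + g0 1 + g0 2 + g0 4) =
          ((g0 0 + g0 1 + g0 2) + (g0 0 + g0 1 + g0 2)) + (g0 3 + g0 4) := by abel
      rw [h6, ZModModule.add_self, zero_add]
    rw [← h5, hz, h4, add_zero]
  · exact main ![0, 1, 2, 3] (by decide) hz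

end Pool.Agent.Work.MP_9f8812_co.LG
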