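import Pool.Agent.Work.MP_9f8812_co.LG.Stmts

/-! Item Ln of the block LG: a maximal generated subspace. -/

set_option autoImplicit false

namespace Pool.Agent.Work.MP_9f8812_co.LG

open Submodule Module
open Pool.Agent.WW (HasK5 Gen Pres VC Good)

theorem pr_Ln : St_Ln := by
  intro V _ _ _ E J0 S H hH hJ hS
  let P : Set (Submodule (ZMod 2) V) := {K | span (ZMod 2) J0 ≤ K ∧ K ≤ H ∧
    Gen (E ∩ (H : Set V)) K ∧ K ⊓ S = ⊥}
  have hne : P.Nonempty := by
    refine ⟨span (ZMod 2) J0, le_rfl, ?_, ?_, hS⟩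
    · exact span_le.2 fun x hx => (hJ hx).2
    · exact span_mono fun x hx => ⟨hJ hx, subset_span hx⟩
  obtain ⟨K, ⟨h1, h2, h3, h4⟩, hmax⟩ := (wellFounded_gt :
    WellFounded ((· > ·) : Submodule (ZMod 2) V → Submodule (ZMod 2) V → Prop)).has_min P hne
  have hz : ∀ z ∈ E ∩ (H : Set V), z ∈ K ⊔ S := by
    intro z hz
    by_contra hcon
    have hKz : z ∈ K ⊔ span (ZMod 2) {z} := mem_sup_right (mem_span_singleton_self z)
    refine hmax (K ⊔ span (ZMod 2) {z}) ⟨h1.trans le_sup_left, ?_, ?_, ?_⟩ ?_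
    · refine sup_le h2 (span_le.2 ?_)
      rintro x rfl
      exact hz.2
    · refine sup_le ?_ (span_le.2 ?_)
      · refine le_trans h3 (span_mono ?_)
        intro x hx
        exact ⟨hx.1, mem_sup_left hx.2⟩
      · rintro x rfl
        exact subset_span ⟨hz, hKz⟩
    · rw [eq_bot_iff]
      rintro x ⟨hx, hxS⟩
      obtain ⟨k, hk, w, hw, rfl⟩ := mem_sup.1 hx
      obtain ⟨c, rfl⟩ := mem_span_singleton.1 hw
      by_cases hc : c = 0
      · subst hc
        rw [zero_smul, add_zero] at hxS ⊢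
        have h5 : k ∈ K ⊓ S := ⟨hk, hxS⟩
        rw [h4] at h5
        exact h5
      · exfalso
        apply hcon
        have h5 : c • z ∈ K ⊔ S := by
          have h6 : c • z = (k + c • z) - k := by abel
          rw [h6]
          exact sub_mem (mem_sup_right hxS) (mem_sup_left hk)
        exact (smul_mem_iff _ hc).1 h5
    · refine lt_of_le_of_ne le_sup_left ?_
      intro heq
      rw [← heq] at hKz
      exact hcon (mem_sup_left hKz)
  refine ⟨K, h1, h2, h3, h4, ?_⟩
  intro x hx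
  have h5 : x ∈ K ⊔ S := (hH.trans (span_le.2 hz)) hx
  obtain ⟨k, hk, s, hs, rfl⟩ := mem_sup.1 h5
  have h6 : s ∈ H := by
    have h7 : s = (k + s) - k := by abel
    rw [h7]
    exact sub_mem hx (h2 hk)
  exact mem_sup.2 ⟨k, hk, s, ⟨hs, h6⟩, rfl⟩

end Pool.Agent.Work.MP_9f8812_co.LG
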