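import Pool.Agent.Work.MP_9f8812_co.LG.Stmts

/-!
# Block LG, item SP: positivity in dimension at most three
-/

set_option autoImplicit false

namespace Pool.Agent.Work.MP_9f8812_co.LG

open Submodule Module
open Pool.Agent.WW (HasK5 Gen Pres VC Good)

namespace ISP

/-- A nonzero functional. -/
theorem exists_dual {V : Type} [AddCommGroup V] [Module (ZMod 2) V] (v : V) (hv : v ≠ 0) :
    ∃ f : V →ₗ[ZMod 2] ZMod 2, f v ≠ 0 := by
  by_contra h
  push Not at h
  exact hv ((Module.forall_dual_apply_eq_zero_iff (ZMod 2) v).1 fun f => h f)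

/-- The kernel of a nonzero functional has smaller dimension. -/
theorem ker_lt {V : Type} [AddCommGroup V] [Module (ZMod 2) V] [FiniteDimensional (ZMod 2) V]
    (f : V →ₗ[ZMod 2] ZMod 2) (v : V) (hv : f v ≠ 0) :
    finrank (ZMod 2) (LinearMap.ker f) < finrank (ZMod 2) V := by
  refine Submodule.finrank_lt fun h => hv ?_
  have h1 : v ∈ LinearMap.ker f := by rw [h]; exact Submodule.mem_top
  exact LinearMap.mem_ker.1 h1

/-- The number of elements of `D` off the kernel. -/
theorem card_le {V : Type} [AddCommGroup V] [Module (ZMod 2) V] [FiniteDimensional (ZMod 2) V]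
    (f : V →ₗ[ZMod 2] ZMod 2) (D : Finset V) (hD : ∀ x ∈ D, f x ≠ 0) (hne : D.Nonempty)
    (hn : finrank (ZMod 2) V ≤ 3) : D.card ≤ 4 := by
  classical
  obtain ⟨d, hd⟩ := hne
  have hone : ∀ a : ZMod 2, a ≠ 0 → a = 1 := by decide
  have hmem : ∀ x ∈ D, x - d ∈ LinearMap.ker f := by
    intro x hx
    rw [LinearMap.mem_ker, map_sub, hone _ (hD x hx), hone _ (hD d hd), sub_self]
  have hlt := ker_lt f d (hD d hd)
  have hfin : Finite V := Module.finite_of_finite (ZMod 2)
  have hc : Nat.card (LinearMap.ker f) = 2 ^ finrank (ZMod 2) (LinearMap.ker f) := by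
    have := Module.natCard_eq_pow_finrank (K := ZMod 2) (V := LinearMap.ker f)
    rw [Nat.card_zmod] at this
    exact this
  have h4 : Nat.card (LinearMap.ker f) ≤ 4 := by
    rw [hc]
    calc 2 ^ finrank (ZMod 2) (LinearMap.ker f) ≤ 2 ^ 2 :=
          Nat.pow_le_pow_right (by norm_num) (by omega)
      _ = 4 := by norm_num
  have hinj : Nat.card D ≤ Nat.card (LinearMap.ker f) :=
    Nat.card_le_card_of_injective (fun x : D => (⟨x.1 - d, hmem x.1 x.2⟩ : LinearMap.ker f))
      fun x y h => Subtype.ext (sub_left_injective (congrArg Subtype.val h))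
  have hD' : Nat.card D = D.card := by
    rw [Nat.card_eq_fintype_card, Fintype.card_coe]
  omega

/-- The induction. -/
theorem main (hCO : St_CO) (hSub : St_Sub) (hLp : St_Lp) (hQuo : St_Quo) (lam : ℝ)
    (hlam : 5 ≤ lam) : ∀ n : ℕ, n ≤ 3 → ∀ (V : Type) [AddCommGroup V] [Module (ZMod 2) V]
    [FiniteDimensional (ZMod 2) V] (E : Finset V), finrank (ZMod 2) V = n → (0 : V) ∉ E →
    0 < q lam E ⊥ := by
  classical
  intro n
  induction n using Nat.strong_induction_on with
  | _ n ih =>
    intro hn V _ _ _ E hV h0
    rcases Nat.eq_zero_or_pos n with hn0 | hn0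
    · have hs : Subsingleton V := Module.finrank_zero_iff.1 (hV.trans hn0)
      have hE : E = ∅ := Finset.eq_empty_of_forall_notMem fun x hx =>
        h0 (Subsingleton.elim x 0 ▸ hx)
      unfold q
      rw [hE, Finset.powerset_empty, Finset.sum_singleton, Finset.card_empty, pow_zero, one_mul,
        hV, hn0, Nat.zero_sub, pow_zero]
      exact one_pos
    · obtain ⟨v, hv⟩ : ∃ v : V, v ≠ 0 := by
        by_contra h
        push Not at h
        have hs : Subsingleton V := ⟨fun a b => (h a).trans (h b).symm⟩
        have := Module.finrank_zero_of_subsingleton (R := ZMod 2) (M := V)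
        omega
      obtain ⟨f, hf⟩ := exists_dual v hv
      obtain ⟨N, hN⟩ : ∃ N, N = E.filter fun x => f x = 0 := ⟨_, rfl⟩
      obtain ⟨D, hD⟩ : ∃ D, D = E.filter fun x => f x ≠ 0 := ⟨_, rfl⟩
      have hNm : ∀ x, x ∈ N ↔ x ∈ E ∧ f x = 0 := fun x => by rw [hN, Finset.mem_filter]
      have hDm : ∀ x, x ∈ D ↔ x ∈ E ∧ f x ≠ 0 := fun x => by rw [hD, Finset.mem_filter]
      have hE : N ∪ D = E := by
        rw [hN, hD]
        exact Finset.filter_union_filter_not_eq _ _
      -- the part in the kernel
      have hker := ker_lt f v hf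
      have hNpos : 0 < q lam N ⊥ := by
        obtain ⟨F, hF⟩ : ∃ F : Finset (LinearMap.ker f), F = N.subtype (· ∈ LinearMap.ker f) :=
          ⟨_, rfl⟩
        have hmap : F.map ⟨Subtype.val, Subtype.val_injective⟩ = N := by
          ext x
          rw [Finset.mem_map]
          constructor
          · rintro ⟨y, hy, rfl⟩
            rw [hF, Finset.mem_subtype] at hy
            exact hy
          · intro hx
            refine ⟨⟨x, LinearMap.mem_ker.2 ((hNm x).1 hx).2⟩, ?_, rfl⟩
            rw [hF, Finset.mem_subtype]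
            exact hx
        have h1 := hSub V lam (LinearMap.ker f) F ⊥
        rw [hmap, Submodule.map_bot] at h1
        rw [h1]
        refine mul_pos (pow_pos (by linarith) _) ?_
        refine ih (finrank (ZMod 2) (LinearMap.ker f)) (by omega) (by omega) _ F rfl ?_
        intro h
        rw [hF, Finset.mem_subtype] at h
        exact h0 ((hNm _).1 h).1
      rcases D.eq_empty_or_nonempty with hDe | hDn
      · rw [← hE, hDe, Finset.union_empty]
        exact hNpos
      · rw [← hE]
        refine hCO V lam f N D (by linarith) (fun x hx => ((hNm x).1 hx).2)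
          (fun x hx => ((hDm x).1 hx).2) hDn hNpos ?_ ?_
        · intro d hd x hx hxd T hT hdT hxT
          by_cases hy : ∃ y ∈ N ∪ T, y ∈ span (ZMod 2) ({d, x} : Set V)
          · obtain ⟨y, hy1, hy2⟩ := hy
            exact (hLp V lam (N ∪ T) y _ hy1 hy2).ge
          · push Not at hy
            obtain ⟨K, hK⟩ : ∃ K, K = span (ZMod 2) ({d, x} : Set V) := ⟨_, rfl⟩
            rw [← hK] at hy ⊢
            have h2 := hQuo V (V ⧸ K) lam K.mkQ (N ∪ T) K (Submodule.mkQ_surjective K)
              (Submodule.ker_mkQ K) hy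
            rw [h2]
            have hdK : d ∈ K := by
              rw [hK]
              exact Submodule.subset_span (Set.mem_insert _ _)
            have hd0 : d ≠ 0 := by
              intro h
              rw [h] at hd
              exact h0 ((hDm _).1 hd).1
            have hKpos : 0 < finrank (ZMod 2) K := by
              rw [Module.finrank_pos_iff]
              exact ⟨⟨⟨d, hdK⟩, 0, fun h => hd0 (congrArg Subtype.val h)⟩⟩
            have hsum := Submodule.finrank_quotient_add_finrank K
            refine (ih (finrank (ZMod 2) (V ⧸ K)) (by omega) (by omega) _ _ rfl ?_).le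
            intro h
            rw [Finset.mem_image] at h
            obtain ⟨y, hy1, hy2⟩ := h
            refine hy y hy1 ?_
            rw [← Submodule.ker_mkQ K, LinearMap.mem_ker]
            exact hy2
        · left
          have h3 := card_le f D (fun x hx => ((hDm x).1 hx).2) hDn (by omega)
          have h4 : (D.card : ℝ) ≤ 4 := by exact_mod_cast h3
          linarith

end ISP

/-- [SP] positivity in dimension at most three -/
theorem pr_SP (hCO : St_CO) (hSub : St_Sub) (hLp : St_Lp) (hQuo : St_Quo) : St_SP :=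
  fun lam hlam V _ _ _ E hV h0 => ISP.main hCO hSub hLp hQuo lam hlam _ hV V E rfl h0

end Pool.Agent.Work.MP_9f8812_co.LG
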