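import Pool.Agent.Work.MP_9f8812_co.LG.Stmts

/-!
# Block LG, item Star: a light star
-/

set_option autoImplicit false

namespace Pool.Agent.Work.MP_9f8812_co.LG

open Submodule Module
open Pool.Agent.WW (HasK5 Gen Pres VC Good)

namespace IStar

theorem ncard_filter {V : Type} (E : Finset V) (P : V → Prop) [DecidablePred P] :
    ({x ∈ (E : Set V) | P x}).ncard = (E.filter P).card := by
  have h : {x ∈ (E : Set V) | P x} = ((E.filter P : Finset V) : Set V) := by
    ext x
    simp
  rw [h, Set.ncard_coe_finset]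

theorem zmod_ne {a : ZMod 2} (h : a ≠ 0) : a = 1 := by
  revert h
  revert a
  decide

section

variable {V : Type} [AddCommGroup V] [Module (ZMod 2) V]

/-- The functionals of a star. -/
noncomputable def fn {m : ℕ} (φ : V →ₗ[ZMod 2] (Fin m → ZMod 2)) :
    Option (Fin m) → V →ₗ[ZMod 2] ZMod 2
  | some i => LinearMap.proj i ∘ₗ φ
  | none => ∑ i, LinearMap.proj i ∘ₗ φ

theorem fn_some {m : ℕ} (φ : V →ₗ[ZMod 2] (Fin m → ZMod 2)) (i : Fin m) (v : V) :
    fn φ (some i) v = φ v i := rfl

theorem fn_none {m : ℕ} (φ : V →ₗ[ZMod 2] (Fin m → ZMod 2)) (v : V) :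
    fn φ none v = ∑ i, φ v i := by
  show (∑ i, LinearMap.proj i ∘ₗ φ) v = _
  rw [LinearMap.sum_apply]
  rfl

theorem fn_sum {m : ℕ} (φ : V →ₗ[ZMod 2] (Fin m → ZMod 2)) (v : V) :
    ∑ o, fn φ o v = 0 := by
  rw [Fintype.sum_option, fn_none]
  exact CharTwo.add_self_eq_zero _

theorem fn_zero {m : ℕ} (φ : V →ₗ[ZMod 2] (Fin m → ZMod 2)) {v : V} (h : φ v = 0)
    (o : Option (Fin m)) : fn φ o v = 0 := by
  cases o with
  | some i =>
    rw [fn_some, h]
    rfl
  | none =>
    rw [fn_none, h]
    exact Finset.sum_eq_zero fun i _ => rfl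

/-- At most two of the functionals are nonzero at a vector of weight at most two. -/
theorem fn_count {m : ℕ} (φ : V →ₗ[ZMod 2] (Fin m → ZMod 2)) {v : V} (h : wt (φ v) ≤ 2) :
    (Finset.univ.filter fun o => fn φ o v ≠ 0).card ≤ 2 := by
  have h1 : (Finset.univ.filter fun o => fn φ o v ≠ 0).card =
      (if fn φ none v ≠ 0 then 1 else 0) + wt (φ v) := by
    rw [Finset.card_filter, Fintype.sum_option, wt, Finset.card_filter]
    rfl
  rw [h1]
  by_cases h2 : wt (φ v) = 2
  · have h3 : fn φ none v = 0 := by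
      rw [fn_none, ← Finset.sum_filter_ne_zero]
      rw [Finset.sum_congr rfl fun i hi => zmod_ne (Finset.mem_filter.1 hi).2]
      rw [Finset.sum_const, nsmul_one]
      have h4 : (Finset.univ.filter fun i => φ v i ≠ 0).card = 2 := h2
      rw [h4]
      rfl
    rw [if_neg (not_not.2 h3)]
    omega
  · split_ifs <;> omega

/-- Functionals with common kernel in `X` are at least `dim V - dim X` in number. -/
theorem card_le [FiniteDimensional (ZMod 2) V] {κ : Type} (J : Finset κ)
    (f : κ → V →ₗ[ZMod 2] ZMod 2) (X : Submodule (ZMod 2) V)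
    (h : ∀ v, (∀ o ∈ J, f o v = 0) → v ∈ X) :
    finrank (ZMod 2) V - finrank (ZMod 2) X ≤ J.card := by
  let Φ : V →ₗ[ZMod 2] (J → ZMod 2) := LinearMap.pi fun o => f o.1
  have h1 := LinearMap.finrank_range_add_finrank_ker Φ
  have h2 : finrank (ZMod 2) (LinearMap.ker Φ) ≤ finrank (ZMod 2) X := by
    apply Submodule.finrank_mono
    intro v hv
    refine h v fun o ho => ?_
    have h3 : Φ v = 0 := hv
    exact congrFun h3 ⟨o, ho⟩
  have h3 : finrank (ZMod 2) (LinearMap.range Φ) ≤ J.card := by
    refine (Submodule.finrank_le _).trans ?_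
    rw [Module.finrank_pi, Fintype.card_coe]
  omega

end

end IStar

open IStar in
open Classical in
theorem pr_Star : St_Star := by
  intro V _ _ _ E X hG hX
  obtain ⟨m, φ, hk, hw⟩ := hG
  have hzero : ∀ x ∈ X, φ x = 0 := fun x hx => by
    rw [← hk] at hx
    exact hx
  set J : Finset (Option (Fin m)) := Finset.univ.filter fun o => fn φ o ≠ 0 with hJ
  have hout : ∀ o, o ∉ J → fn φ o = 0 := fun o ho => by
    by_contra h
    exact ho (Finset.mem_filter.2 ⟨Finset.mem_univ _, h⟩)
  have hker : ∀ v, (∀ o ∈ J, fn φ o v = 0) → v ∈ X := by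
    intro v hv
    rw [← hk]
    show φ v = 0
    funext i
    by_cases hi : some i ∈ J
    · exact hv _ hi
    · have := hout _ hi
      show fn φ (some i) v = 0
      rw [this]
      rfl
  obtain ⟨o₀, ho₀⟩ : J.Nonempty := by
    by_contra hne
    rw [Finset.not_nonempty_iff_eq_empty] at hne
    apply hX
    rw [eq_top_iff]
    intro v _
    refine hker v fun o ho => ?_
    rw [hne] at ho
    exact absurd ho (Finset.notMem_empty _)
  have hcard : finrank (ZMod 2) V - finrank (ZMod 2) X + 1 ≤ J.card := by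
    have h1 := card_le (J.erase o₀) (fn φ) X (fun v hv => by
      refine hker v fun o ho => ?_
      by_cases h : o = o₀
      · rw [h]
        have h2 := fn_sum φ v
        rw [← Finset.add_sum_erase Finset.univ _ (Finset.mem_univ o₀)] at h2
        have h3 : ∑ o ∈ Finset.univ.erase o₀, fn φ o v = 0 := by
          refine Finset.sum_eq_zero fun o ho => ?_
          by_cases h4 : o ∈ J
          · exact hv o (Finset.mem_erase.2 ⟨(Finset.mem_erase.1 ho).1, h4⟩)
          · rw [hout o h4]
            rfl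
        rw [h3, add_zero] at h2
        exact h2
      · exact hv o (Finset.mem_erase.2 ⟨h, ho⟩))
    rw [Finset.card_erase_of_mem ho₀] at h1
    have h2 : 0 < J.card := Finset.card_pos.2 ⟨o₀, ho₀⟩
    omega
  obtain ⟨o, ho, hmin⟩ := J.exists_min_image (fun o => (E.filter fun x => fn φ o x ≠ 0).card)
    ⟨o₀, ho₀⟩
  have hsum : ∑ o ∈ J, (E.filter fun x => fn φ o x ≠ 0).card ≤
      2 * (E.filter fun x => x ∉ X).card := by
    have h1 : ∑ o ∈ J, (E.filter fun x => fn φ o x ≠ 0).card =
        ∑ x ∈ E, (J.filter fun o => fn φ o x ≠ 0).card := by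
      simp only [Finset.card_filter]
      exact Finset.sum_comm
    have h2 : 2 * (E.filter fun x => x ∉ X).card = ∑ x ∈ E, if x ∉ X then 2 else 0 := by
      rw [Finset.sum_ite, Finset.sum_const_zero, add_zero, Finset.sum_const, smul_eq_mul, mul_comm]
    rw [h1, h2]
    refine Finset.sum_le_sum fun x hx => ?_
    by_cases hxX : x ∈ X
    · rw [if_neg (not_not.2 hxX), Finset.filter_eq_empty_iff.2, Finset.card_empty]
      intro o _ hne
      exact hne (fn_zero φ (hzero x hxX) o)
    · rw [if_pos hxX]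
      refine (Finset.card_le_card ?_).trans (fn_count φ (hw x hx))
      exact Finset.filter_subset_filter _ (Finset.subset_univ _)
  refine ⟨fn φ o, (Finset.mem_filter.1 ho).2, fun x hx => fn_zero φ (hzero x hx) o, ?_⟩
  have g1 := ncard_filter E fun x => fn φ o x ≠ 0
  have g2 := ncard_filter E fun x => x ∉ X
  rw [g1, g2]
  calc (E.filter fun x => fn φ o x ≠ 0).card * (finrank (ZMod 2) V - finrank (ZMod 2) X + 1)
      ≤ (E.filter fun x => fn φ o x ≠ 0).card * J.card := Nat.mul_le_mul_left _ hcard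
    _ = J.card • (E.filter fun x => fn φ o x ≠ 0).card := by rw [smul_eq_mul, mul_comm]
    _ ≤ ∑ o ∈ J, (E.filter fun x => fn φ o x ≠ 0).card := Finset.card_nsmul_le_sum _ _ _ hmin
    _ ≤ _ := hsum

end Pool.Agent.Work.MP_9f8812_co.LG
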