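import Pool.Agent.Work.MP_9f8812_co.LG.Fin2
import Pool.Agent.Work.MP_9f8812_co.LG.I_E1
import Pool.Agent.Work.MP_9f8812_co.LG.I_E2
import Pool.Agent.Work.MP_9f8812_co.LG.I_E3
import Pool.Agent.Work.MP_9f8812_co.LG.I_E4
import Pool.Agent.Work.MP_9f8812_co.LG.I_E5
import Pool.Agent.Work.MP_9f8812_co.LG.I_E6
import Pool.Agent.Work.MP_9f8812_co.LG.I_C4b
import Pool.Agent.Work.MP_9f8812_co.LG.I_GS
import Pool.Agent.Work.MP_9f8812_co.LG.I_GT1
import Pool.Agent.Work.MP_9f8812_co.LG.I_GT2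
import Pool.Agent.Work.MP_9f8812_co.LG.I_G2
import Pool.Agent.Work.MP_9f8812_co.LG.I_K5P
import Pool.Agent.Work.MP_9f8812_co.LG.I_Ln
import Pool.Agent.Work.MP_9f8812_co.LG.I_SP
import Pool.Agent.Work.MP_9f8812_co.LG.I_Star

/-!
# Lifts of graphic matroids: assembly
-/

set_option autoImplicit false

namespace Pool.Agent.Work.MP_9f8812_co.LG

open Submodule Module
open Pool.Agent.WW

theorem t_Lp : St_Lp := pr_Lp pr_DC
theorem t_Quo : St_Quo := pr_Quo pr_Ev pr_Pid pr_Cnt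
theorem t_CO : St_CO := pr_CO pr_DC pr_Col
theorem t_GrC : St_GrC := pr_GrC pr_Mrg
theorem t_OK : St_OK := pr_OK pr_C1 (pr_C2 t_GrC) pr_C3 (pr_C4a t_GrC) (pr_C4b t_GrC pr_Ln)
theorem t_Ctr : St_Ctr := pr_Ctr t_Lp t_Quo pr_KQ
theorem t_VC : St_VC := pr_VC t_CO pr_KS pr_Sub t_Ctr pr_K5P
theorem t_S3 : St_S3 := pr_S3 (pr_Tri pr_DC pr_Col) t_Ctr
theorem t_SP : St_SP := pr_SP t_CO pr_Sub t_Lp t_Quo
theorem t_G0 : St_G0 := pr_G0 pr_Ev pr_Pid pr_Cnt pr_GB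
theorem t_G1 : St_G1 := pr_G1 pr_Ev pr_Pid pr_Cnt pr_GB (pr_GT1 pr_GS)
theorem t_G2 : St_G2 := pr_G2 pr_Ev pr_Pid pr_Cnt pr_GB (pr_GT2 pr_GS)
theorem t_Side : St_Side := pr_Side pr_KF pr_Sub t_Ctr

theorem pos_of_light (lam : ℝ) (h5 : 5 ≤ lam) (C : Prp) (hC : OK C)
    (hL : Light lam C) (V : Type) [AddCommGroup V] [Module (ZMod 2) V] [FiniteDimensional (ZMod 2) V]
    (E : Finset V) (X : Submodule (ZMod 2) V) (hX : C V (E : Set V) X) (h0 : (0 : V) ∉ E)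
    (hK : ¬ HasK5 (E : Set V)) : 0 < q lam E ⊥ :=
  at_main t_SP t_VC t_S3 (pr_S012 t_G0 t_G1 t_G2 t_Side) pr_Sub lam h5 C hC hL pr_KS
    _ V E X rfl hX h0 hK

theorem small7 (lam : ℝ) (h7 : 7 ≤ lam) : Small7 lam := by
  intro V _ _ _ E hr h0 hK
  exact pos_of_light lam (by linarith) _ (pr_OK0 5) (light0 pr_Avg lam h7) V E ⊥
    ⟨inferInstance, hr, rfl⟩ h0 hK

/-- the class of all sets with a lift `X` of dimension at most `t` (`p`: spanned by elements) -/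
def ClassPos (lam : ℝ) (p : Prop) (t : ℕ) : Prop :=
  ∀ (V : Type) [AddCommGroup V] [Module (ZMod 2) V] [FiniteDimensional (ZMod 2) V]
    (E : Finset V) (X : Submodule (ZMod 2) V), Cl p t (E : Set V) X → (0 : V) ∉ E →
    ¬ HasK5 (E : Set V) → 0 < q lam E ⊥

theorem class5 (lam : ℝ) (h : 5 ≤ lam) : ClassPos lam True 1 := by
  intro V _ _ _ E X hX h0 hK
  exact pos_of_light lam h _ (t_OK True 1) (light5 pr_Star pr_GC lam h) V E X hX h0 hK

theorem class6a (lam : ℝ) (h : 6 ≤ lam) : ClassPos lam False 1 := by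
  intro V _ _ _ E X hX h0 hK
  exact pos_of_light lam (by linarith) _ (t_OK False 1) (light6a pr_Star pr_GC lam h)
    V E X hX h0 hK

theorem class6b (lam : ℝ) (h : 6 ≤ lam) : ClassPos lam True 2 := by
  intro V _ _ _ E X hX h0 hK
  exact pos_of_light lam (by linarith) _ (t_OK True 2) (light6b pr_Star pr_GC lam h)
    V E X hX h0 hK

theorem class7a (lam : ℝ) (h : 7 ≤ lam) : ClassPos lam False 2 := by
  intro V _ _ _ E X hX h0 hK
  exact pos_of_light lam (by linarith) _ (t_OK False 2)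
    (light7a pr_Star pr_GC lam h (small7 lam h)) V E X hX h0 hK

theorem class7b (lam : ℝ) (h : 7 ≤ lam) : ClassPos lam True 3 := by
  intro V _ _ _ E X hX h0 hK
  exact pos_of_light lam (by linarith) _ (t_OK True 3)
    (light7b pr_Star pr_GC lam h (small7 lam h)) V E X hX h0 hK

end Pool.Agent.Work.MP_9f8812_co.LG
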