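import Pool.Agent.Work.MP_a8f287_co.Defs

/-!
# Lifts of graphic matroids without M(K5)-minor: definitions

Everything lives in finite dimensional vector spaces over `ZMod 2`; a simple binary matroid is a
finite set `E` of nonzero vectors; `HasK5`, `Gen`, `Pres`, `VC`, `Good` are the definitions of
`Pool.Agent.Work.MP_a8f287_co.Defs` (all light).
-/

set_option autoImplicit false

namespace Pool.Agent.Work.MP_9f8812_co.LG

open Submodule Module
open Pool.Agent.WW (HasK5 Gen Pres VC Good)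

section

variable {V : Type} [AddCommGroup V] [Module (ZMod 2) V]

/-- the characteristic polynomial of `E` with the subspace `K` contracted, normalised by the
dimension of `V` -/
noncomputable def Qp (E : Finset V) (K : Submodule (ZMod 2) V) : Polynomial ℝ :=
  ∑ A ∈ E.powerset, (-1 : Polynomial ℝ) ^ A.card *
    Polynomial.X ^ (finrank (ZMod 2) V - finrank (ZMod 2) ↥(span (ZMod 2) (A : Set V) ⊔ K))

/-- its value at `lam` -/
noncomputable def q (lam : ℝ) (E : Finset V) (K : Submodule (ZMod 2) V) : ℝ :=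
  ∑ A ∈ E.powerset, (-1 : ℝ) ^ A.card *
    lam ^ (finrank (ZMod 2) V - finrank (ZMod 2) ↥(span (ZMod 2) (A : Set V) ⊔ K))

/-- number of linear maps `V → GF(2)^k` which vanish on `K` and are nonzero on `E` -/
noncomputable def cnt (k : ℕ) (E : Finset V) (K : Submodule (ZMod 2) V) : ℕ :=
  Nat.card {f : V →ₗ[ZMod 2] (Fin k → ZMod 2) // (∀ x ∈ K, f x = 0) ∧ ∀ x ∈ E, f x ≠ 0}

/-- number of linear maps `V → GF(2)^k` which agree with `g` on `U` and are nonzero on `A` -/
noncomputable def ext (k : ℕ) (U : Submodule (ZMod 2) V) (A : Finset V)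
    (g : V →ₗ[ZMod 2] (Fin k → ZMod 2)) : ℕ :=
  Nat.card {f : V →ₗ[ZMod 2] (Fin k → ZMod 2) // (∀ x ∈ U, f x = g x) ∧ ∀ x ∈ A, f x ≠ 0}

/-- the number of nonzero coordinates -/
def wt {m : ℕ} (w : Fin m → ZMod 2) : ℕ := (Finset.univ.filter (fun i => w i ≠ 0)).card

/-- the vectors of `E` modulo `X` are the columns of the (reduced) incidence matrix of a graph:
the contraction of `X` is graphic -/
def Gr (E : Set V) (X : Submodule (ZMod 2) V) : Prop :=
  ∃ (m : ℕ) (φ : V →ₗ[ZMod 2] (Fin m → ZMod 2)), LinearMap.ker φ = X ∧ ∀ x ∈ E, wt (φ x) ≤ 2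

/-- `E` modulo `X` is graphic, `X` has dimension at most `t` and, if `p`, is spanned by elements
of `E` -/
def Cl (p : Prop) (t : ℕ) (E : Set V) (X : Submodule (ZMod 2) V) : Prop :=
  Gr E X ∧ finrank (ZMod 2) X ≤ t ∧ (p → Gen E X)

/-- the guts `S ⊓ H` can be filled from the side `H` (identical to `WW.ColSepFill`) -/
def Fill (E : Set V) (S H : Submodule (ZMod 2) V) : Prop :=
  ∃ K : Submodule (ZMod 2) V, Gen (E ∩ (H : Set V)) K ∧ K ≤ H ∧ K ⊓ (S ⊓ H) = ⊥ ∧
    ∀ u ∈ S ⊓ H, u ≠ 0 → Pres (E ∩ (H : Set V)) K u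

end

/-- a property of triples `(V, E, X)` -/
abbrev Prp := ∀ (V : Type) [AddCommGroup V] [Module (ZMod 2) V], Set V → Submodule (ZMod 2) V → Prop

/-- the closure properties of the class -/
structure OK (C : Prp) : Prop where
  del : ∀ (V : Type) [AddCommGroup V] [Module (ZMod 2) V] (E E' : Set V)
    (X : Submodule (ZMod 2) V), C V E X → E' ⊆ E → (∀ x ∈ E, x ∈ X → x ∈ E') → C V E' X
  quo : ∀ (V W : Type) [AddCommGroup V] [Module (ZMod 2) V] [FiniteDimensional (ZMod 2) V]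
    [AddCommGroup W] [Module (ZMod 2) W] (π : V →ₗ[ZMod 2] W) (E : Set V)
    (X : Submodule (ZMod 2) V), Function.Surjective π → Gen E (LinearMap.ker π) → C V E X →
    C W {w | w ≠ 0 ∧ ∃ x ∈ E, π x = w} (X.map π)
  sub : ∀ (V : Type) [AddCommGroup V] [Module (ZMod 2) V] [FiniteDimensional (ZMod 2) V]
    (S : Submodule (ZMod 2) V) (E : Set V) (X : Submodule (ZMod 2) V), (∀ x ∈ E, x ∈ S) →
    C V E X → C ↥S {y | (y : V) ∈ E} (X.comap S.subtype)
  sep : ∀ (V : Type) [AddCommGroup V] [Module (ZMod 2) V] [FiniteDimensional (ZMod 2) V]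
    (E : Set V) (X S H : Submodule (ZMod 2) V), C V E X → (∀ x ∈ E, x ∈ S ∨ x ∈ H) →
    H ≤ span (ZMod 2) (E ∩ (H : Set V)) → finrank (ZMod 2) ↥(S ⊓ H) ≤ 2 → Fill E S H →
    ∃ X' : Submodule (ZMod 2) ↥S, C ↥S {y | (y : V) ∈ E ∨ ((y : V) ∈ H ∧ y ≠ 0)} X'

/-- positivity in dimension less than `r` -/
def IHyp (lam : ℝ) (C : Prp) (r : ℕ) : Prop :=
  ∀ (W : Type) [AddCommGroup W] [Module (ZMod 2) W] [FiniteDimensional (ZMod 2) W]
    (F : Finset W) (Y : Submodule (ZMod 2) W), finrank (ZMod 2) W < r → C W (F : Set W) Y →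
    (0 : W) ∉ F → ¬ HasK5 (F : Set W) → 0 < q lam F ⊥

end Pool.Agent.Work.MP_9f8812_co.LG
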