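import Pool.Agent.Work.MP_9f8812_co.LG.AT

/-!
# Lifts of graphic matroids: numbers and the final statements
-/

set_option autoImplicit false

namespace Pool.Agent.Work.MP_9f8812_co.LG

open Submodule Module
open Pool.Agent.WW

/-- the light star from the density bound -/
theorem star_num (hStar : St_Star) (hGC : St_GC) (p : Prop) (t : ℕ) {V : Type} [AddCommGroup V]
    [Module (ZMod 2) V] [FiniteDimensional (ZMod 2) V] (E : Finset V)
    (X : Submodule (ZMod 2) V) (hX : Cl p t (E : Set V) X) (hg : Good (E : Set V))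
    (ht : t < finrank (ZMod 2) V) :
    ∃ f : V →ₗ[ZMod 2] ZMod 2, f ≠ 0 ∧ X ≤ LinearMap.ker f ∧ ∃ x c : ℕ, x ≤ t ∧ (p → x ≤ c) ∧
      c ≤ 3 * finrank (ZMod 2) V ∧
      ({x ∈ (E : Set V) | f x ≠ 0}).ncard * (finrank (ZMod 2) V - x + 1) ≤
        2 * (3 * finrank (ZMod 2) V - c) := by
  classical
  have hXt : X ≠ ⊤ := by
    rintro rfl
    have := hX.2.1
    rw [finrank_top] at this
    omega
  obtain ⟨f, hf, hXf, hk⟩ := hStar V E X hX.1 hXt
  have hE := good_card E hg
  have hsplit : ({x ∈ (E : Set V) | x ∈ X}).ncard + ({x ∈ (E : Set V) | x ∉ X}).ncard =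
      E.card := by
    rw [← Set.ncard_coe_finset E, ← Set.ncard_union_eq]
    · congr 1
      ext x
      constructor
      · rintro (h | h)
        · exact h.1
        · exact h.1
      · intro h
        by_cases hx : x ∈ X
        · exact Or.inl ⟨h, hx⟩
        · exact Or.inr ⟨h, hx⟩
    · rw [Set.disjoint_left]
      rintro x ⟨_, hx⟩ ⟨_, hx'⟩
      exact hx' hx
  refine ⟨f, hf, hXf, finrank (ZMod 2) X, ({x ∈ (E : Set V) | x ∈ X}).ncard, hX.2.1, ?_, ?_, ?_⟩
  · intro hp
    exact hGC V E X (hX.2.2 hp)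
  · omega
  · refine hk.trans ?_
    omega

theorem light5 (hStar : St_Star) (hGC : St_GC) (lam : ℝ) (h : 5 ≤ lam) :
    Light lam (fun _ _ _ E X => Cl True 1 E X) := by
  intro V _ _ _ E X hX hg hn
  right
  obtain ⟨f, hf, hXf, x, c, hx, hc, hc3, hk⟩ := star_num hStar hGC True 1 E X hX hg (by omega)
  refine ⟨f, hf, hXf, ?_⟩
  have hc := hc trivial
  set k := ({x ∈ (E : Set V) | f x ≠ 0}).ncard
  set n := finrank (ZMod 2) V
  have h5 : k ≤ 5 := by
    by_contra hcon
    push Not at hcon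
    have h1 : 6 * (n - x + 1) ≤ k * (n - x + 1) := Nat.mul_le_mul_right _ (by omega)
    omega
  have h6 : (k : ℝ) ≤ 5 := by exact_mod_cast h5
  linarith

theorem light6a (hStar : St_Star) (hGC : St_GC) (lam : ℝ) (h : 6 ≤ lam) :
    Light lam (fun _ _ _ E X => Cl False 1 E X) := by
  intro V _ _ _ E X hX hg hn
  right
  obtain ⟨f, hf, hXf, x, c, hx, hc, hc3, hk⟩ := star_num hStar hGC False 1 E X hX hg (by omega)
  refine ⟨f, hf, hXf, ?_⟩
  set k := ({x ∈ (E : Set V) | f x ≠ 0}).ncard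
  set n := finrank (ZMod 2) V
  have h5 : k ≤ 6 := by
    by_contra hcon
    push Not at hcon
    have h1 : 7 * (n - x + 1) ≤ k * (n - x + 1) := Nat.mul_le_mul_right _ (by omega)
    omega
  have h6 : (k : ℝ) ≤ 6 := by exact_mod_cast h5
  linarith

theorem light6b (hStar : St_Star) (hGC : St_GC) (lam : ℝ) (h : 6 ≤ lam) :
    Light lam (fun _ _ _ E X => Cl True 2 E X) := by
  intro V _ _ _ E X hX hg hn
  right
  obtain ⟨f, hf, hXf, x, c, hx, hc, hc3, hk⟩ := star_num hStar hGC True 2 E X hX hg (by omega)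
  refine ⟨f, hf, hXf, ?_⟩
  have hc := hc trivial
  set k := ({x ∈ (E : Set V) | f x ≠ 0}).ncard
  set n := finrank (ZMod 2) V
  have h5 : k ≤ 6 := by
    by_contra hcon
    push Not at hcon
    have h1 : 7 * (n - x + 1) ≤ k * (n - x + 1) := Nat.mul_le_mul_right _ (by omega)
    omega
  have h6 : (k : ℝ) ≤ 6 := by exact_mod_cast h5
  linarith

/-- small dimension, `lam ≥ 7` -/
theorem light0 (hAvg : St_Avg) (lam : ℝ) (h : 7 ≤ lam) :
    Light lam (fun V _ _ _ X => FiniteDimensional (ZMod 2) V ∧ finrank (ZMod 2) V ≤ 5 ∧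
      X = ⊥) := by
  intro V _ _ _ E X hX hg hn
  right
  obtain ⟨f, hf, hk⟩ := hAvg V E (by exact_mod_cast hg.zero) (by omega)
  refine ⟨f, hf, by rw [hX.2.2]; exact bot_le, ?_⟩
  have hE := good_card E hg
  have hn5 := hX.2.1
  set k := ({x ∈ (E : Set V) | f x ≠ 0}).ncard
  have hn' : finrank (ZMod 2) V = 4 ∨ finrank (ZMod 2) V = 5 := by omega
  have h7 : k ≤ 7 := by
    rcases hn' with h4 | h4 <;> rw [h4] at hk hE <;> norm_num at hk hE <;> omega
  have h6 : (k : ℝ) ≤ 7 := by exact_mod_cast h7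
  linarith

/-- positivity in small dimension, `lam ≥ 7` -/
def Small7 (lam : ℝ) : Prop := ∀ (V : Type) [AddCommGroup V] [Module (ZMod 2) V]
  [FiniteDimensional (ZMod 2) V] (E : Finset V), finrank (ZMod 2) V ≤ 5 → (0 : V) ∉ E →
  ¬ HasK5 (E : Set V) → 0 < q lam E ⊥

theorem light7a (hStar : St_Star) (hGC : St_GC) (lam : ℝ) (h : 7 ≤ lam) (hs : Small7 lam) :
    Light lam (fun _ _ _ E X => Cl False 2 E X) := by
  intro V _ _ _ E X hX hg hn
  rcases Nat.lt_or_ge 5 (finrank (ZMod 2) V) with h5 | h5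
  · right
    obtain ⟨f, hf, hXf, x, c, hx, hc, hc3, hk⟩ := star_num hStar hGC False 2 E X hX hg (by omega)
    refine ⟨f, hf, hXf, ?_⟩
    set k := ({x ∈ (E : Set V) | f x ≠ 0}).ncard
    set n := finrank (ZMod 2) V
    have h7 : k ≤ 7 := by
      by_contra hcon
      push Not at hcon
      have h1 : 8 * (n - x + 1) ≤ k * (n - x + 1) := Nat.mul_le_mul_right _ (by omega)
      omega
    have h6 : (k : ℝ) ≤ 7 := by exact_mod_cast h7
    linarith
  · left
    exact hs V E h5 (by exact_mod_cast hg.zero) hg.free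

theorem light7b (hStar : St_Star) (hGC : St_GC) (lam : ℝ) (h : 7 ≤ lam) (hs : Small7 lam) :
    Light lam (fun _ _ _ E X => Cl True 3 E X) := by
  intro V _ _ _ E X hX hg hn
  rcases Nat.lt_or_ge 5 (finrank (ZMod 2) V) with h5 | h5
  · right
    obtain ⟨f, hf, hXf, x, c, hx, hc, hc3, hk⟩ := star_num hStar hGC True 3 E X hX hg (by omega)
    refine ⟨f, hf, hXf, ?_⟩
    have hc := hc trivial
    set k := ({x ∈ (E : Set V) | f x ≠ 0}).ncard
    set n := finrank (ZMod 2) V
    have h7 : k ≤ 7 := by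
      by_contra hcon
      push Not at hcon
      have h1 : 8 * (n - x + 1) ≤ k * (n - x + 1) := Nat.mul_le_mul_right _ (by omega)
      omega
    have h6 : (k : ℝ) ≤ 7 := by exact_mod_cast h7
    linarith
  · left
    exact hs V E h5 (by exact_mod_cast hg.zero) hg.free

end Pool.Agent.Work.MP_9f8812_co.LG
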