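import Pool.Agent.Work.MP_9f8812_co.LG.Fin
import Pool.Agent.Work.MP_a8f287_co.Frozen

/-!
# Lifts of graphic matroids: from sets to families of vectors
-/

set_option autoImplicit false

namespace Pool.Agent.Work.MP_9f8812_co.LG

open Submodule Module
open Pool.Agent.WW

/-- positivity for a family of vectors from positivity for the class -/
theorem fam_pos (hFam : St_Fam) (hSub : St_Sub) {n m : ℕ} {ι : Type} [Fintype ι] [DecidableEq ι]
    (v : ι → (Fin n → ZMod 2)) (h0 : ∀ i, v i ≠ 0) (hK : ¬ HasK5 (Set.range v))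
    (φ : (Fin n → ZMod 2) →ₗ[ZMod 2] (Fin m → ZMod 2)) (hφ : ∀ i, wt (φ (v i)) ≤ 2) (lam : ℝ)
    (hlam : 0 < lam) (p : Prop) (t : ℕ)
    (hdim : finrank (ZMod 2) ↥(LinearMap.ker φ ⊓ span (ZMod 2) (Set.range v)) ≤ t)
    (hsp : p → LinearMap.ker φ ⊓ span (ZMod 2) (Set.range v) ≤
      span (ZMod 2) {x | x ∈ Set.range v ∧ φ x = 0})
    (hpos : ∀ (V : Type) [AddCommGroup V] [Module (ZMod 2) V] [FiniteDimensional (ZMod 2) V]
      (E : Finset V) (X : Submodule (ZMod 2) V), Cl p t (E : Set V) X → (0 : V) ∉ E →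
      ¬ HasK5 (E : Set V) → 0 < q lam E ⊥) (hKS : St_KS) :
    0 < ∑ A : Finset ι, (-1 : ℝ) ^ A.card *
      lam ^ (finrank (ZMod 2) ↥(span (ZMod 2) (Set.range v)) -
        finrank (ZMod 2) ↥(span (ZMod 2) (v '' (A : Set ι)))) := by
  classical
  set S := span (ZMod 2) (Set.range v) with hS
  set E : Finset (Fin n → ZMod 2) := Finset.univ.image v with hE
  have hEr : (E : Set (Fin n → ZMod 2)) = Set.range v := by
    rw [hE]; simp
  have hES : ∀ x ∈ (E : Set (Fin n → ZMod 2)), x ∈ S := by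
    intro x hx
    rw [hEr] at hx
    exact subset_span hx
  set ES : Finset ↥S := E.subtype (fun x => x ∈ S) with hESd
  have hmap : ES.map ⟨Subtype.val, Subtype.val_injective⟩ = E := by
    rw [hESd, ← Finset.filter_true_of_mem (s := E) (p := fun x => x ∈ S)
      (fun x hx => hES x (by exact_mod_cast hx))]
    ext x
    simp
  have hset : (ES : Set ↥S) = {y : ↥S | (y : Fin n → ZMod 2) ∈ Set.range v} := by
    rw [← hEr]
    ext y
    simp [hESd]
  set X : Submodule (ZMod 2) ↥S := (LinearMap.ker φ).comap S.subtype with hX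
  have hXmap : X.map S.subtype = LinearMap.ker φ ⊓ S := by
    rw [hX, Submodule.map_comap_subtype, inf_comm]
  have hcl : Cl p t (ES : Set ↥S) X := by
    refine ⟨⟨m, φ.comp S.subtype, ?_, ?_⟩, ?_, ?_⟩
    · rw [LinearMap.ker_comp]
    · intro y hy
      rw [hset] at hy
      obtain ⟨i, hi⟩ := hy
      change wt (φ (y : Fin n → ZMod 2)) ≤ 2
      rw [← hi]
      exact hφ i
    · rw [← hXmap, Submodule.finrank_map_subtype_eq] at hdim
      exact hdim
    · intro hp
      have h1 := hsp hp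
      rw [← hXmap] at h1
      have h2 : (span (ZMod 2) {x | x ∈ Set.range v ∧ φ x = 0}) ≤
          (span (ZMod 2) ((ES : Set ↥S) ∩ (X : Set ↥S))).map S.subtype := by
        rw [span_le]
        rintro x ⟨hx, hx0⟩
        have hxS : x ∈ S := subset_span hx
        refine ⟨⟨x, hxS⟩, subset_span ⟨?_, ?_⟩, rfl⟩
        · rw [hset]; exact hx
        · exact hx0
      have h3 := h1.trans h2
      unfold Gen
      intro y hy
      obtain ⟨z, hz, hzy⟩ := h3 (mem_map_of_mem hy)
      have : z = y := Subtype.ext hzy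
      rw [← this]
      exact hz
  have hq : 0 < q lam ES ⊥ := by
    refine hpos ↥S ES X hcl ?_ ?_
    · intro h
      have h1 : (0 : ↥S) ∈ (ES : Set ↥S) := by exact_mod_cast h
      rw [hset] at h1
      obtain ⟨i, hi⟩ := h1
      exact h0 i hi
    · intro h
      rw [hset] at h
      exact hK (hKS (Fin n → ZMod 2) S (Set.range v) h)
  have h1 := hSub (Fin n → ZMod 2) lam S ES ⊥
  rw [hmap, Submodule.map_bot] at h1
  have hqE : 0 < q lam E ⊥ := by
    rw [h1]
    positivity
  rw [hE, ← hFam (Fin n → ZMod 2) ι lam v] at hqE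
  have hfac : ∑ A : Finset ι, (-1 : ℝ) ^ A.card * lam ^ (finrank (ZMod 2) (Fin n → ZMod 2) -
      finrank (ZMod 2) ↥(span (ZMod 2) (v '' (A : Set ι)))) =
      lam ^ (finrank (ZMod 2) (Fin n → ZMod 2) - finrank (ZMod 2) ↥S) *
      ∑ A : Finset ι, (-1 : ℝ) ^ A.card *
        lam ^ (finrank (ZMod 2) ↥S - finrank (ZMod 2) ↥(span (ZMod 2) (v '' (A : Set ι)))) := by
    rw [Finset.mul_sum]
    refine Finset.sum_congr rfl fun A _ => ?_
    have k1 : finrank (ZMod 2) ↥(span (ZMod 2) (v '' (A : Set ι))) ≤ finrank (ZMod 2) ↥S :=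
      Submodule.finrank_mono (Submodule.span_mono (Set.image_subset_range v _))
    have k2 : finrank (ZMod 2) ↥S ≤ finrank (ZMod 2) (Fin n → ZMod 2) := Submodule.finrank_le _
    have k3 : finrank (ZMod 2) (Fin n → ZMod 2) -
        finrank (ZMod 2) ↥(span (ZMod 2) (v '' (A : Set ι))) =
        (finrank (ZMod 2) (Fin n → ZMod 2) - finrank (ZMod 2) ↥S) +
        (finrank (ZMod 2) ↥S - finrank (ZMod 2) ↥(span (ZMod 2) (v '' (A : Set ι)))) := by omega
    rw [k3, pow_add]
    ring
  rw [hfac] at hqE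
  exact (mul_pos_iff_of_pos_left (by positivity)).1 hqE

end Pool.Agent.Work.MP_9f8812_co.LG
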