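import Pool.Agent.Work.MP_9f8812_co.LG.Stmts

/-!
# Item GT2 of block LG: classes of restrictions to a plane
-/

set_option autoImplicit false

namespace Pool.Agent.Work.MP_9f8812_co.LG

open Submodule Module
open Pool.Agent.WW (HasK5 Gen Pres VC Good)

namespace IGT2

section

variable {V : Type} [AddCommGroup V] [Module (ZMod 2) V]

/-- the nonzero vectors of `GF(2)^k` -/
def NZ (k : ℕ) : Finset (Fin k → ZMod 2) := Finset.univ.filter (fun c => c ≠ 0)

theorem mem_NZ {k : ℕ} {c : Fin k → ZMod 2} : c ∈ NZ k ↔ c ≠ 0 := by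
  simp [NZ]

theorem card_NZ (k : ℕ) : (NZ k).card = 2 ^ k - 1 := by
  unfold NZ
  rw [Finset.filter_ne' Finset.univ (0 : Fin k → ZMod 2),
    Finset.card_erase_of_mem (Finset.mem_univ _), Finset.card_univ, Fintype.card_fun, ZMod.card,
    Fintype.card_fin]

theorem add_zero_iff {k : ℕ} (c e : Fin k → ZMod 2) : c + e = 0 ↔ c = e := by
  constructor
  · intro h
    have h1 : e + e = 0 := ZModModule.add_self e
    calc c = c + (e + e) := by rw [h1, add_zero]
      _ = (c + e) + e := by rw [add_assoc]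
      _ = e := by rw [h, zero_add]
  · rintro rfl
    exact ZModModule.add_self c

theorem agree_iff {k : ℕ} (u w : V) (f g : V →ₗ[ZMod 2] (Fin k → ZMod 2)) :
    (∀ x ∈ span (ZMod 2) {u, w}, f x = g x) ↔ f u = g u ∧ f w = g w := by
  constructor
  · intro h
    exact ⟨h u (subset_span (by simp)), h w (subset_span (by simp))⟩
  · rintro ⟨h1, h2⟩ x hx
    obtain ⟨s, t, rfl⟩ := mem_span_pair.1 hx
    rw [map_add, map_add, map_smul, map_smul, map_smul, map_smul, h1, h2]

theorem zm (s : ZMod 2) : s = 0 ∨ s = 1 := by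
  fin_cases s
  · exact Or.inl rfl
  · exact Or.inr rfl

theorem ker_iff {k : ℕ} {u w : V} {g g' : V →ₗ[ZMod 2] (Fin k → ZMod 2)}
    (h1 : g u = 0 ↔ g' u = 0) (h2 : g w = 0 ↔ g' w = 0) (h3 : g u = g w ↔ g' u = g' w) :
    ∀ x ∈ span (ZMod 2) {u, w}, g x = 0 ↔ g' x = 0 := by
  intro x hx
  obtain ⟨s, t, rfl⟩ := mem_span_pair.1 hx
  rcases zm s with rfl | rfl <;> rcases zm t with rfl | rfl
  · simp
  · simpa using h2
  · simpa using h1
  · rw [one_smul, one_smul, map_add, map_add, add_zero_iff, add_zero_iff]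
    exact h3

theorem exists_fun {u w : V} (hu : u ≠ 0) (huw : u ≠ w) :
    ∃ φ : V →ₗ[ZMod 2] ZMod 2, φ u = 1 ∧ φ w = 0 := by
  have h1 : u ∉ span (ZMod 2) {w} := by
    intro h
    obtain ⟨s, hs⟩ := mem_span_singleton.1 h
    rcases zm s with rfl | rfl
    · rw [zero_smul] at hs
      exact hu hs.symm
    · rw [one_smul] at hs
      exact huw hs.symm
  obtain ⟨φ, hφ, hle⟩ := Submodule.exists_le_ker_of_notMem h1
  refine ⟨φ, ?_, ?_⟩
  · rcases zm (φ u) with h | h
    · exact absurd h hφ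
    · exact h
  · exact LinearMap.mem_ker.1 (hle (mem_span_singleton_self w))

theorem exists_map {k : ℕ} {u w : V} (hu : u ≠ 0) (hw : w ≠ 0) (huw : u ≠ w)
    (c e : Fin k → ZMod 2) : ∃ g : V →ₗ[ZMod 2] (Fin k → ZMod 2), g u = c ∧ g w = e := by
  obtain ⟨φ, h1, h2⟩ := exists_fun hu huw
  obtain ⟨ψ, h3, h4⟩ := exists_fun hw huw.symm
  refine ⟨φ.smulRight c + ψ.smulRight e, ?_, ?_⟩
  · rw [LinearMap.add_apply, LinearMap.smulRight_apply, LinearMap.smulRight_apply, h1, h4,
      one_smul, zero_smul, add_zero]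
  · rw [LinearMap.add_apply, LinearMap.smulRight_apply, LinearMap.smulRight_apply, h2, h3,
      one_smul, zero_smul, zero_add]

end

end IGT2

open IGT2 in
/-- Item [GT2] -/
theorem pr_GT2 (hGS : St_GS) : St_GT2 := by
  classical
  intro V _ _ _ _ k A u w hu hw huw hk
  have : Finite V := Module.finite_of_finite (ZMod 2)
  have : Finite (V →ₗ[ZMod 2] (Fin k → ZMod 2)) := DFunLike.finite _
  have : Fintype (V →ₗ[ZMod 2] (Fin k → ZMod 2)) := Fintype.ofFinite _
  set G : Finset (V →ₗ[ZMod 2] (Fin k → ZMod 2)) :=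
    Finset.univ.filter (fun f => ∀ x ∈ A, f x ≠ 0) with hG
  have hext : ∀ g : V →ₗ[ZMod 2] (Fin k → ZMod 2), ext k (span (ZMod 2) {u, w}) A g =
      (G.filter (fun f => (f u, f w) = (g u, g w))).card := by
    intro g
    unfold ext
    rw [Nat.card_eq_fintype_card, Fintype.card_subtype, hG, Finset.filter_filter]
    congr 1
    ext f
    simp only [Finset.mem_filter, Finset.mem_univ, true_and]
    rw [agree_iff, Prod.mk.injEq]
    exact and_comm
  -- a number for every kernel
  have hex : ∀ Q : (V →ₗ[ZMod 2] (Fin k → ZMod 2)) → Prop,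
      (∀ g g', Q g → Q g' → ∀ x ∈ span (ZMod 2) {u, w}, g x = 0 ↔ g' x = 0) →
      ∃ a : ℕ, ∀ g, Q g → ext k (span (ZMod 2) {u, w}) A g = a := by
    intro Q hQ
    by_cases h : ∃ g, Q g
    · obtain ⟨g0, h0⟩ := h
      exact ⟨ext k (span (ZMod 2) {u, w}) A g0, fun g hg =>
        hGS V k _ A g g0 (hQ g g0 hg h0)⟩
    · exact ⟨0, fun g hg => absurd ⟨g, hg⟩ h⟩
  obtain ⟨a, ha⟩ := hex (fun g => g u ≠ 0 ∧ g w ≠ 0 ∧ g u ≠ g w) (fun g g' h h' =>
    ker_iff (iff_of_false h.1 h'.1) (iff_of_false h.2.1 h'.2.1) (iff_of_false h.2.2 h'.2.2))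
  obtain ⟨b1, hb1⟩ := hex (fun g => g u = 0 ∧ g w ≠ 0) (fun g g' h h' =>
    ker_iff (iff_of_true h.1 h'.1) (iff_of_false h.2 h'.2)
      (iff_of_false (by rw [h.1]; exact fun e => h.2 e.symm) (by rw [h'.1]; exact fun e => h'.2 e.symm)))
  obtain ⟨b2, hb2⟩ := hex (fun g => g u ≠ 0 ∧ g w = 0) (fun g g' h h' =>
    ker_iff (iff_of_false h.1 h'.1) (iff_of_true h.2 h'.2)
      (iff_of_false (by rw [h.2]; exact h.1) (by rw [h'.2]; exact h'.1)))
  obtain ⟨b3, hb3⟩ := hex (fun g => g u ≠ 0 ∧ g u = g w) (fun g g' h h' =>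
    ker_iff (iff_of_false h.1 h'.1)
      (iff_of_false (by rw [← h.2]; exact h.1) (by rw [← h'.2]; exact h'.1))
      (iff_of_true h.2 h'.2))
  -- numbers of maps with values in a set of pairs
  have hfib : ∀ (T : Finset ((Fin k → ZMod 2) × (Fin k → ZMod 2))) (b : ℕ),
      (∀ g : V →ₗ[ZMod 2] (Fin k → ZMod 2), (g u, g w) ∈ T →
        ext k (span (ZMod 2) {u, w}) A g = b) →
      (G.filter (fun f => (f u, f w) ∈ T)).card = T.card * b := by
    intro T b hb
    rw [Finset.card_eq_sum_card_fiberwise (f := fun f => (f u, f w)) (t := T)]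
    · rw [← smul_eq_mul, ← Finset.sum_const]
      refine Finset.sum_congr rfl fun p hp => ?_
      obtain ⟨g, hg1, hg2⟩ := exists_map hu hw huw p.1 p.2
      have hgp : (g u, g w) = p := by rw [hg1, hg2]
      rw [Finset.filter_filter, ← hb g (by rw [hgp]; exact hp), hext g, hgp]
      congr 1
      ext f
      simp only [Finset.mem_filter]
      constructor
      · rintro ⟨h3, -, h4⟩
        exact ⟨h3, h4⟩
      · rintro ⟨h3, h4⟩
        exact ⟨h3, by rw [h4]; exact hp, h4⟩
    · intro f hf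
      exact (Finset.mem_filter.1 (Finset.mem_coe.1 hf)).2
  have h2k : 1 ≤ 2 ^ k := Nat.one_le_two_pow
  have hcast : (((2 ^ k - 1 : ℕ) : ℕ) : ℝ) = (2 : ℝ) ^ k - 1 := by
    rw [Nat.cast_sub h2k]
    push_cast
    ring
  -- the classes
  have cA : ((G.filter (fun f => (f u, f w) ∈ (NZ k).offDiag)).card : ℝ) =
      ((2 : ℝ) ^ k - 1) * ((2 : ℝ) ^ k - 2) * a := by
    rw [hfib (NZ k).offDiag a (fun g hg => by
      rw [Finset.mem_offDiag, mem_NZ, mem_NZ] at hg
      exact ha g hg), Finset.offDiag_card, card_NZ, Nat.cast_mul, Nat.cast_sub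
      (by nlinarith [Nat.sub_le (2 ^ k) 1, Nat.zero_le ((2 ^ k - 1) * (2 ^ k - 1)), Nat.le_self_pow (n := 2) (by norm_num) (2 ^ k - 1), sq (2 ^ k - 1)]),
      Nat.cast_mul, hcast]
    ring
  have c1 : ((G.filter (fun f => (f u, f w) ∈ ({0} : Finset (Fin k → ZMod 2)) ×ˢ (NZ k))).card : ℝ) =
      ((2 : ℝ) ^ k - 1) * b1 := by
    rw [hfib (({0} : Finset (Fin k → ZMod 2)) ×ˢ (NZ k)) b1 (fun g hg => by
      rw [Finset.mem_product, Finset.mem_singleton, mem_NZ] at hg
      exact hb1 g hg), Finset.card_product, Finset.card_singleton, one_mul, card_NZ,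
      Nat.cast_mul, hcast]
  have c2 : ((G.filter (fun f => (f u, f w) ∈ (NZ k) ×ˢ ({0} : Finset (Fin k → ZMod 2)))).card : ℝ) =
      ((2 : ℝ) ^ k - 1) * b2 := by
    rw [hfib ((NZ k) ×ˢ ({0} : Finset (Fin k → ZMod 2))) b2 (fun g hg => by
      rw [Finset.mem_product, Finset.mem_singleton, mem_NZ] at hg
      exact hb2 g hg), Finset.card_product, Finset.card_singleton, mul_one, card_NZ,
      Nat.cast_mul, hcast]
  have c3 : ((G.filter (fun f => (f u, f w) ∈ (NZ k).diag)).card : ℝ) =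
      ((2 : ℝ) ^ k - 1) * b3 := by
    rw [hfib (NZ k).diag b3 (fun g hg => by
      rw [Finset.mem_diag, mem_NZ] at hg
      exact hb3 g hg), Finset.diag_card, card_NZ, Nat.cast_mul, hcast]
  have hbot : ∀ f : V →ₗ[ZMod 2] (Fin k → ZMod 2), ∀ x ∈ (⊥ : Submodule (ZMod 2) V), f x = 0 := by
    intro f x hx
    rw [(Submodule.mem_bot (ZMod 2)).1 hx, map_zero]
  have hsp : ∀ (f : V →ₗ[ZMod 2] (Fin k → ZMod 2)) (v : V),
      (∀ x ∈ span (ZMod 2) {v}, f x = 0) ↔ f v = 0 := by
    intro f v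
    constructor
    · intro h
      exact h v (mem_span_singleton_self v)
    · intro h x hx
      obtain ⟨s, rfl⟩ := mem_span_singleton.1 hx
      rw [map_smul, h, smul_zero]
  refine ⟨a, b1, b2, b3, fun g h1 h2 h3 => ha g ⟨h1, h2, h3⟩, fun g h1 h2 => hb1 g ⟨h1, h2⟩,
    fun g h1 h2 => hb2 g ⟨h1, h2⟩, fun g h1 h2 => hb3 g ⟨h1, h2⟩, ?_, ?_, ?_, ?_, rfl, ?_⟩
  · rw [← cA]
    congr 1
    unfold cnt
    rw [Nat.card_eq_fintype_card, Fintype.card_subtype, hG, Finset.filter_filter]
    congr 1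
    ext f
    simp only [Finset.mem_filter, Finset.mem_univ, true_and, Finset.mem_insert,
      Finset.mem_offDiag, mem_NZ]
    constructor
    · rintro ⟨-, h⟩
      refine ⟨fun x hx => h x (Or.inr (Or.inr (Or.inr hx))), h u (Or.inl rfl),
        h w (Or.inr (Or.inl rfl)), fun e => ?_⟩
      have h4 := h (u + w) (Or.inr (Or.inr (Or.inl rfl)))
      rw [map_add] at h4
      exact h4 ((add_zero_iff _ _).2 e)
    · rintro ⟨h, h1, h2, h3⟩
      refine ⟨hbot f, ?_⟩
      rintro x (rfl | rfl | rfl | hx)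
      · exact h1
      · exact h2
      · rw [map_add]
        exact fun e => h3 ((add_zero_iff _ _).1 e)
      · exact h x hx
  · rw [← c1]
    congr 1
    unfold cnt
    rw [Nat.card_eq_fintype_card, Fintype.card_subtype, hG, Finset.filter_filter]
    congr 1
    ext f
    simp only [Finset.mem_filter, Finset.mem_univ, true_and, Finset.mem_insert,
      Finset.mem_product, Finset.mem_singleton, mem_NZ]
    rw [hsp]
    constructor
    · rintro ⟨h0, h⟩
      exact ⟨fun x hx => h x (Or.inr (Or.inr hx)), h0, h w (Or.inl rfl)⟩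
    · rintro ⟨h, h1, h2⟩
      refine ⟨h1, ?_⟩
      rintro x (rfl | rfl | hx)
      · exact h2
      · rw [map_add, h1, zero_add]
        exact h2
      · exact h x hx
  · rw [← c2]
    congr 1
    unfold cnt
    rw [Nat.card_eq_fintype_card, Fintype.card_subtype, hG, Finset.filter_filter]
    congr 1
    ext f
    simp only [Finset.mem_filter, Finset.mem_univ, true_and, Finset.mem_insert,
      Finset.mem_product, Finset.mem_singleton, mem_NZ]
    rw [hsp]
    constructor
    · rintro ⟨h0, h⟩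
      exact ⟨fun x hx => h x (Or.inr (Or.inr hx)), h u (Or.inl rfl), h0⟩
    · rintro ⟨h, h1, h2⟩
      refine ⟨h2, ?_⟩
      rintro x (rfl | rfl | hx)
      · exact h1
      · rw [map_add, h2, add_zero]
        exact h1
      · exact h x hx
  · rw [← c3]
    congr 1
    unfold cnt
    rw [Nat.card_eq_fintype_card, Fintype.card_subtype, hG, Finset.filter_filter]
    congr 1
    ext f
    simp only [Finset.mem_filter, Finset.mem_univ, true_and, Finset.mem_insert,
      Finset.mem_diag, mem_NZ]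
    rw [hsp, map_add, add_zero_iff]
    constructor
    · rintro ⟨h0, h⟩
      exact ⟨fun x hx => h x (Or.inr (Or.inr hx)), h u (Or.inl rfl), h0⟩
    · rintro ⟨h, h1, h2⟩
      refine ⟨h2, ?_⟩
      rintro x (rfl | rfl | hx)
      · exact h1
      · rw [← h2]
        exact h1
      · exact h x hx
  · have e1 : cnt k A ⊥ = G.card := by
      unfold cnt
      rw [Nat.card_eq_fintype_card, Fintype.card_subtype, hG]
      congr 1
      ext f
      simp only [Finset.mem_filter, Finset.mem_univ, true_and]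
      exact ⟨fun h => h.2, fun h => ⟨hbot f, h⟩⟩
    have e2 : ∀ G' : Finset (V →ₗ[ZMod 2] (Fin k → ZMod 2)),
        G'.card = (G'.filter (fun f => (f u, f w) ∈ (NZ k).offDiag)).card +
        ((G'.filter (fun f => (f u, f w) ∈ ({0} : Finset (Fin k → ZMod 2)) ×ˢ (NZ k))).card +
        (G'.filter (fun f => (f u, f w) ∈ (NZ k) ×ˢ ({0} : Finset (Fin k → ZMod 2)))).card +
        (G'.filter (fun f => (f u, f w) ∈ (NZ k).diag)).card) +
        (G'.filter (fun f => (f u, f w) =
          ((0 : V →ₗ[ZMod 2] (Fin k → ZMod 2)) u, (0 : V →ₗ[ZMod 2] (Fin k → ZMod 2)) w))).card := by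
      intro G'
      rw [Finset.card_filter, Finset.card_filter, Finset.card_filter, Finset.card_filter,
        Finset.card_filter, Finset.card_eq_sum_ones, ← Finset.sum_add_distrib,
        ← Finset.sum_add_distrib, ← Finset.sum_add_distrib, ← Finset.sum_add_distrib]
      refine Finset.sum_congr rfl fun f _ => ?_
      simp only [Finset.mem_offDiag, Finset.mem_diag, Finset.mem_product, Finset.mem_singleton,
        mem_NZ, LinearMap.zero_apply, Prod.mk.injEq]
      by_cases h1 : f u = 0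
      · by_cases h2 : f w = 0
        · simp [h1, h2]
        · simp [h1, h2]
      · by_cases h2 : f w = 0
        · simp [h1, h2]
        · by_cases h3 : f u = f w
          · simp [h2, h3]
          · simp [h1, h2, h3]
    rw [e1, e2 G, ← hext 0]
    push_cast
    rw [cA, c1, c2, c3]
    ring

end Pool.Agent.Work.MP_9f8812_co.LG
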